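import Pool.Agent.Lib.MP_19d7db_an_F.Null

/-!
# Billiards in simple polygons: sides next to an absorbing side

An orbit which avoids the absorbing sides does not meet a side which forms a convex corner with an
absorbing side at a small angle.
-/

open Complex Set Filter Topology MeasureTheory
open scoped ENNReal

namespace Pool.Agent.Lib.MP_19d7db_an

variable {n : ℕ}

/-- Decomposition of a vector. -/
lemma cr_decomp (e e' v : ℂ) : (cr e e' : ℂ) * v = (cr v e' : ℂ) * e + (cr e v : ℂ) * e' := by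
  apply Complex.ext
  · simp only [cr, add_re, re_ofReal_mul]; ring
  · simp only [cr, add_im, im_ofReal_mul]; ring

/-- A ray which starts on a side at a small angle and comes near the vertex of a convex corner is
close to the vertex when it leaves the polygon. -/
lemma graze_dist {Ω : Set ℂ} {V e e' : ℂ} {τ η r0 : ℝ} (hτ : τ * τ = 1) (hη : 0 < η)
    (hη1 : η ≤ 1 / 2) (hr0 : 0 < r0) (hcr : 0 < τ * cr e e')
    (hseg : ∀ b ∈ Ioo (0 : ℝ) 1, V + b * e' ∉ Ω)
    (hTri : ∀ a h : ℝ, 0 ≤ a → a ≤ 1 → 0 < h → h ≤ η * a → h ≤ η * (1 - a) →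
      V + ((a - 1 : ℝ) + (τ * h : ℝ) * I) * e ∈ Ω) :
    ∃ ε, 0 < ε ∧ ε ≤ ‖e‖ / 2 ∧ ∀ v : ℂ, ‖v‖ = 1 → 0 < τ * cr e v → τ * cr e v < ε → 0 < dt e v →
      ∀ σ ∈ Ioo (0 : ℝ) 1, ∀ t : ℝ, 0 < t → (∀ u ∈ Ioo 0 t, V - σ * e + u * v ∈ Ω) →
        V - σ * e + t * v ∉ Ω → dist (V - σ * e + t * v) V < r0 := by
  set k := τ * cr e e' with hk
  have he0 : e ≠ 0 := by
    rintro rfl
    simp [cr] at hk
    linarith
  have he0' : e' ≠ 0 := by
    rintro rfl
    simp [cr] at hk
    linarith
  set L := ‖e‖ with hL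
  set L' := ‖e'‖ with hL'
  have hLp : 0 < L := norm_pos_iff.2 he0
  have hLp' : 0 < L' := norm_pos_iff.2 he0'
  set C1 := (k / (η * L ^ 2) + L' / L) * L + L' with hC1
  have hC1p : 0 < C1 := by positivity
  set ε := min (L / 2) (min (k / (4 * L')) (min (η * L / 2) (min (k / (4 * L))
    (r0 * k / (4 * L * C1))))) with hε
  have hε0 : 0 < ε := by positivity
  have b1 : ε ≤ L / 2 := min_le_left _ _
  have b2 : ε ≤ k / (4 * L') := (min_le_right _ _).trans (min_le_left _ _)
  have b3 : ε ≤ η * L / 2 := (min_le_right _ _).trans ((min_le_right _ _).trans (min_le_left _ _))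
  have b4 : ε ≤ k / (4 * L) := (min_le_right _ _).trans ((min_le_right _ _).trans
    ((min_le_right _ _).trans (min_le_left _ _)))
  have b5 : ε ≤ r0 * k / (4 * L * C1) := (min_le_right _ _).trans ((min_le_right _ _).trans
    ((min_le_right _ _).trans (min_le_right _ _)))
  refine ⟨ε, hε0, b1, ?_⟩
  intro v hv hs0 hsε hc0 σ hσ t ht hin hout
  set s := τ * cr e v with hs
  set c := dt e v with hc
  have hcrev : cr e v = τ * s := by rw [hs]; linear_combination (-cr e v) * hτ
  have hcree : cr e e' = τ * k := by rw [hk]; linear_combination (-cr e e') * hτ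
  -- `c` is not small
  have hsc : s ^ 2 + c ^ 2 = L ^ 2 := by
    have h1 := cr_sq_add_dt_sq e v
    rw [hv, hcrev] at h1
    have : (τ * s) ^ 2 = s ^ 2 := by linear_combination (s ^ 2) * hτ
    rw [this] at h1
    linarith
  have hcL : L / 2 < c := by
    have : s < L / 2 := by linarith
    nlinarith
  -- `m`
  set m := τ * cr v e' with hm
  have hmm : L ^ 2 * m = c * k - s * dt e e' := by
    have h1 : e.re ^ 2 + e.im ^ 2 = L ^ 2 := by
      rw [hL, ← dt_self]; simp only [dt]; ring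
    have h2 : L ^ 2 * cr v e' = c * cr e e' - cr e v * dt e e' := by
      rw [← h1, hc]
      simp only [cr, dt]
      ring
    rw [hm, hk]
    have h3 : s * dt e e' = τ * (cr e v * dt e e') := by rw [hs]; ring
    rw [h3]
    linear_combination τ * h2
  have hdt : |dt e e'| ≤ L * L' := abs_dt_le e e'
  have hdt1 := (abs_le.1 hdt).1
  have hdt2 := (abs_le.1 hdt).2
  have hsL' : s * L' < k / 4 := by
    have h1 : s < k / (4 * L') := by linarith
    rw [lt_div_iff₀ (by positivity)] at h1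
    linarith
  have hmpos : k / (4 * L) ≤ m := by
    rw [div_le_iff₀ (by positivity)]
    have h1 : s * dt e e' ≤ s * (L * L') := mul_le_mul_of_nonneg_left hdt2 hs0.le
    have h2 : L * (L * m) = c * k - s * dt e e' := by rw [← hmm]; ring
    have h3 : L * (k / 4) ≤ L * (L * m) := by
      rw [h2]
      have h4 : L / 2 * k ≤ c * k := mul_le_mul_of_nonneg_right hcL.le hcr.le
      have h5 : s * (L * L') = L * (s * L') := by ring
      have h6 : L * (s * L') ≤ L * (k / 4) := mul_le_mul_of_nonneg_left hsL'.le hLp.le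
      linarith
    have h7 := le_of_mul_le_mul_left h3 hLp
    linarith
  have hm0 : 0 < m := lt_of_lt_of_le (by positivity) hmpos
  have hsm : s / m < 1 ∧ s / m ≤ 4 * L * s / k := by
    constructor
    · rw [div_lt_one hm0]
      linarith
    · rw [div_le_div_iff₀ hm0 hcr]
      have h1 : k ≤ m * (4 * L) := by rwa [div_le_iff₀ (by positivity)] at hmpos
      have h2 := mul_le_mul_of_nonneg_left h1 hs0.le
      linarith
  -- the crossing with the other side
  have hkv : (k : ℂ) * v = (m : ℂ) * e + (s : ℂ) * e' := by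
    have h1 := cr_decomp e e' v
    have h2 : ((τ : ℝ) : ℂ) * ((cr e e' : ℂ) * v) = (τ : ℂ) * ((cr v e' : ℂ) * e + (cr e v : ℂ) * e') := by
      rw [h1]
    rw [hk, hm, hs]
    push_cast
    linear_combination h2
  have hkc : (k : ℂ) ≠ 0 := by exact_mod_cast hcr.ne'
  have hv' : v = ((m / k : ℝ) : ℂ) * e + ((s / k : ℝ) : ℂ) * e' := by
    push_cast
    field_simp
    linear_combination hkv
  have hpt : ∀ u : ℝ, V - σ * e + u * v = V + (((-(σ - u * m / k) : ℝ) : ℂ) * e +
      ((u * s / k : ℝ) : ℂ) * e') := by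
    intro u
    conv_lhs => rw [hv']
    push_cast
    ring
  have htt : t ≤ σ * k / m := by
    by_contra hcon
    push Not at hcon
    have h1 : 0 < σ * k / m := div_pos (mul_pos hσ.1 hcr) hm0
    have h2 := hin _ ⟨h1, hcon⟩
    rw [hpt] at h2
    have e1 : σ - σ * k / m * m / k = 0 := by field_simp; ring
    have e2 : σ * k / m * s / k = σ * (s / m) := by field_simp
    rw [e1, e2] at h2
    apply hseg (σ * (s / m)) ⟨mul_pos hσ.1 (by positivity), ?_⟩
    · convert h2 using 2
      push_cast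
      ring
    · have := hsm.1
      have h3 : 0 < s / m := by positivity
      nlinarith [hσ.2, hσ.1]
  set α := σ - t * m / k with hα
  set β := t * s / k with hβ
  have hα0 : 0 ≤ α := by
    rw [hα, sub_nonneg, div_le_iff₀ hcr]
    rw [le_div_iff₀ hm0] at htt
    linarith
  have hβ0 : 0 < β := by positivity
  have hβs : β ≤ s / m := by
    rw [hβ, div_le_div_iff₀ hcr hm0]
    rw [le_div_iff₀ hm0] at htt
    have h1 := mul_le_mul_of_nonneg_right htt hs0.le
    have h2 : σ * k * s ≤ 1 * k * s := by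
      apply mul_le_mul_of_nonneg_right _ hs0.le
      exact mul_le_mul_of_nonneg_right hσ.2.le hcr.le
    nlinarith
  -- frame coordinates
  set y : ℂ := (((-α : ℝ) : ℂ) * e + (β : ℂ) * e') with hy
  have hyp : V - σ * e + t * v = V + y := hpt t
  have hcy : cr e y = τ * (β * k) := by
    rw [hy, cr_add_right, cr_smul_right, cr_smul_right, cr_self, hcree]; ring
  have hdy : dt e y = -α * L ^ 2 + β * dt e e' := by
    rw [hy, dt_add_right, dt_smul_right, dt_smul_right, dt_self]
  have hyframe : y = ((dt e y / L ^ 2 : ℝ) + (cr e y / L ^ 2 : ℝ) * I) * e := by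
    have h1 : e.re ^ 2 + e.im ^ 2 = L ^ 2 := by
      rw [hL, ← dt_self]; simp only [dt]; ring
    have h2 : (L : ℂ) ^ 2 * y = (dt e y + cr e y * I) * e := by
      have h3 : (L : ℂ) ^ 2 = ((e.re ^ 2 + e.im ^ 2 : ℝ) : ℂ) := by rw [h1]; push_cast; rfl
      rw [h3]
      apply Complex.ext
      · simp only [dt, cr, mul_re, add_re, add_im, ofReal_re, ofReal_im, mul_im, I_re, I_im]
        ring
      · simp only [dt, cr, mul_re, add_re, add_im, ofReal_re, ofReal_im, mul_im, I_re, I_im]
        ring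
    have hLc : (L : ℂ) ≠ 0 := by exact_mod_cast hLp.ne'
    push_cast
    field_simp
    linear_combination h2
  set h := β * k / L ^ 2 with hh
  set a := 1 + dt e y / L ^ 2 with ha
  have hh0 : 0 < h := by positivity
  have hpoint : V - σ * e + t * v = V + ((a - 1 : ℝ) + (τ * h : ℝ) * I) * e := by
    rw [hyp]
    conv_lhs => rw [hyframe]
    rw [hcy]
    have e1 : a - 1 = dt e y / L ^ 2 := by rw [ha]; ring
    have e2 : τ * h = τ * (β * k) / L ^ 2 := by rw [hh]; ring
    rw [e1, e2]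
  have ha2 : a = 1 - σ + t * c / L ^ 2 := by
    have h1 : dt e y = -σ * L ^ 2 + t * c := by
      have h2 : y = ((-σ : ℝ) : ℂ) * e + (t : ℂ) * v := by
        have := hyp
        push_cast
        linear_combination -this
      rw [h2, dt_add_right, dt_smul_right, dt_smul_right, dt_self]
    rw [ha, h1]
    field_simp
    ring
  have hh2 : h = t * s / L ^ 2 := by
    rw [hh, hβ]
    field_simp
  have hnT : ¬ h ≤ η * (1 - a) := by
    intro h1
    apply hout
    rw [hpoint]
    have ha0 : 0 ≤ a := by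
      rw [ha2]
      have : 0 < t * c / L ^ 2 := by positivity
      linarith [hσ.2]
    have ha1 : a ≤ 1 := by
      by_contra hcon
      push Not at hcon
      nlinarith
    refine hTri a h ha0 ha1 hh0 ?_ h1
    rw [hh2, ha2]
    have h3 : s ≤ η * c := by
      have : s < η * L / 2 := by linarith
      nlinarith
    have h4 : t * s / L ^ 2 ≤ η * (t * c / L ^ 2) := by
      have : t * s / L ^ 2 ≤ t * (η * c) / L ^ 2 := by
        apply div_le_div_of_nonneg_right _ (by positivity)
        exact mul_le_mul_of_nonneg_left h3 ht.le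
      calc _ ≤ t * (η * c) / L ^ 2 := this
        _ = _ := by ring
    nlinarith [hσ.2]
  push Not at hnT
  have hαβ : α ≤ β * (k / (η * L ^ 2) + L' / L) := by
    have h1 : 1 - a < h / η := by
      rw [lt_div_iff₀ hη]; linarith
    have h2 : 1 - a = α - β * dt e e' / L ^ 2 := by
      rw [ha, hdy]
      field_simp
      ring
    have h3 : β * dt e e' / L ^ 2 ≤ β * (L' / L) := by
      have : β * dt e e' / L ^ 2 ≤ β * (L * L') / L ^ 2 := by
        apply div_le_div_of_nonneg_right _ (by positivity)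
        exact mul_le_mul_of_nonneg_left hdt2 hβ0.le
      calc _ ≤ β * (L * L') / L ^ 2 := this
        _ = _ := by field_simp
    have h4 : h / η = β * (k / (η * L ^ 2)) := by
      rw [hh]; field_simp
    rw [h2, h4] at h1
    nlinarith
  have hynorm : ‖y‖ ≤ β * C1 := by
    have h1 : ‖y‖ ≤ α * L + β * L' := by
      calc ‖y‖ ≤ ‖((-α : ℝ) : ℂ) * e‖ + ‖(β : ℂ) * e'‖ := norm_add_le _ _
        _ = α * L + β * L' := by
          rw [norm_mul, norm_mul, Complex.norm_real, Complex.norm_real, Real.norm_eq_abs,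
            Real.norm_eq_abs, abs_neg, abs_of_nonneg hα0, abs_of_pos hβ0]
    have h2 := mul_le_mul_of_nonneg_right hαβ hLp.le
    rw [hC1]
    nlinarith
  have hfin : β * C1 < r0 := by
    have h1 : β ≤ 4 * L * s / k := hβs.trans hsm.2
    have h2 : s < r0 * k / (4 * L * C1) := by linarith
    rw [lt_div_iff₀ (by positivity)] at h2
    have h3 : β * C1 ≤ 4 * L * s / k * C1 := mul_le_mul_of_nonneg_right h1 hC1p.le
    have h4 : 4 * L * s / k * C1 < r0 := by
      rw [div_mul_eq_mul_div, div_lt_iff₀ hcr]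
      nlinarith
    linarith
  rw [hyp, dist_eq_norm, add_sub_cancel_left]
  linarith

namespace SG

variable {Y : Dom n} {C η : ℝ} (hg : SG Y C η) {A : Set (ZMod n)}

include hg

/-- Near a vertex there are only two sides. -/
lemma vertex_ball [NeZero n] (k : ZMod n) : ∃ r0, 0 < r0 ∧ ∀ y, dist y (Y.p (k + 1)) < r0 →
    ∀ j, j ≠ k → j ≠ k + 1 → y ∉ segment ℝ (Y.p j) (Y.p (j + 1)) := by
  have hfar : ∀ j, j ≠ k → j ≠ k + 1 → Y.p (k + 1) ∉ segment ℝ (Y.p j) (Y.p (j + 1)) := by
    intro j h1 h2 h3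
    have h4 : Y.p (k + 1) ∈ segment ℝ (Y.p (k + 1)) (Y.p (k + 1 + 1)) := left_mem_segment ℝ _ _
    rcases hg.dom.simple j (k + 1) h2 _ h3 h4 with ⟨h5, -⟩ | ⟨h5, h6⟩
    · exact h1 (add_right_cancel h5).symm
    · rw [h5] at h6
      exact hg.dom.ne (k + 1) h6
  have hfar' : ∀ᶠ y in 𝓝 (Y.p (k + 1)), ∀ j, j ≠ k → j ≠ k + 1 →
      y ∉ segment ℝ (Y.p j) (Y.p (j + 1)) := by
    rw [eventually_all]
    intro j
    by_cases h1 : j = k
    · exact Eventually.of_forall fun y h2 => absurd h1 h2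
    by_cases h2 : j = k + 1
    · exact Eventually.of_forall fun y _ h3 => absurd h2 h3
    filter_upwards [(isCompact_seg _ _).isClosed.isOpen_compl.mem_nhds (hfar j h1 h2)] with y hy _ _
    exact hy
  obtain ⟨r0, hr0, hball⟩ := Metric.eventually_nhds_iff.1 hfar'
  exact ⟨r0, hr0, fun y hy => hball hy⟩

/-- The side `i` forms a convex corner with an absorbing side. -/
def _root_.Pool.Agent.Lib.MP_19d7db_an.Dom.Bar (Y : Dom n) (A : Set (ZMod n)) (i : ZMod n) :
    Prop := (i + 1 ∈ A ∧ 0 < cr (Y.e i) (Y.e (i + 1))) ∨ (i - 1 ∈ A ∧ 0 < cr (Y.e (i - 1)) (Y.e i))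

lemma cr_e_dir (hN : ∀ i, i ∉ Y.D) (z : ZMod n × ℝ × ℝ) :
    cr (Y.e z.1) (Y.dir z) = Y.ℓ z.1 * Real.sin z.2.2 := by
  have h1 := hg.cr_tan_dir z.1 z.2
  rw [hg.tan_N (hN _)] at h1
  rw [hg.cr_e_T, ← h1]

/-- The barrier lemma. -/
theorem barrier [NeZero n] (hN : ∀ i, i ∉ Y.D) {i : ZMod n} (hb : Y.Bar A i) :
    ∃ ε, 0 < ε ∧ ∀ z, Y.KK A z → z.1 = i → ε ≤ Y.ℓ i * Real.sin z.2.2 := by
  -- it suffices to consider the rays which approach the corner
  suffices H : ∃ ε, 0 < ε ∧ ∃ κ : ℝ, (κ = 1 ∨ κ = -1) ∧ ε ≤ Y.ℓ i / 2 ∧ ∀ z, Y.KK A z → z.1 = i →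
      0 < κ * dt (Y.e i) (Y.dir z) → ε ≤ Y.ℓ i * Real.sin z.2.2 by
    obtain ⟨ε, hε, κ, hκ, hεℓ, h⟩ := H
    refine ⟨ε, hε, fun z hK hz => ?_⟩
    have hκ2 : κ * κ = 1 := by rcases hκ with h | h <;> rw [h] <;> norm_num
    rcases lt_trichotomy 0 (κ * dt (Y.e i) (Y.dir z)) with h1 | h1 | h1
    · exact h z hK hz h1
    · have h2 : dt (Y.e i) (Y.dir z) = 0 := by
        have : κ * (κ * dt (Y.e i) (Y.dir z)) = 0 := by rw [← h1, mul_zero]
        rw [← mul_assoc, hκ2, one_mul] at this
        exact this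
      have h3 := cr_sq_add_dt_sq (Y.e i) (Y.dir z)
      rw [h2, hg.norm_dir] at h3
      have h4 := hg.cr_e_dir hN z
      rw [hz] at h4
      have h5 := hg.sin_pos_of_phase hK.1
      have h6 := hg.ell_pos i
      have h7 : (Y.ℓ i * Real.sin z.2.2) ^ 2 = Y.ℓ i ^ 2 := by
        rw [← h4, Table.ℓ]; linarith
      have h8 : Y.ℓ i * Real.sin z.2.2 = Y.ℓ i :=
        (pow_left_inj₀ (by positivity) h6.le two_ne_zero).1 h7
      linarith
    · have h2 := h (rev z) (hg.K_rev hK) hz ?_
      · simp only [rev, Real.sin_pi_sub] at h2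
        exact h2
      · rw [hg.dir_rev]
        have h3 := hg.dirIn_refl hN z
        rw [hz] at h3
        have h4 : dt (Y.e i) (-Y.dirIn z) = -dt (Y.e i) (Y.dir z) := by
          have h5 : dt (Y.e i) (Y.dirIn z) = dt (Y.e i) (Y.dir z) := by
            rw [h3]
            have hℓ := hg.ell_pos i
            have hℓc : (Y.ℓ i : ℂ) ≠ 0 := by exact_mod_cast hℓ.ne'
            have h6 : (Y.e i).re ^ 2 + (Y.e i).im ^ 2 = Y.ℓ i ^ 2 := by
              rw [Table.ℓ, ← dt_self]; simp only [dt]; ring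
            have h7 : (Y.e i / Y.ℓ i) ^ 2 * (starRingEnd ℂ) (Y.dir z) =
                ((1 / Y.ℓ i ^ 2 : ℝ) : ℂ) * (Y.e i ^ 2 * (starRingEnd ℂ) (Y.dir z)) := by
              push_cast
              field_simp
            rw [h7, dt_smul_right]
            have h8 : dt (Y.e i) (Y.e i ^ 2 * (starRingEnd ℂ) (Y.dir z)) =
                Y.ℓ i ^ 2 * dt (Y.e i) (Y.dir z) := by
              rw [← h6]
              simp only [dt, pow_two, mul_re, mul_im, conj_re, conj_im]
              ring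
            rw [h8]
            field_simp
          have h6 : dt (Y.e i) (-Y.dirIn z) = -dt (Y.e i) (Y.dirIn z) := by
            simp only [dt, neg_re, neg_im]; ring
          rw [h6, h5]
        rw [h4]
        linarith
  have hη := hg.hη
  have hη1 := hg.hη1
  have hℓ := hg.ell_pos i
  have hhit : ∀ z, Y.KK A z → ∃ z', Y.Hit z z' ∧ z'.1 ∉ A := by
    intro z hK
    obtain ⟨-, z', hh, h0⟩ := (hK.2 1).1
    exact ⟨z', hh, h0⟩
  have hposz : ∀ z : ZMod n × ℝ × ℝ, Y.pos z.1 z.2.1 = Y.p z.1 + (z.2.1 / Y.ℓ z.1 : ℝ) * Y.e z.1 := by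
    intro z
    rw [Y.pos_N (hN _)]
    push_cast
    ring
  rcases hb with ⟨hA, hcr⟩ | ⟨hA, hcr⟩
  · -- the corner at the end of the side
    obtain ⟨r0, hr0, hball⟩ := hg.vertex_ball i
    obtain ⟨ε, hε, hεℓ, H⟩ := graze_dist (Ω := Y.Ω) (V := Y.p (i + 1)) (e := Y.e i)
      (e' := Y.e (i + 1)) (τ := 1) (η := η) (r0 := r0) (by norm_num) hη hη1 hr0 (by linarith)
      (by
        intro b hb
        apply hg.seg_frontier (j := i + 1)
        rw [segment_eq_image']
        exact ⟨b, ⟨hb.1.le, hb.2.le⟩, by simp only [Complex.real_smul, Table.e]⟩)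
      (by
        intro a h h1 h2 h3 h4 h5
        apply hg.tri_mem (k := i) (a := a) (h := h) ⟨h1, h2, h3.le, h4, h5, ?_⟩ h3
        rw [p_succ i]
        push_cast
        ring)
    refine ⟨ε, hε, 1, Or.inl rfl, hεℓ, ?_⟩
    intro z hK hz hdt
    rw [one_mul] at hdt
    by_contra hcon
    push Not at hcon
    obtain ⟨z', hh, hz'⟩ := hhit z hK
    have hcz := hg.cr_e_dir hN z
    rw [hz] at hcz
    have hph := hK.1
    have hsin := hg.sin_pos_of_phase hph
    have hph1 := hph.1
    rw [hz, Y.len_N (hN i)] at hph1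
    obtain ⟨-, hw', t, ht, hpos, hdir, hin⟩ := id hh
    have hq : Y.pos z.1 z.2.1 = Y.p (i + 1) - ((1 - z.2.1 / Y.ℓ i : ℝ) : ℂ) * Y.e i := by
      rw [hposz, hz, p_succ i]; push_cast; ring
    have hσ : (1 - z.2.1 / Y.ℓ i) ∈ Ioo (0 : ℝ) 1 := by
      have h1 : 0 < z.2.1 / Y.ℓ i := div_pos hph1.1 hℓ
      have h2 : z.2.1 / Y.ℓ i < 1 := (div_lt_one hℓ).2 hph1.2
      exact ⟨by linarith, by linarith⟩
    have h1 := H (Y.dir z) (hg.norm_dir z) (by rw [one_mul, hcz]; positivity)
      (by rw [one_mul, hcz]; exact hcon) hdt _ hσ t ht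
      (by
        intro u hu
        have := (hin u hu).1
        rwa [hq] at this)
      (by
        rw [← hq, ← hpos]
        exact hg.seg_frontier (openSegment_subset_segment ℝ _ _ (hg.pos_seg hw'.1 (hN _))))
    rw [← hq, ← hpos] at h1
    have hj1 : z'.1 ≠ i := by
      intro hj
      exact hg.hit_ne (i := z.1) (j := z'.1) hh ⟨hz.trans hj.symm, hN _⟩
    have hj2 : z'.1 ≠ i + 1 := by
      intro hj
      rw [hj] at hz'
      exact hz' hA
    exact hball _ h1 z'.1 hj1 hj2
      (openSegment_subset_segment ℝ _ _ (hg.pos_seg hw'.1 (hN _)))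
  · -- the corner at the beginning of the side
    obtain ⟨r0, hr0, hball⟩ := hg.vertex_ball (i - 1)
    rw [sub_add_cancel] at hball
    have hpi : Y.p i = Y.p (i - 1) + Y.e (i - 1) := by
      have := p_succ (Y := Y) (i - 1)
      rwa [sub_add_cancel] at this
    obtain ⟨ε, hε, hεℓ, H⟩ := graze_dist (Ω := Y.Ω) (V := Y.p i) (e := -Y.e i)
      (e' := -Y.e (i - 1)) (τ := -1) (η := η) (r0 := r0) (by norm_num) hη hη1 hr0
      (by
        have : cr (-Y.e i) (-Y.e (i - 1)) = -cr (Y.e (i - 1)) (Y.e i) := by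
          simp only [cr, neg_re, neg_im]; ring
        rw [this]
        linarith)
      (by
        intro b hb
        apply hg.seg_frontier (j := i - 1)
        rw [segment_eq_image']
        refine ⟨1 - b, ⟨by linarith [hb.2], by linarith [hb.1]⟩, ?_⟩
        simp only [Complex.real_smul]
        have h1 : Y.p (i - 1 + 1) - Y.p (i - 1) = Y.e (i - 1) := rfl
        rw [h1, hpi]
        push_cast
        ring)
      (by
        intro a h h1 h2 h3 h4 h5
        apply hg.tri_mem (k := i) (a := 1 - a) (h := h)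
          ⟨by linarith, by linarith, h3.le, by linarith, by linarith, ?_⟩ h3
        push_cast
        ring)
    rw [norm_neg] at hεℓ
    refine ⟨ε, hε, -1, Or.inr rfl, hεℓ, ?_⟩
    intro z hK hz hdt
    by_contra hcon
    push Not at hcon
    obtain ⟨z', hh, hz'⟩ := hhit z hK
    have hcz := hg.cr_e_dir hN z
    rw [hz] at hcz
    have hph := hK.1
    have hsin := hg.sin_pos_of_phase hph
    have hph1 := hph.1
    rw [hz, Y.len_N (hN i)] at hph1
    obtain ⟨-, hw', t, ht, hpos, hdir, hin⟩ := id hh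
    have hq : Y.pos z.1 z.2.1 = Y.p i - ((z.2.1 / Y.ℓ i : ℝ) : ℂ) * -Y.e i := by
      rw [hposz, hz]; push_cast; ring
    have hσ : (z.2.1 / Y.ℓ i) ∈ Ioo (0 : ℝ) 1 := by
      have h1 : 0 < z.2.1 / Y.ℓ i := div_pos hph1.1 hℓ
      have h2 : z.2.1 / Y.ℓ i < 1 := (div_lt_one hℓ).2 hph1.2
      exact ⟨by linarith, by linarith⟩
    have hc2 : -1 * cr (-Y.e i) (Y.dir z) = Y.ℓ i * Real.sin z.2.2 := by
      rw [← hcz]; simp only [cr, neg_re, neg_im]; ring
    have h1 := H (Y.dir z) (hg.norm_dir z) (by rw [hc2]; positivity)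
      (by rw [hc2]; exact hcon)
      (by
        have : dt (-Y.e i) (Y.dir z) = -1 * dt (Y.e i) (Y.dir z) := by
          simp only [dt, neg_re, neg_im]; ring
        rw [this]
        exact hdt) _ hσ t ht
      (by
        intro u hu
        have := (hin u hu).1
        rwa [hq] at this)
      (by
        rw [← hq, ← hpos]
        exact hg.seg_frontier (openSegment_subset_segment ℝ _ _ (hg.pos_seg hw'.1 (hN _))))
    rw [← hq, ← hpos] at h1
    have hj1 : z'.1 ≠ i := by
      intro hj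
      exact hg.hit_ne (i := z.1) (j := z'.1) hh ⟨hz.trans hj.symm, hN _⟩
    have hj2 : z'.1 ≠ i - 1 := by
      intro hj
      rw [hj] at hz'
      exact hz' hA
    exact hball _ h1 z'.1 hj2 hj1
      (openSegment_subset_segment ℝ _ _ (hg.pos_seg hw'.1 (hN _)))

end SG

end Pool.Agent.Lib.MP_19d7db_an
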