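import Pool.Agent.Lib.MP_19d7db_an_F.Gap

/-!
# Billiards in simple polygons: the dichotomy

On every side and for every direction which is not the direction of a generalised diagonal,
either almost all or almost no orbits avoid the absorbing sides.
-/

open Complex Set Filter Topology MeasureTheory
open scoped ENNReal

namespace Pool.Agent.Lib.MP_19d7db_an

variable {n : ℕ}

namespace SG

variable {Y : Dom n} {C η : ℝ} (hg : SG Y C η) {A : Set (ZMod n)} {Γ : Set ℂ}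

include hg

/-- An orbit which ends on an absorbing side does so also after a small displacement. -/
lemma not_sv_sh [NeZero n] (hN : ∀ i, i ∉ Y.D) : ∀ (k : ℕ) (z : ZMod n × ℝ × ℝ),
    z.2 ∈ Y.Phase z.1 → ¬ Y.FS z → ¬ Y.Sv A k z → ∀ᶠ δ : ℝ in 𝓝 0, ¬ Y.Sv A k (sh z δ) := by
  intro k
  induction k with
  | zero =>
    intro z _ _ h
    exact Eventually.of_forall fun δ => h
  | succ k ih =>
    intro z hz hF h
    by_cases hA : z.1 ∈ A
    · exact Eventually.of_forall fun δ hs => hs.1 hA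
    obtain ⟨z', hz'⟩ := hg.hit_of_not_FS hN hz hF
    have h1 : ¬ Y.Sv A k z' := fun h2 => h ⟨hA, z', hz', h2⟩
    have h2 := ih z' hz'.2.1 (fun h3 => hF (hg.FS_step hN hz' h3)) h1
    have h3 : Tendsto (fun δ : ℝ => -δ) (𝓝 0) (𝓝 0) := by
      have : Continuous fun δ : ℝ => -δ := by fun_prop
      have := this.tendsto 0
      simpa using this
    filter_upwards [h3.eventually h2, hg.hit_sh hN hz'] with δ h4 h5
    rintro ⟨-, y, hy, hs⟩
    rw [hg.hit_unique' hy h5] at hs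
    exact h4 hs

/-- A ray which does not meet images of vertices and whose orbit does not avoid the absorbing
sides is surrounded by such rays. -/
lemma not_K_sh [NeZero n] (hN : ∀ i, i ∉ Y.D) {z : ZMod n × ℝ × ℝ} (hz : z.2 ∈ Y.Phase z.1)
    (h1 : ¬ Y.FS z) (h2 : ¬ Y.FS (rev z)) (hK : ¬ Y.KK A z) :
    ∀ᶠ δ : ℝ in 𝓝 0, ¬ Y.KK A (sh z δ) := by
  have h3 : ∃ k, ¬ Y.Sv A k z ∨ ¬ Y.Sv A k (rev z) := by
    by_contra hcon
    push Not at hcon
    exact hK ⟨hz, hcon⟩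
  obtain ⟨k, h4 | h4⟩ := h3
  · filter_upwards [hg.not_sv_sh hN k z hz h1 h4] with δ h5 hK2
    exact h5 (hK2.2 k).1
  · filter_upwards [hg.not_sv_sh hN k (rev z) (hg.rev_phase hz) h2 h4] with δ h5 hK2
    rw [← rev_sh] at h5
    exact h5 (hK2.2 k).2

/-- On a component, only countably many rays of a given direction meet images of vertices. -/
lemma countable_FS [NeZero n] (hN : ∀ i, i ∉ Y.D) (i : ZMod n) {θ : ℝ} (hθ : Real.sin θ ≠ 0) :
    {s : ℝ | Y.FS (i, (s, θ))}.Countable := by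
  have h1 : {s : ℝ | Y.FS (i, (s, θ))} ⊆
      ⋃ x ∈ Y.WW, {s : ℝ | ∃ τ : ℝ, x = Y.pos i s + τ * Y.dir (i, (s, θ))} := by
    rintro s ⟨x, hx, τ, -, hxe⟩
    exact Set.mem_iUnion₂.2 ⟨x, hx, τ, hxe⟩
  apply ((countable_WW Y).biUnion fun x _ => ?_).mono h1
  apply Set.Subsingleton.countable
  rintro s ⟨t, h2⟩ s' ⟨t', h3⟩
  have hd : Y.dir (i, (s, θ)) = Y.dir (i, (s', θ)) := by
    simp only [Table.dir]
    rw [hg.tan_N (hN _), hg.tan_N (hN _)]
  rw [← hd] at h3
  have c1 : cr (Y.e i / Y.ℓ i) (Y.dir (i, (s, θ))) = Real.sin θ := by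
    have := hg.cr_tan_dir i (s, θ)
    rw [hg.tan_N (hN _)] at this
    exact this
  have h4 : ((s - s' : ℝ) : ℂ) * (Y.e i / Y.ℓ i) = ((t' - t : ℝ) : ℂ) * Y.dir (i, (s, θ)) := by
    have h5 : Y.pos i s - Y.pos i s' = ((s - s' : ℝ) : ℂ) * (Y.e i / Y.ℓ i) := by
      rw [Y.pos_N (hN _), Y.pos_N (hN _)]; push_cast; ring
    rw [← h5]
    push_cast
    linear_combination h3 - h2
  have h5 := congrArg (fun q => cr (Y.dir (i, (s, θ))) q) h4
  simp only [cr_smul_right, cr_self, mul_zero] at h5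
  rw [cr_comm, c1] at h5
  have h6 : (s - s') * Real.sin θ = 0 := by linarith
  have := (mul_eq_zero.1 h6).resolve_right hθ
  linarith

/-- The dichotomy. -/
theorem dichotomy [NeZero n] (hN : ∀ i, i ∉ Y.D) (hΓf : Γ.Finite)
    (hΓ : ∀ z z', Y.KK A z → Y.dir z ∈ Γ → Y.Hit z z' → Y.dir z' ∈ Γ)
    (hΓr : ∀ z, Y.KK A z → Y.dir z ∈ Γ → Y.dir (rev z) ∈ Γ)
    {i : ZMod n} {θ : ℝ} (hθ : θ ∈ Ioo 0 Real.pi) {g : ℂ} (hgd : ∀ s, Y.dir (i, (s, θ)) = g)
    (hgΓ : g ∈ Γ) (hB : g ∉ Y.Bd) :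
    (∀ᵐ s : ℝ, ¬ Y.KK A (i, (s, θ))) ∨ (∀ᵐ s : ℝ, (s, θ) ∈ Y.Phase i → Y.KK A (i, (s, θ))) := by
  by_contra hcon
  obtain ⟨hc1, hc2⟩ := not_or.1 hcon
  have hsin : 0 < Real.sin θ := Real.sin_pos_of_mem_Ioo hθ
  have hsin' : Real.sin (Real.pi - θ) ≠ 0 := by rw [Real.sin_pi_sub]; exact hsin.ne'
  have hF1 : ∀ᵐ s : ℝ, ¬ Y.FS (i, (s, θ)) := by
    have := (hg.countable_FS hN i hsin.ne').measure_zero volume
    rwa [measure_eq_zero_iff_ae_notMem] at this
  have hF2 : ∀ᵐ s : ℝ, ¬ Y.FS (i, (s, Real.pi - θ)) := by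
    have := (hg.countable_FS hN i hsin').measure_zero volume
    rwa [measure_eq_zero_iff_ae_notMem] at this
  -- a dead ray
  obtain ⟨s1, hs1⟩ : ∃ s1 : ℝ, (s1, θ) ∈ Y.Phase i ∧ ¬ Y.KK A (i, (s1, θ)) ∧
      ¬ Y.FS (i, (s1, θ)) ∧ ¬ Y.FS (i, (s1, Real.pi - θ)) := by
    by_contra hcon
    push Not at hcon
    apply hc2
    filter_upwards [hF1, hF2] with s h1 h2 h3
    by_contra hK
    exact h2 (hcon s h3 hK h1)
  obtain ⟨hph1, hdead1, hnF, hnFr⟩ := hs1
  have hiA : i ∉ A := by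
    intro hi
    apply hc1
    exact Eventually.of_forall fun s hK => (hK.2 0).1 hi
  set z1 : ZMod n × ℝ × ℝ := (i, (s1, θ)) with hz1
  have hnear := hg.not_K_sh (A := A) hN (z := z1) hph1 hnF hnFr hdead1
  obtain ⟨ε, hε, hnear⟩ := Metric.eventually_nhds_iff.1 hnear
  have hsh : ∀ s : ℝ, (i, (s, θ)) = sh z1 ((s - s1) * Real.sin θ) := by
    intro s
    simp only [sh, hz1]
    congr 2
    field_simp
    ring
  -- the side of the live rays
  obtain ⟨τ, hτ, hlive⟩ : ∃ τ : ℝ, (τ = 1 ∨ τ = -1) ∧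
      ¬ ∀ᵐ x : ℝ, 0 < x → ¬ Y.KK A (sh z1 (τ * x)) := by
    by_contra hcon
    apply hc1
    have h1 : ∀ᵐ x : ℝ, 0 < x → ¬ Y.KK A (sh z1 (1 * x)) := by
      by_contra h; exact hcon ⟨1, Or.inl rfl, h⟩
    have h2 : ∀ᵐ x : ℝ, 0 < x → ¬ Y.KK A (sh z1 (-1 * x)) := by
      by_contra h; exact hcon ⟨-1, Or.inr rfl, h⟩
    have hq : ∀ {P : ℝ → Prop} (c : ℝ), c ≠ 0 → (∀ᵐ x : ℝ, P x) → ∀ᵐ s : ℝ, P (c * s) := by
      intro P c hc h
      rw [ae_iff] at h ⊢
      have := Real.volume_preimage_mul_left hc {a | ¬ P a}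
      rw [h, mul_zero] at this
      exact this
    have h3 := hq (Real.sin θ) hsin.ne' h1
    have h3' := (measurePreserving_sub_right volume s1).quasiMeasurePreserving.ae h3
    have h4 := hq (-Real.sin θ) (neg_ne_zero.2 hsin.ne') h2
    have h4' := (measurePreserving_sub_right volume s1).quasiMeasurePreserving.ae h4
    have h5 : ∀ᵐ s : ℝ, s ≠ s1 := by
      have := (Set.countable_singleton s1).measure_zero volume
      rwa [measure_eq_zero_iff_ae_notMem] at this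
    filter_upwards [h3', h4', h5] with s a1 a2 a3
    rw [hsh s]
    rcases lt_or_gt_of_ne a3 with h | h
    · have := a2 (by nlinarith)
      have e1 : -1 * (-Real.sin θ * (s - s1)) = (s - s1) * Real.sin θ := by ring
      rwa [e1] at this
    · have := a1 (by nlinarith)
      have e1 : 1 * (Real.sin θ * (s - s1)) = (s - s1) * Real.sin θ := by ring
      rwa [e1] at this
  have hτ1 : |τ| = 1 := by rcases hτ with h | h <;> rw [h] <;> simp
  have hτ2 : τ * τ = 1 := by rcases hτ with h | h <;> rw [h] <;> norm_num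
  set R : Set ℝ := {r | Y.Dead A z1 τ r} with hR
  have hεR : ε ∈ R := by
    change ∀ᵐ x : ℝ, x ∈ Ioo 0 ε → ¬ Y.KK A (sh z1 (τ * x))
    apply Eventually.of_forall
    intro x hx
    apply hnear
    rw [Real.dist_eq, sub_zero, abs_mul, hτ1, one_mul, abs_of_pos hx.1]
    exact hx.2
  obtain ⟨r0, hr0⟩ : ∃ r0, r0 ∉ R := by
    by_contra hcon
    push Not at hcon
    apply hlive
    have h1 : ∀ k : ℕ, ∀ᵐ x : ℝ, x ∈ Ioo 0 (k : ℝ) → ¬ Y.KK A (sh z1 (τ * x)) :=
      fun k => hcon k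
    filter_upwards [ae_all_iff.2 h1] with x hx h0
    obtain ⟨k, hk⟩ := exists_nat_gt x
    exact hx k ⟨h0, hk⟩
  have hbdd : BddAbove R := by
    refine ⟨r0, fun r hr => ?_⟩
    by_contra hcon
    push Not at hcon
    exact hr0 (Dom.Dead.mono hr hcon.le)
  set ρ := sSup R with hρd
  have hρε : ε ≤ ρ := le_csSup hbdd hεR
  have hρ0 : 0 < ρ := hε.trans_le hρε
  have hdρ : Y.Dead A z1 τ ρ := by
    have h1 : ∀ k : ℕ, ∀ᵐ x : ℝ, x ∈ Ioo 0 (ρ - 1 / (k + 1)) → ¬ Y.KK A (sh z1 (τ * x)) := by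
      intro k
      have h2 : ρ - 1 / ((k : ℝ) + 1) < ρ := by
        have : (0 : ℝ) < 1 / ((k : ℝ) + 1) := by positivity
        linarith
      obtain ⟨r, hr, hlt⟩ := exists_lt_of_lt_csSup ⟨ε, hεR⟩ h2
      exact Dom.Dead.mono hr hlt.le
    filter_upwards [ae_all_iff.2 h1] with x hx h0
    obtain ⟨k, hk⟩ := exists_nat_one_div_lt (sub_pos.2 h0.2)
    exact hx k ⟨h0.1, by linarith⟩
  set za := sh z1 (τ * ρ) with hza
  have hdead : Y.Dead A za (-τ) ρ := by
    have h1 := ae_sub_left hdρ ρ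
    filter_upwards [h1] with x hx h0
    have h2 : sh za (-τ * x) = sh z1 (τ * (ρ - x)) := by
      rw [hza, sh_sh]; congr 1; ring
    rw [h2]
    exact hx ⟨by linarith [h0.2], by linarith [h0.1]⟩
  have halive : ∀ r, 0 < r → ¬ Y.Dead A za τ r := by
    intro r hr hd
    have h1 : ρ + r ∈ R := by
      have h2 := ae_add_left hd (-ρ)
      have h3 : ∀ᵐ x : ℝ, x ≠ ρ := by
        have := (Set.countable_singleton ρ).measure_zero volume
        rwa [measure_eq_zero_iff_ae_notMem] at this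
      filter_upwards [h2, h3, hdρ] with x a1 a2 a3 a4
      rcases lt_or_gt_of_ne a2 with h | h
      · exact a3 ⟨a4.1, h⟩
      · have h5 := a1 ⟨by linarith, by linarith [a4.2]⟩
        have h6 : sh za (τ * (-ρ + x)) = sh z1 (τ * x) := by
          rw [hza, sh_sh]; congr 1; ring
        rwa [h6] at h5
    have := le_csSup hbdd h1
    linarith
  obtain ⟨x, hx, hxK⟩ := exists_of_not_dead (halive 1 one_pos)
  have hpha : za.2 ∈ Y.Phase za.1 := by
    have h1 : (sh za (τ * x)).2 ∈ Y.Phase i := hxK.1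
    have h2 : (sh za (τ * x)) = sh z1 (τ * (ρ + x)) := by
      rw [hza, sh_sh]; congr 1; ring
    rw [h2] at h1
    simp only [hza, sh, hz1] at h1 ⊢
    obtain ⟨⟨b1, b2⟩, b3⟩ := h1
    obtain ⟨⟨b4, b5⟩, -⟩ := hph1
    simp only at b1 b2 b4 b5
    refine ⟨⟨?_, ?_⟩, b3⟩
    · simp only
      rcases hτ with h | h
      · rw [h]
        have : 0 < 1 * ρ / Real.sin θ := by positivity
        linarith
      · rw [h] at b1 ⊢
        have h3 : -1 * (ρ + x) / Real.sin θ ≤ -1 * ρ / Real.sin θ := by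
          apply div_le_div_of_nonneg_right _ hsin.le
          linarith [hx.1]
        linarith
    · simp only
      rcases hτ with h | h
      · rw [h] at b2 ⊢
        have h3 : 1 * ρ / Real.sin θ ≤ 1 * (ρ + x) / Real.sin θ := by
          apply div_le_div_of_nonneg_right _ hsin.le
          linarith [hx.1]
        linarith
      · rw [h]
        have : 0 < ρ / Real.sin θ := by positivity
        have e1 : -1 * ρ / Real.sin θ = -(ρ / Real.sin θ) := by ring
        rw [e1]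
        linarith
  have hdirz : Y.dir za = g := by rw [hza, hg.dir_sh hN]; exact hgd s1
  have hsg : -τ = 1 ∨ -τ = -1 := by
    rcases hτ with h | h
    · right; rw [h]
    · left; rw [h]; norm_num
  by_cases hFa : Y.FS za
  · have hFb : ¬ Y.FS (rev za) := by
      intro h
      exact hB (hdirz ▸ hg.FS_both hN hFa h)
    refine hg.no_gap hN hΓf hΓ (z := rev za) (σ := -τ) ⟨hsg, hiA, hg.rev_phase hpha, ?_,
      ⟨ρ, hρ0, ?_⟩, ?_, hFb⟩
    · have h1 : Y.dir (sh za (τ * x)) ∈ Γ := by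
        rw [hg.dir_sh hN, hdirz]; exact hgΓ
      have := hΓr _ hxK h1
      rwa [rev_sh, hg.dir_sh hN] at this
    · filter_upwards [hdead] with u hu h0
      rw [← rev_sh, hg.K_rev_iff]
      exact hu h0
    · intro r hr hd
      apply halive r hr
      filter_upwards [hd] with u hu h0
      have := hu h0
      rw [← rev_sh, hg.K_rev_iff, neg_neg] at this
      exact this
  · refine hg.no_gap hN hΓf hΓ (z := za) (σ := -τ) ⟨hsg, hiA, hpha, hdirz ▸ hgΓ,
      ⟨ρ, hρ0, hdead⟩, ?_, hFa⟩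
    intro r hr hd
    rw [neg_neg] at hd
    exact halive r hr hd

end SG

end Pool.Agent.Lib.MP_19d7db_an
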