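import Mathlib

/-!
# Powers of a complex number of modulus one which is not a root of unity
-/

open Complex Set Filter Topology

namespace Pool.Agent.Lib.MP_19d7db_an

/-- The powers of a complex number of modulus one which is not a root of unity are dense. -/
lemma pow_dense {x : ℂ} (hx : ‖x‖ = 1) (hno : ∀ m : ℕ, 0 < m → x ^ m ≠ 1) {w : ℂ}
    (hw : ‖w‖ = 1) {ε : ℝ} (hε : 0 < ε) : ∃ k : ℕ, ‖x ^ k - w‖ < ε := by
  have : Fact (0 < 2 * Real.pi) := ⟨Real.two_pi_pos⟩
  set a := Complex.arg x with ha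
  have hxa : x = exp (a * I) := by
    have := Complex.norm_mul_exp_arg_mul_I x
    rw [hx, ofReal_one, one_mul] at this
    exact this.symm
  have hirr : Irrational (a / (2 * Real.pi)) := by
    rintro ⟨q, hq⟩
    have hpi := Real.two_pi_pos
    apply hno q.den q.den_pos
    rw [hxa, ← Complex.exp_nat_mul, Complex.exp_eq_one_iff]
    refine ⟨q.num, ?_⟩
    have h1 : a = q * (2 * Real.pi) := by
      rw [hq]; field_simp
    have h2 : (q.den : ℝ) * (q : ℝ) = q.num := by
      have := Rat.den_mul_eq_num q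
      exact_mod_cast this
    have h3 : (q.den : ℝ) * a = q.num * (2 * Real.pi) := by
      rw [h1, ← mul_assoc, h2]
    have h4 : (q.den : ℂ) * (a : ℂ) = q.num * (2 * Real.pi) := by exact_mod_cast h3
    linear_combination I * h4
  have hd : DenseRange (fun k : ℤ => k • (a : AddCircle (2 * Real.pi))) :=
    AddCircle.denseRange_zsmul_coe_iff.2 hirr
  have hd' : DenseRange (fun k : ℕ => k • (a : AddCircle (2 * Real.pi))) :=
    denseRange_zsmul_iff_nsmul.1 hd
  have hs : Function.Surjective (AddCircle.toCircle (T := 2 * Real.pi)) := by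
    intro y
    refine ⟨((Complex.arg (y : ℂ) : ℝ) : AddCircle (2 * Real.pi)), ?_⟩
    rw [AddCircle.toCircle_apply_mk, div_self Real.two_pi_pos.ne', one_mul, Circle.exp_arg]
  have hd2 := hs.denseRange.comp hd' AddCircle.continuous_toCircle
  obtain ⟨k, hk⟩ := hd2.exists_dist_lt (⟨w, mem_sphere_zero_iff_norm.2 hw⟩ : Circle) hε
  refine ⟨k, ?_⟩
  have h1 : ((AddCircle.toCircle (k • (a : AddCircle (2 * Real.pi))) : Circle) : ℂ) = x ^ k := by
    rw [AddCircle.toCircle_nsmul, AddCircle.toCircle_apply_mk, div_self Real.two_pi_pos.ne',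
      one_mul]
    rw [Circle.coe_pow, Circle.coe_exp, ← hxa]
  have h2 : dist (w : ℂ) (x ^ k) < ε := by
    rw [← h1]
    exact hk
  rwa [dist_comm, dist_eq_norm] at h2

end Pool.Agent.Lib.MP_19d7db_an
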