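import Pool.Agent.Lib.MP_19d7db_an_F.Barrier
import Pool.Agent.Lib.MP_19d7db_an_F.Rot

/-!
# Billiards in simple polygons: closed finite sets of directions
-/

open Complex Set Filter Topology MeasureTheory
open scoped ENNReal

namespace Pool.Agent.Lib.MP_19d7db_an

variable {n : ℕ}

lemma finite_sq (a : ℂ) : {w : ℂ | w ^ 2 = a}.Finite := by
  by_cases h : ∃ w0 : ℂ, w0 ^ 2 = a
  · obtain ⟨w0, h0⟩ := h
    apply (Set.toFinite ({w0, -w0} : Set ℂ)).subset
    intro w hw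
    simp only [Set.mem_ofPred_eq] at hw
    simp only [Set.mem_insert_iff, Set.mem_singleton_iff]
    exact sq_eq_sq_iff_eq_or_eq_neg.1 (hw.trans h0.symm)
  · convert Set.finite_empty
    ext w
    simp only [Set.mem_ofPred_eq, Set.mem_empty_iff_false, iff_false]
    exact fun hw => h ⟨w, hw⟩

lemma finite_roots {m : ℕ} (hm : 0 < m) : {w : ℂ | w ^ m = 1}.Finite := by
  have h1 : {w : ℂ | w ^ m = 1} ⊆ (Polynomial.nthRootsFinset m (1 : ℂ) : Set ℂ) := by
    intro w hw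
    rw [Finset.mem_coe, Polynomial.mem_nthRootsFinset hm]
    exact hw
  exact (Finset.finite_toSet _).subset h1

namespace SG

variable {Y : Dom n} {C η : ℝ} (hg : SG Y C η) {A : Set (ZMod n)}

include hg

lemma closed_of_refl (hN : ∀ i, i ∉ Y.D) {Γ : Set ℂ} (hf : Γ.Finite) (hn : ∀ v ∈ Γ, -v ∈ Γ)
    (h1 : ∀ z, Y.KK A z → Y.dirIn z ∈ Γ → Y.dir z ∈ Γ)
    (h2 : ∀ z, Y.KK A z → Y.dir z ∈ Γ → Y.dirIn z ∈ Γ) : Y.Closed A Γ := by
  refine ⟨hf, ?_, ?_, hn⟩
  · intro z z' hK hd hh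
    apply h1 z' (hg.K_step hh hK)
    obtain ⟨-, -, t, -, -, hdir, -⟩ := hh
    rwa [hdir]
  · intro z hK hd
    rw [hg.dir_rev]
    exact hn _ (h2 z hK hd)

/-- If the directions of the sides which are not absorbing are rational with respect to each
other, then the orbits which avoid the absorbing sides have finitely many directions. -/
theorem closed_rational [NeZero n] (hN : ∀ i, i ∉ Y.D) {K : ℕ} (hK : 0 < K)
    (hrat : ∀ i j, i ∉ A → j ∉ A →
      ((Y.e i / Y.ℓ i) ^ 2 / (Y.e j / Y.ℓ j) ^ 2) ^ K = 1) (v : ℂ) :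
    ∃ Γ, v ∈ Γ ∧ Y.Closed A Γ := by
  by_cases hA : ∃ j, j ∉ A
  swap
  · refine ⟨{v, -v}, Or.inl rfl, hg.closed_of_refl hN (Set.toFinite _) ?_ ?_ ?_⟩
    · rintro w (h | h)
      · right; rw [h]; rfl
      · left
        have h' : w = -v := h
        rw [h', neg_neg]
    · intro z hz _
      exact absurd ⟨z.1, (hz.2 0).1⟩ hA
    · intro z hz _
      exact absurd ⟨z.1, (hz.2 0).1⟩ hA
  obtain ⟨j, hj⟩ := hA
  set c := (Y.e j / Y.ℓ j) ^ 2 with hc
  have hTj := hg.T_ne j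
  have hc0 : c ≠ 0 := pow_ne_zero 2 hTj
  have hcc : c * (starRingEnd ℂ) c = 1 := by
    rw [Complex.mul_conj, Complex.normSq_eq_norm_sq, hc, norm_pow, hg.norm_unit]; norm_num
  set R : Set ℂ := {w | w ^ (2 * K) = 1} with hR
  have hRf : R.Finite := finite_roots (by omega)
  have hR0 : ∀ w ∈ R, w ≠ 0 := by
    rintro w hw rfl
    simp only [hR, Set.mem_ofPred_eq] at hw
    rw [zero_pow (by omega)] at hw
    exact zero_ne_one hw
  have hRneg : ∀ w ∈ R, -w ∈ R := by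
    intro w hw
    simp only [hR, Set.mem_ofPred_eq] at hw ⊢
    rw [Even.neg_pow (even_two_mul K), hw]
  have hRn : ∀ w ∈ R, ‖w‖ = 1 := by
    intro w hw
    simp only [hR, Set.mem_ofPred_eq] at hw
    have h1 := congrArg norm hw
    rw [norm_pow, norm_one] at h1
    exact (pow_eq_one_iff_of_nonneg (norm_nonneg _) (by omega)).1 h1
  have hRconj : ∀ w ∈ R, (starRingEnd ℂ) w ∈ R := by
    intro w hw
    simp only [hR, Set.mem_ofPred_eq] at hw ⊢
    rw [← map_pow, hw, map_one]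
  have hRmul : ∀ w ∈ R, ∀ w' ∈ R, w * w' ∈ R := by
    intro w hw w' hw'
    simp only [hR, Set.mem_ofPred_eq] at hw hw' ⊢
    rw [mul_pow, hw, hw', mul_one]
  set Γ : Set ℂ := ((fun ζ => ζ * v) '' R) ∪ ((fun ζ => ζ * (c * (starRingEnd ℂ) v)) '' R) with hΓ
  -- one reflection
  have key : ∀ i, i ∉ A → ∀ w ∈ Γ, (Y.e i / Y.ℓ i) ^ 2 * (starRingEnd ℂ) w ∈ Γ := by
    intro i hi w hw
    set ζ := (Y.e i / Y.ℓ i) ^ 2 / c with hζ
    have hζR : ζ ∈ R := by
      simp only [hR, Set.mem_ofPred_eq]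
      rw [mul_comm 2 K, pow_mul, hζ, hc, hrat i j hi hj, one_pow]
    have hTi : (Y.e i / Y.ℓ i) ^ 2 = ζ * c := by rw [hζ, div_mul_cancel₀ _ hc0]
    rw [hTi]
    rcases hw with ⟨ξ, hξ, rfl⟩ | ⟨ξ, hξ, rfl⟩
    · right
      refine ⟨ζ * (starRingEnd ℂ) ξ, hRmul _ hζR _ (hRconj _ hξ), ?_⟩
      simp only [map_mul]
      ring
    · left
      refine ⟨ζ * (starRingEnd ℂ) ξ, hRmul _ hζR _ (hRconj _ hξ), ?_⟩
      simp only [map_mul, Complex.conj_conj]
      linear_combination (-(ζ * (starRingEnd ℂ) ξ * v)) * hcc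
  refine ⟨Γ, Or.inl ⟨1, by simp [hR], one_mul v⟩, hg.closed_of_refl hN
    ((hRf.image _).union (hRf.image _)) ?_ ?_ ?_⟩
  · rintro w (⟨ζ, hζ, rfl⟩ | ⟨ζ, hζ, rfl⟩)
    · exact Or.inl ⟨-ζ, hRneg ζ hζ, by simp only; ring⟩
    · exact Or.inr ⟨-ζ, hRneg ζ hζ, by simp only; ring⟩
  · intro z hz hd
    rw [hg.dir_refl hN]
    exact key z.1 (hz.2 0).1 _ hd
  · intro z hz hd
    rw [hg.dirIn_refl hN]
    exact key z.1 (hz.2 0).1 _ hd

lemma sin_rel (hN : ∀ i, i ∉ Y.D) (z : ZMod n × ℝ × ℝ) :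
    1 - ((Y.dir z) ^ 2 / (Y.e z.1 / Y.ℓ z.1) ^ 2).re = 2 * Real.sin z.2.2 ^ 2 := by
  have hT := hg.T_ne z.1
  have h1 : (Y.dir z) ^ 2 / (Y.e z.1 / Y.ℓ z.1) ^ 2 = exp (((2 * z.2.2 : ℝ) : ℂ) * I) := by
    simp only [Table.dir]
    rw [hg.tan_N (hN _), mul_pow, mul_comm ((Y.e z.1 / Y.ℓ z.1) ^ 2), mul_div_assoc,
      div_self (pow_ne_zero 2 hT), mul_one, ← Complex.exp_nat_mul]
    congr 1
    push_cast
    ring
  rw [h1, Complex.exp_ofReal_mul_I_re, Real.cos_two_mul]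
  have := Real.sin_sq_add_cos_sq z.2.2
  linarith

lemma sin_rel' (hN : ∀ i, i ∉ Y.D) (z : ZMod n × ℝ × ℝ) :
    1 - ((Y.dirIn z) ^ 2 / (Y.e z.1 / Y.ℓ z.1) ^ 2).re = 2 * Real.sin z.2.2 ^ 2 := by
  have hT := hg.T_ne z.1
  have h1 : (Y.dirIn z) ^ 2 / (Y.e z.1 / Y.ℓ z.1) ^ 2 = exp (((-(2 * z.2.2) : ℝ) : ℂ) * I) := by
    simp only [Table.dirIn]
    rw [hg.tan_N (hN _), mul_pow, mul_comm ((Y.e z.1 / Y.ℓ z.1) ^ 2), mul_div_assoc,
      div_self (pow_ne_zero 2 hT), mul_one, ← Complex.exp_nat_mul]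
    congr 1
    push_cast
    ring
  rw [h1, Complex.exp_ofReal_mul_I_re, Real.cos_neg, Real.cos_two_mul]
  have := Real.sin_sq_add_cos_sq z.2.2
  linarith

/-- If the sides which are not absorbing are parallel or orthogonal to `h`, except for sides which
form a convex corner with an absorbing side and which are parallel to one of two lines which are
symmetric with respect to `h`, and whose angle with `h` is not a rational multiple of `π`, then
the orbits which avoid the absorbing sides have finitely many directions. -/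
theorem closed_barrier [NeZero n] (hN : ∀ i, i ∉ Y.D) {h δ : ℂ} (hh : ‖h‖ = 1) (hδ : ‖δ‖ = 1)
    (hno : ∀ m : ℕ, 0 < m → δ ^ m ≠ 1)
    (H : ∀ i, i ∉ A → (Y.e i / Y.ℓ i) ^ 2 = h ^ 2 ∨ (Y.e i / Y.ℓ i) ^ 2 = -h ^ 2 ∨
      (Y.Bar A i ∧ ((Y.e i / Y.ℓ i) ^ 2 = δ * h ^ 2 ∨
        (Y.e i / Y.ℓ i) ^ 2 = (starRingEnd ℂ) δ * h ^ 2))) {v : ℂ} (hv : ‖v‖ = 1) :
    ∃ Γ, v ∈ Γ ∧ Y.Closed A Γ := by
  have hh0 : h ≠ 0 := by rw [← norm_pos_iff, hh]; norm_num
  have hδ0 : δ ≠ 0 := by rw [← norm_pos_iff, hδ]; norm_num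
  have hhc : h * (starRingEnd ℂ) h = 1 := by
    rw [Complex.mul_conj, Complex.normSq_eq_norm_sq, hh]; norm_num
  have hδc : δ * (starRingEnd ℂ) δ = 1 := by
    rw [Complex.mul_conj, Complex.normSq_eq_norm_sq, hδ]; norm_num
  -- the constant of the barriers
  have hc : ∀ i, ∃ c, 0 < c ∧ (Y.Bar A i → ∀ z, Y.KK A z → z.1 = i → c ≤ Real.sin z.2.2) := by
    intro i
    by_cases hb : Y.Bar A i
    · obtain ⟨ε, hε, h1⟩ := hg.barrier hN hb
      have hℓ := hg.ell_pos i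
      refine ⟨ε / Y.ℓ i, div_pos hε hℓ, fun _ z hz hzi => ?_⟩
      rw [div_le_iff₀ hℓ]
      have := h1 z hz hzi
      linarith
    · exact ⟨1, one_pos, fun h => absurd h hb⟩
  choose c hc0 hc1 using hc
  obtain ⟨i0, -, hi0⟩ := Finset.exists_min_image Finset.univ c ⟨0, Finset.mem_univ _⟩
  set κ := 2 * c i0 ^ 2 with hκ
  have hκ0 : 0 < κ := by have := hc0 i0; positivity
  have hsin : ∀ z, Y.KK A z → Y.Bar A z.1 → κ ≤ 2 * Real.sin z.2.2 ^ 2 := by
    intro z hz hb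
    have h1 := hc1 z.1 hb z hz rfl
    have h2 := hi0 z.1 (Finset.mem_univ _)
    have h3 := hc0 i0
    rw [hκ]
    nlinarith
  -- levels
  obtain ⟨U, hU⟩ : ∃ U, U = (v / h) ^ 2 := ⟨_, rfl⟩
  have hU1 : ‖U‖ = 1 := by rw [hU, norm_pow, norm_div, hv, hh]; norm_num
  have hUc : U * (starRingEnd ℂ) U = 1 := by
    rw [Complex.mul_conj, Complex.normSq_eq_norm_sq, hU1]; norm_num
  obtain ⟨W, hW⟩ : ∃ W : ℤ → ℂ, W = fun m => U * δ ^ (2 * m) := ⟨_, rfl⟩
  have hδinv : (starRingEnd ℂ) δ = δ⁻¹ := eq_inv_of_mul_eq_one_right hδc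
  have hWs : ∀ m, δ ^ 2 * W m = W (m + 1) := by
    intro m
    simp only [hW]
    rw [mul_add, zpow_add₀ hδ0]
    have : δ ^ (2 * (1 : ℤ)) = δ ^ 2 := by norm_cast
    rw [this]; ring
  have hWp : ∀ m, (starRingEnd ℂ) δ ^ 2 * W m = W (m - 1) := by
    intro m
    have h1 := hWs (m - 1)
    rw [sub_add_cancel] at h1
    rw [← h1]
    linear_combination ((δ * (starRingEnd ℂ) δ + 1) * W (m - 1)) * hδc
  obtain ⟨X, hX⟩ : ∃ X : ℤ → ℂ, X = fun m => δ * W m := ⟨_, rfl⟩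
  have hXp : ∀ m, (starRingEnd ℂ) δ * W m = X (m - 1) := by
    intro m
    simp only [hX]
    rw [← hWp m]
    linear_combination (-(starRingEnd ℂ) δ * W m) * hδc
  -- blocked levels
  have hblock : ∀ y : ℂ, ‖y‖ = 1 → ∀ q : ℂ, ‖q‖ = 1 → (∀ m : ℕ, 0 < m → q ^ m ≠ 1) →
      ∃ k : ℕ, 1 - (y * q ^ k).re < κ := by
    intro y hy q hq hqno
    obtain ⟨k, hk⟩ := pow_dense hq hqno (w := (starRingEnd ℂ) y) (by rw [RCLike.norm_conj, hy]) hκ0
    refine ⟨k, ?_⟩
    have hyc : y * (starRingEnd ℂ) y = 1 := by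
      rw [Complex.mul_conj, Complex.normSq_eq_norm_sq, hy]; norm_num
    have h1 : 1 - y * q ^ k = -(y * (q ^ k - (starRingEnd ℂ) y)) := by
      linear_combination -hyc
    have h2 : ‖1 - y * q ^ k‖ < κ := by
      rw [h1, norm_neg, norm_mul, hy, one_mul]; exact hk
    have h3 : (1 - y * q ^ k).re ≤ ‖1 - y * q ^ k‖ := Complex.re_le_norm _
    rw [Complex.sub_re, Complex.one_re] at h3
    linarith
  obtain ⟨m2, hm2, hb2⟩ : ∃ m2 : ℤ, 0 ≤ m2 ∧ 1 - (X m2).re < κ := by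
    obtain ⟨k, hk⟩ := hblock (δ * U) (by rw [norm_mul, hδ, hU1, one_mul]) (δ ^ 2)
      (by rw [norm_pow, hδ, one_pow]) (fun m hm h1 => hno (2 * m) (by omega) (by rw [pow_mul, h1]))
    refine ⟨k, by omega, ?_⟩
    have : X k = δ * U * (δ ^ 2) ^ k := by
      simp only [hX, hW]
      rw [← pow_mul, ← zpow_natCast]
      push_cast
      ring
    rwa [this]
  obtain ⟨m1, hm1, hb1⟩ : ∃ m1 : ℤ, m1 < 0 ∧ 1 - (X m1).re < κ := by
    obtain ⟨k, hk⟩ := hblock (δ⁻¹ * U) (by rw [norm_mul, norm_inv, hδ, hU1, inv_one, one_mul])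
      ((δ⁻¹) ^ 2) (by rw [norm_pow, norm_inv, hδ, inv_one, one_pow])
      (fun m hm h1 => hno (2 * m) (by omega) (by
        rw [← pow_mul, inv_pow, inv_eq_one] at h1
        exact h1))
    refine ⟨-1 - k, by omega, ?_⟩
    have : X (-1 - k) = δ⁻¹ * U * ((δ⁻¹) ^ 2) ^ k := by
      simp only [hX, hW]
      have e1 : (2 * (-1 - (k : ℤ))) = -(2 : ℤ) + -((2 * k : ℕ) : ℤ) := by push_cast; ring
      rw [e1, zpow_add₀ hδ0, zpow_neg, zpow_neg, zpow_natCast, ← pow_mul, inv_pow]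
      have e2 : δ ^ (2 : ℤ) = δ ^ 2 := by norm_cast
      rw [e2]
      field_simp
    rwa [this]
  set Γ : Set ℂ := {w | ∃ m : ℤ, m ∈ Ioc m1 m2 ∧
    (w ^ 2 = h ^ 2 * W m ∨ w ^ 2 = h ^ 2 * (starRingEnd ℂ) (W m))} with hΓ
  have hΓf : Γ.Finite := by
    have h1 : Γ ⊆ ⋃ m ∈ Ioc m1 m2, ({w : ℂ | w ^ 2 = h ^ 2 * W m} ∪
        {w : ℂ | w ^ 2 = h ^ 2 * (starRingEnd ℂ) (W m)}) := by
      rintro w ⟨m, hm, h1⟩
      exact Set.mem_iUnion₂.2 ⟨m, hm, h1⟩
    exact ((Set.finite_Ioc m1 m2).biUnion fun m _ => (finite_sq _).union (finite_sq _)).subset h1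
  -- one reflection
  have key : ∀ z, Y.KK A z → ∀ w ∈ Γ,
      1 - (w ^ 2 / (Y.e z.1 / Y.ℓ z.1) ^ 2).re = 2 * Real.sin z.2.2 ^ 2 →
      (Y.e z.1 / Y.ℓ z.1) ^ 2 * (starRingEnd ℂ) w ∈ Γ := by
    intro z hz w hw hs
    have hi := (hz.2 0).1
    have hi' : z.1 ∉ A := hi
    have hHz := H z.1 hi'
    set T2 := (Y.e z.1 / Y.ℓ z.1) ^ 2 with hT2
    obtain ⟨m, hm, hw⟩ := hw
    have hsq : (T2 * (starRingEnd ℂ) w) ^ 2 = T2 ^ 2 * (starRingEnd ℂ) (w ^ 2) := by
      rw [map_pow]; ring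
    have hh2 : h ^ 2 * (starRingEnd ℂ) h ^ 2 = 1 := by
      linear_combination (h * (starRingEnd ℂ) h + 1) * hhc
    rcases hHz with h1 | h1 | ⟨hb, h1⟩
    · refine ⟨m, hm, ?_⟩
      rw [hsq, h1]
      rcases hw with h2 | h2
      · right
        rw [h2, map_mul, map_pow]
        linear_combination (h ^ 2 * (starRingEnd ℂ) (W m)) * hh2
      · left
        rw [h2, map_mul, map_pow, Complex.conj_conj]
        linear_combination (h ^ 2 * W m) * hh2
    · refine ⟨m, hm, ?_⟩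
      rw [hsq, h1]
      rcases hw with h2 | h2
      · right
        rw [h2, map_mul, map_pow]
        linear_combination (h ^ 2 * (starRingEnd ℂ) (W m)) * hh2
      · left
        rw [h2, map_mul, map_pow, Complex.conj_conj]
        linear_combination (h ^ 2 * W m) * hh2
    · have hκs := hsin z hz hb
      rw [← hs] at hκs
      have hX1 : X m1 = X m1 := rfl
      rcases h1 with h1 | h1 <;> rcases hw with h2 | h2
      · -- `κ = δ`, type `W`: level `m - 1`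
        have h3 : w ^ 2 / T2 = X (m - 1) := by
          rw [h2, h1, ← hXp m, hδinv]
          field_simp
        have h4 : m - 1 ≠ m1 := by
          intro h5
          rw [h3, h5] at hκs
          linarith
        refine ⟨m - 1, ⟨by have := hm.1; omega, by have := hm.2; omega⟩, Or.inr ?_⟩
        rw [hsq, h1, h2, map_mul, map_pow, ← hWp m, map_mul, map_pow, Complex.conj_conj]
        linear_combination (δ ^ 2 * h ^ 2 * (starRingEnd ℂ) (W m)) * hh2
      · -- `κ = δ`, type `conj W`: level `m + 1`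
        have h3 : w ^ 2 / T2 = (starRingEnd ℂ) (X m) := by
          simp only [hX]
          rw [h2, h1, map_mul, hδinv]
          field_simp
        have h4 : m ≠ m2 := by
          intro h5
          rw [h3, h5, Complex.conj_re] at hκs
          linarith
        refine ⟨m + 1, ⟨by have := hm.1; omega, by have := hm.2; omega⟩, Or.inl ?_⟩
        rw [hsq, h1, h2, map_mul, map_pow, ← hWs m, Complex.conj_conj]
        linear_combination (δ ^ 2 * h ^ 2 * (W m)) * hh2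
      · -- `κ = conj δ`, type `W`: level `m + 1`
        have h3 : w ^ 2 / T2 = X m := by
          simp only [hX]
          rw [h2, h1, hδinv]
          field_simp
        have h4 : m ≠ m2 := by
          intro h5
          rw [h3, h5] at hκs
          linarith
        refine ⟨m + 1, ⟨by have := hm.1; omega, by have := hm.2; omega⟩, Or.inr ?_⟩
        rw [hsq, h1, h2, map_mul, map_pow, ← hWs m, map_mul, map_pow]
        linear_combination ((starRingEnd ℂ) δ ^ 2 * h ^ 2 * (starRingEnd ℂ) (W m)) * hh2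
      · -- `κ = conj δ`, type `conj W`: level `m - 1`
        have h3 : w ^ 2 / T2 = (starRingEnd ℂ) (X (m - 1)) := by
          rw [h2, h1, ← hXp m, map_mul, Complex.conj_conj, hδinv]
          field_simp
        have h4 : m - 1 ≠ m1 := by
          intro h5
          rw [h3, h5, Complex.conj_re] at hκs
          linarith
        refine ⟨m - 1, ⟨by have := hm.1; omega, by have := hm.2; omega⟩, Or.inl ?_⟩
        rw [hsq, h1, h2, map_mul, map_pow, ← hWp m, Complex.conj_conj]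
        linear_combination ((starRingEnd ℂ) δ ^ 2 * h ^ 2 * (W m)) * hh2
  refine ⟨Γ, ⟨0, ⟨hm1, hm2⟩, Or.inl ?_⟩, hg.closed_of_refl hN hΓf ?_ ?_ ?_⟩
  · simp only [hW, hU, mul_zero, zpow_zero, mul_one]
    field_simp
  · rintro w ⟨m, hm, h1⟩
    refine ⟨m, hm, ?_⟩
    rwa [neg_sq]
  · intro z hz hd
    rw [hg.dir_refl hN]
    exact key z hz _ hd (hg.sin_rel' hN z)
  · intro z hz hd
    rw [hg.dirIn_refl hN]
    exact key z hz _ hd (hg.sin_rel hN z)

end SG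

end Pool.Agent.Lib.MP_19d7db_an
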