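import Pool.Agent.Lib.MP_19d7db_an_F.Dich

/-!
# Billiards in simple polygons: exit points of interior points in a given direction
-/

open Complex Set Filter Topology MeasureTheory
open scoped ENNReal

namespace Pool.Agent.Lib.MP_19d7db_an

variable {n : ℕ}

/-- The phase point on the side `i` with the outgoing direction `v`. -/
noncomputable def Dom.em (Y : Dom n) (v : ℂ) (i : ZMod n) (s : ℝ) : ZMod n × ℝ × ℝ :=
  (i, (s, Complex.arg (v / (Y.e i / Y.ℓ i))))

/-- The ray from `x` in the direction `v` leaves the polygon through the open side `j`. -/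
def Dom.Ex (Y : Dom n) (v x : ℂ) (j : ZMod n) : Prop :=
  ∃ s ∈ Ioo 0 (Y.len j), ∃ t : ℝ, 0 < t ∧ Y.pos j s = x + t * v ∧
    ∀ u ∈ Ico 0 t, x + u * v ∈ Y.Ω

/-- Almost all orbits which start on the side `i` in the direction `v` avoid the absorbing
sides. -/
def Dom.EF (Y : Dom n) (A : Set (ZMod n)) (v : ℂ) (i : ZMod n) : Prop :=
  ∀ᵐ s : ℝ, (Y.em v i s).2 ∈ Y.Phase i → Y.KK A (Y.em v i s)

namespace SG

variable {Y : Dom n} {C η : ℝ} (hg : SG Y C η) {A : Set (ZMod n)} {Γ : Set ℂ}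

include hg

lemma T_ne (i : ZMod n) : Y.e i / Y.ℓ i ≠ 0 := by
  intro h; have := hg.norm_unit i; rw [h, norm_zero] at this; exact zero_ne_one this

lemma dir_em (hN : ∀ i, i ∉ Y.D) {v : ℂ} (hv : ‖v‖ = 1) (i : ZMod n) (s : ℝ) :
    Y.dir (Y.em v i s) = v := by
  have hT := hg.T_ne i
  have h1 : ‖v / (Y.e i / Y.ℓ i)‖ = 1 := by rw [norm_div, hv, hg.norm_unit, div_one]
  have h2 := Complex.norm_mul_exp_arg_mul_I (v / (Y.e i / Y.ℓ i))
  rw [h1, ofReal_one, one_mul] at h2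
  simp only [Table.dir, Dom.em]
  rw [hg.tan_N (hN _), mul_comm I, h2, mul_comm, div_mul_cancel₀ _ hT]

lemma cr_T (i : ZMod n) (v : ℂ) : cr (Y.e i / Y.ℓ i) v = (v / (Y.e i / Y.ℓ i)).im := by
  have hT := hg.T_ne i
  have h1 : v = (Y.e i / Y.ℓ i) * (v / (Y.e i / Y.ℓ i)) := by
    rw [mul_comm, div_mul_cancel₀ _ hT]
  conv_lhs => rw [h1]
  rw [cr_mul_left, hg.norm_unit]
  ring

lemma cr_e_T (i : ZMod n) (v : ℂ) : cr (Y.e i) v = Y.ℓ i * cr (Y.e i / Y.ℓ i) v := by
  have h1 := hg.ell_pos i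
  have h3 : (Y.ℓ i : ℂ) ≠ 0 := by exact_mod_cast h1.ne'
  have h2 : Y.e i = (Y.ℓ i : ℂ) * (Y.e i / Y.ℓ i) := by field_simp
  conv_lhs => rw [h2]
  rw [cr_smul_left]

lemma phase_em {v : ℂ} {i : ZMod n} (hv : 0 < cr (Y.e i) v) {s : ℝ}
    (hs : s ∈ Ioo 0 (Y.len i)) : (Y.em v i s).2 ∈ Y.Phase i := by
  have h1 := hg.ell_pos i
  rw [hg.cr_e_T, hg.cr_T] at hv
  have h2 : 0 < (v / (Y.e i / Y.ℓ i)).im := by
    by_contra hcon
    push Not at hcon
    nlinarith
  refine ⟨hs, ?_, ?_⟩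
  · have h3 : 0 ≤ Complex.arg (v / (Y.e i / Y.ℓ i)) := Complex.arg_nonneg_iff.2 h2.le
    refine lt_of_le_of_ne h3 fun h4 => ?_
    have := (Complex.arg_eq_zero_iff.1 h4.symm).2
    rw [this] at h2
    exact lt_irrefl _ h2
  · refine lt_of_le_of_ne (Complex.arg_le_pi _) fun h4 => ?_
    have := (Complex.arg_eq_pi_iff.1 h4).2
    rw [this] at h2
    exact lt_irrefl _ h2

/-- An interior point from which the ray does not run into a vertex has an exit point. -/
lemma exists_Ex [NeZero n] (hN : ∀ i, i ∉ Y.D) {v x : ℂ} (hv : ‖v‖ = 1) (hx : x ∈ Y.Ω)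
    (hno : ∀ a, ∀ t : ℝ, 0 < t → Y.p a ≠ x + t * v) : ∃ j, Y.Ex v x j := by
  have hin : ∀ y, Y.inside y ↔ y ∈ Y.Ω := fun y =>
    ⟨fun h => h.1, fun h => ⟨h, fun k hk => absurd hk (hN k)⟩⟩
  obtain ⟨d, hd⟩ := hg.dom.isBounded.exists_norm_le
  have hcont : Continuous fun u : ℝ => x + u * v := by fun_prop
  have hfar : ∀ u : ℝ, d + ‖x‖ < u → x + u * v ∉ Y.Ω := by
    intro u hu hin
    have h1 := hd (x + u * v) hin
    have h2 : (u : ℂ) * v = (x + u * v) - x := by ring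
    have h3 : ‖(u : ℂ) * v‖ ≤ ‖x + u * v‖ + ‖x‖ := by
      conv_lhs => rw [h2]
      exact norm_sub_le _ _
    rw [norm_mul, hv, Complex.norm_real, Real.norm_eq_abs, mul_one] at h3
    have := le_abs_self u
    linarith
  set S : Set ℝ := {u | 0 ≤ u ∧ x + u * v ∉ Y.Ω} with hS
  have hSc : IsClosed S := by
    have h1 : IsClosed {u : ℝ | x + u * v ∉ Y.Ω} := by
      have : {u : ℝ | x + u * v ∉ Y.Ω} = (fun u : ℝ => x + u * v) ⁻¹' (Y.Ω)ᶜ := rfl
      rw [this]
      exact (hg.dom.isOpen.isClosed_compl).preimage hcont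
    exact (isClosed_le continuous_const continuous_id).inter h1
  have hSn : S.Nonempty := by
    refine ⟨max 0 (d + ‖x‖ + 1), le_max_left _ _, hfar _ ?_⟩
    have := le_max_right 0 (d + ‖x‖ + 1)
    linarith
  have hSb : BddBelow S := ⟨0, fun u hu => hu.1⟩
  set t := sInf S with ht
  have htS : t ∈ S := hSc.csInf_mem hSn hSb
  have ht0 : 0 < t := by
    rcases htS.1.eq_or_lt with h | h
    · exfalso
      apply htS.2
      rw [← h]
      simpa using hx
    · exact h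
  have hin' : ∀ u ∈ Ico 0 t, x + u * v ∈ Y.Ω := by
    intro u hu
    by_contra h2
    have : u ∈ S := ⟨hu.1, h2⟩
    have := csInf_le hSb this
    linarith [hu.2]
  have htcl : t ∈ closure (Ico 0 t) := by
    rw [closure_Ico ht0.ne]; exact ⟨ht0.le, le_rfl⟩
  have hxcl : x + t * v ∈ closure {y | Y.inside y} :=
    map_mem_closure (f := fun u : ℝ => x + u * v) hcont htcl fun u hu => (hin _).2 (hin' u hu)
  rcases hg.classify hxcl (fun h => htS.2 ((hin _).1 h)) with ⟨a, ha⟩ | ⟨j, s, hs, hx⟩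
  · exact absurd ha.symm (hno a t ht0)
  · exact ⟨j, s, hs, t, ht0, hx.symm, hin'⟩

lemma Ex_cr [NeZero n] (hN : ∀ i, i ∉ Y.D) {v x : ℂ} {j : ZMod n} (h : Y.Ex v x j) :
    cr (Y.e j) v < 0 := by
  obtain ⟨s, hs, t, ht, hpos, hin⟩ := h
  have hcont : Continuous fun u : ℝ => x + u * v := by fun_prop
  have h1 : Tendsto (fun u : ℝ => x + u * v) (𝓝[<] t) (𝓝 (Y.pos j s)) := by
    rw [hpos]; exact (hcont.tendsto t).mono_left nhdsWithin_le_nhds
  obtain ⟨u, h2, h3⟩ := ((h1.eventually (hg.near_N hs (hN j))).and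
    (Ico_mem_nhdsLT ht)).exists
  have h4 : Y.inside (x + u * v) := ⟨hin u h3, fun k hk => absurd hk (hN k)⟩
  have h5 := h2.1 h4
  have h6 : x + u * v = Y.pos j s + ((u - t : ℝ) : ℂ) * v := by
    rw [hpos]; push_cast; ring
  rw [h6, Y.toTable.f_add, hg.f_N hs (hN j)] at h5
  by_contra hcon
  push Not at hcon
  nlinarith [h3.2]

lemma pos_inj (hN : ∀ i, i ∉ Y.D) {i j : ZMod n} {s s' : ℝ} (hs : s ∈ Ioo 0 (Y.len i))
    (hs' : s' ∈ Ioo 0 (Y.len j)) (h : Y.pos i s = Y.pos j s') : i = j := by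
  by_contra hij
  have h1 := openSegment_subset_segment ℝ _ _ (hg.pos_seg hs (hN i))
  have h2 := openSegment_subset_segment ℝ _ _ (hg.pos_seg hs' (hN j))
  rw [← h] at h2
  rcases hg.dom.simple i j hij _ h1 h2 with ⟨-, h3⟩ | ⟨-, h3⟩
  · exact hg.pos_ne_vertex hs h3
  · exact hg.pos_ne_vertex hs h3

lemma Ex_unique [NeZero n] (hN : ∀ i, i ∉ Y.D) {v x : ℂ} {j j' : ZMod n} (h : Y.Ex v x j)
    (h' : Y.Ex v x j') : j = j' := by
  obtain ⟨s, hs, t, ht, hpos, hin⟩ := h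
  obtain ⟨s', hs', t', ht', hpos', hin'⟩ := h'
  have hout : ∀ {i : ZMod n} {s : ℝ}, s ∈ Ioo 0 (Y.len i) → Y.pos i s ∉ Y.Ω := fun h =>
    hg.seg_frontier (openSegment_subset_segment ℝ _ _ (hg.pos_seg h (hN _)))
  rcases lt_trichotomy t t' with h | h | h
  · exact absurd (hpos ▸ hin' t ⟨ht.le, h⟩) (hout hs)
  · rw [← h, ← hpos] at hpos'
    exact hg.pos_inj hN hs hs' hpos'.symm
  · exact absurd (hpos' ▸ hin t' ⟨ht'.le, h⟩) (hout hs')

/-- The set of the points with a given exit side is open. -/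
lemma Ex_open [NeZero n] (hN : ∀ i, i ∉ Y.D) (v : ℂ) (j : ZMod n) :
    IsOpen {x | Y.Ex v x j} := by
  rw [isOpen_iff_mem_nhds]
  intro x hx
  have hc := hg.Ex_cr hN hx
  obtain ⟨s, hs, t, ht, hpos, hin⟩ := hx
  have hℓ := hg.ell_pos j
  have hcT : cr (Y.e j / Y.ℓ j) v < 0 := by
    rw [hg.cr_e_T] at hc
    by_contra hcon
    push Not at hcon
    nlinarith
  set c := cr (Y.e j / Y.ℓ j) v with hcdef
  have hc0 : c ≠ 0 := hcT.ne
  set T := Y.e j / Y.ℓ j with hT
  -- exit data as functions of the point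
  set fs : ℂ → ℝ := fun y => cr (y - Y.p j) v / c with hfs
  set ft : ℂ → ℝ := fun y => -(cr T (y - Y.p j)) / c with hft
  have hcs : Continuous fs := by
    have : Continuous fun y : ℂ => (y - Y.p j).re * v.im - (y - Y.p j).im * v.re := by fun_prop
    exact this.div_const _
  have hct : Continuous ft := by
    have : Continuous fun y : ℂ => T.re * (y - Y.p j).im - T.im * (y - Y.p j).re := by fun_prop
    exact this.neg.div_const _
  have hid : ∀ y : ℂ, Y.pos j (fs y) = y + (ft y : ℝ) * v := by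
    intro y
    rw [Y.pos_N (hN j), ← hT]
    have h1 : (fs y : ℂ) * T - (ft y : ℂ) * v = y - Y.p j := by
      have h2 : ∀ w : ℂ, ((cr w v / c : ℝ) : ℂ) * T - ((-(cr T w) / c : ℝ) : ℂ) * v = w := by
        intro w
        have h3 : (cr w v : ℂ) * T + (cr T w : ℂ) * v = (c : ℂ) * w := by
          rw [hcdef]
          apply Complex.ext
          · simp only [cr, add_re, re_ofReal_mul]; ring
          · simp only [cr, add_im, im_ofReal_mul]; ring
        have hc0' : (c : ℂ) ≠ 0 := by exact_mod_cast hc0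
        push_cast
        field_simp
        linear_combination h3
      exact h2 _
    linear_combination h1
  have hinj : fs x = s ∧ ft x = t := by
    have h1 : x - Y.p j = (s : ℂ) * T + ((-t : ℝ) : ℂ) * v := by
      rw [Y.pos_N (hN j), ← hT] at hpos
      push_cast
      linear_combination -hpos
    constructor
    · simp only [hfs]
      rw [h1, cr_comm, cr_add_right, cr_smul_right, cr_smul_right, cr_self, cr_comm v T]
      field_simp
      ring
    · simp only [hft]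
      rw [h1, cr_add_right, cr_smul_right, cr_smul_right, cr_self]
      field_simp
      ring
  -- near the exit point
  have hnear : ∀ᶠ q : ℂ × ℝ in 𝓝 (x, t), (q.1 + q.2 * v ∈ Y.Ω ↔ 0 < Y.f j (q.1 + q.2 * v)) := by
    have h1 : Continuous fun q : ℂ × ℝ => q.1 + q.2 * v := by fun_prop
    have h2 := h1.tendsto (x, t)
    simp only at h2
    rw [← hpos] at h2
    filter_upwards [h2.eventually (hg.near_N hs (hN j))] with q hq
    rw [← hq]
    exact ⟨fun h => ⟨h, fun k hk => absurd hk (hN k)⟩, fun h => h.1⟩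
  rw [nhds_prod_eq] at hnear
  obtain ⟨pa, hpa, pb, hpb, hab⟩ := eventually_prod_iff.1 hnear
  obtain ⟨ε, hε, hb⟩ := Metric.eventually_nhds_iff.1 hpb
  -- the compact part
  set K : Set ℂ := (fun u : ℝ => x + u * v) '' Icc 0 (max 0 (t - ε / 2)) with hK
  have hKc : IsCompact K := isCompact_Icc.image (by fun_prop)
  have hm : max 0 (t - ε / 2) < t := max_lt ht (by linarith)
  have hKs : K ⊆ Y.Ω := by
    rintro y ⟨u, hu, rfl⟩
    exact hin u ⟨hu.1, hu.2.trans_lt hm⟩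
  obtain ⟨δ, hδ, hthick⟩ := hKc.exists_thickening_subset_open hg.dom.isOpen hKs
  have e1 : ∀ᶠ y in 𝓝 x, dist y x < δ := Metric.ball_mem_nhds x hδ
  have e2 : ∀ᶠ y in 𝓝 x, fs y ∈ Ioo 0 (Y.len j) := by
    have := hcs.tendsto x
    rw [hinj.1] at this
    exact this.eventually (isOpen_Ioo.mem_nhds hs)
  have e3 : ∀ᶠ y in 𝓝 x, ft y ∈ Ioo (max 0 (t - ε / 2)) (t + ε / 2) := by
    have := hct.tendsto x
    rw [hinj.2] at this
    exact this.eventually (isOpen_Ioo.mem_nhds ⟨hm, by linarith⟩)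
  filter_upwards [e1, e2, e3, hpa] with y h1 h2 h3 h4
  refine ⟨fs y, h2, ft y, (le_max_left _ _).trans_lt h3.1, hid y, ?_⟩
  intro u hu
  by_cases hu2 : u ≤ max 0 (t - ε / 2)
  · apply hthick
    rw [Metric.mem_thickening_iff]
    refine ⟨x + u * v, ⟨u, ⟨hu.1, hu2⟩, rfl⟩, ?_⟩
    rwa [dist_add_right]
  · push Not at hu2
    have h5 : t - ε / 2 < u := (le_max_right _ _).trans_lt hu2
    have h6 : dist u t < ε := by
      rw [Real.dist_eq, abs_lt]
      constructor <;> linarith [hu.2, h3.2]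
    have h7 := hab h4 (hb h6)
    simp only at h7
    rw [h7]
    have h8 : y + u * v = Y.pos j (fs y) + ((u - ft y : ℝ) : ℂ) * v := by
      rw [hid y]; push_cast; ring
    rw [h8, Y.toTable.f_add, hg.f_N h2 (hN j)]
    nlinarith [hu.2]

/-- The orbit through an interior point. -/
lemma Ex_hit [NeZero n] (hN : ∀ i, i ∉ Y.D) {v x : ℂ} (hv : ‖v‖ = 1) {i j : ZMod n}
    (h : Y.Ex v x j) (h' : Y.Ex (-v) x i) : ∃ s s', Y.Hit (Y.em v i s) (rev (Y.em (-v) j s')) := by
  have c1 := hg.Ex_cr hN h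
  have c2 := hg.Ex_cr hN h'
  obtain ⟨s', hs', t', ht', hpos', hin'⟩ := h
  obtain ⟨s, hs, t, ht, hpos, hin⟩ := h'
  have hv' : ‖-v‖ = 1 := by rw [norm_neg, hv]
  have n1 : ∀ w : ℂ, cr w (-v) = -cr w v := by
    intro w; simp only [cr, neg_re, neg_im]; ring
  rw [n1] at c2
  have hd : Y.dir (Y.em v i s) = v := hg.dir_em hN hv i s
  have hd' : Y.dirIn (rev (Y.em (-v) j s')) = v := by
    have h1 := hg.dir_rev (rev (Y.em (-v) j s'))
    rw [rev_rev, hg.dir_em hN hv'] at h1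
    linear_combination h1
  have p1 : (Y.em v i s).2 ∈ Y.Phase i := hg.phase_em (by linarith) hs
  have p2 : (Y.em (-v) j s').2 ∈ Y.Phase j := hg.phase_em (by rw [n1]; linarith) hs'
  refine ⟨s, s', p1, hg.rev_phase p2, t + t', by linarith, ?_, ?_, ?_⟩
  · rw [hd]
    simp only [rev, Dom.em]
    rw [hpos, hpos']
    push_cast
    ring
  · rw [hd, hd']
  · intro u hu
    rw [hd]
    simp only [Dom.em]
    refine ⟨?_, fun k hk => absurd hk (hN k)⟩
    rw [hpos]
    rcases le_total u t with h | h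
    · have h1 : x + t * -v + u * v = x + ((t - u : ℝ) : ℂ) * -v := by push_cast; ring
      rw [h1]
      exact hin _ ⟨by linarith, by linarith [hu.1]⟩
    · have h1 : x + t * -v + u * v = x + ((u - t : ℝ) : ℂ) * v := by push_cast; ring
      rw [h1]
      exact hin' _ ⟨by linarith, by linarith [hu.2]⟩

omit hg in
lemma ae_affine {P : ℝ → Prop} (h : ∀ᵐ x : ℝ, P x) (a : ℝ) {b : ℝ} (hb : b ≠ 0) :
    ∀ᵐ x : ℝ, P (a + x * b) := by
  have h1 := ae_add_left h a
  rw [ae_iff] at h1 ⊢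
  have := Real.volume_preimage_mul_right hb {x | ¬ P (a + x)}
  rw [h1, mul_zero] at this
  exact this

/-- The full sides are mapped to full sides. -/
lemma EF_transfer [NeZero n] (hN : ∀ i, i ∉ Y.D) (hΓf : Γ.Finite)
    (hΓ : ∀ z z', Y.KK A z → Y.dir z ∈ Γ → Y.Hit z z' → Y.dir z' ∈ Γ)
    (hΓr : ∀ z, Y.KK A z → Y.dir z ∈ Γ → Y.dir (rev z) ∈ Γ)
    {v x : ℂ} (hv : ‖v‖ = 1) (hvΓ : v ∈ Γ) (hB : v ∉ Y.Bd) {i j : ZMod n}
    (h : Y.Ex v x j) (h' : Y.Ex (-v) x i) (hF : Y.EF A (-v) j) : Y.EF A v i := by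
  obtain ⟨s, s', hh⟩ := hg.Ex_hit hN hv h h'
  have hθ : (Y.em v i s).2.2 ∈ Ioo 0 Real.pi := hh.1.2
  have hs1 := hg.sin_pos_of_phase hh.1
  have hs2 := hg.sin_pos_of_phase (hg.rev_phase hh.2.1)
  rw [rev_rev] at hs2
  rcases hg.dichotomy (A := A) hN hΓf hΓ hΓr (i := i) hθ
    (g := v) (fun s => hg.dir_em hN hv i s) hvΓ hB with h1 | h1
  swap
  · exact h1
  exfalso
  obtain ⟨ε, hε, hnear⟩ := hg.near hN hh
  have a1 := ae_affine h1 s (b := 1 / Real.sin (Y.em v i s).2.2) (by positivity)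
  have a2 := ae_affine hF s' (b := -1 / Real.sin (Y.em (-v) j s').2.2)
    (div_ne_zero (by norm_num) hs2.ne')
  have h2 : volume (Ioo (-ε) ε) = 0 := by
    rw [measure_eq_zero_iff_ae_notMem]
    filter_upwards [a1, a2] with δ b1 b2 b3
    have h3 := hnear δ (abs_lt.2 b3)
    apply b1
    have e1 : (i, (s + δ * (1 / Real.sin (Y.em v i s).2.2), (Y.em v i s).2.2)) =
        sh (Y.em v i s) δ := by
      simp only [sh, Dom.em]
      congr 2
      ring
    rw [e1, hg.K_iff h3, ← rev_sh, hg.K_rev_iff]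
    have e2 : Y.em (-v) j (s' + δ * (-1 / Real.sin (Y.em (-v) j s').2.2)) =
        sh (Y.em (-v) j s') (-δ) := by
      simp only [sh, Dom.em]
      congr 2
      ring
    rw [← e2]
    apply b2
    rw [e2]
    have h4 := hg.rev_phase h3.2.1
    rw [← rev_sh, rev_rev] at h4
    exact h4
  rw [Real.volume_Ioo, ENNReal.ofReal_eq_zero] at h2
  linarith

end SG

end Pool.Agent.Lib.MP_19d7db_an
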