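import Pool.Agent.Lib.MP_19d7db_an_F.Dirs

/-!
# Semi-dispersive simple polygons: finitely many directions
-/

open Complex Set Filter Topology MeasureTheory

namespace Pool.Agent.Lib.MP_19d7db_an

variable {n : ℕ}

/-- Side `i` forms a convex corner with a dispersive side. -/
def Guarded (p : ZMod n → ℂ) (D : Set (ZMod n)) (i : ZMod n) : Prop :=
  (i + 1 ∈ D ∧ 0 < cr (p (i + 1) - p i) (p (i + 1 + 1) - p (i + 1))) ∨
  (i - 1 ∈ D ∧ 0 < cr (p i - p (i - 1)) (p (i + 1) - p i))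

lemma unit_sq_of_par {a b : ℂ} (ha : a ≠ 0) (hb : b ≠ 0) (h : cr a b = 0) :
    (b / ‖b‖) ^ 2 = (a / ‖a‖) ^ 2 := by
  have ha' : 0 < ‖a‖ := norm_pos_iff.2 ha
  have hb' : 0 < ‖b‖ := norm_pos_iff.2 hb
  set r : ℝ := dt a b / ‖a‖ ^ 2 with hr
  have h1 : b = r * a := by
    have h2 : a.re * a.re + a.im * a.im = ‖a‖ ^ 2 := by rw [← dt_self]; rfl
    have h3 : a.re * b.im - a.im * b.re = 0 := h
    have h4 : r * ‖a‖ ^ 2 = a.re * b.re + a.im * b.im := by
      rw [hr]; field_simp; rfl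
    have h5 : (0 : ℝ) < ‖a‖ ^ 2 := by positivity
    apply Complex.ext
    · rw [re_ofReal_mul]
      have : ‖a‖ ^ 2 * (b.re - r * a.re) = 0 := by
        rw [← h2] at h4 ⊢
        linear_combination (-a.re) * h4 - a.im * h3
      have := (mul_eq_zero.1 this).resolve_left h5.ne'
      linarith
    · rw [im_ofReal_mul]
      have : ‖a‖ ^ 2 * (b.im - r * a.im) = 0 := by
        rw [← h2] at h4 ⊢
        linear_combination (-a.im) * h4 + a.re * h3
      have := (mul_eq_zero.1 this).resolve_left h5.ne'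
      linarith
  have hr0 : r ≠ 0 := by
    rintro h0
    rw [h0] at h1
    simp at h1
    exact hb h1
  have h2 : ‖b‖ = |r| * ‖a‖ := by
    conv_lhs => rw [h1]
    rw [norm_mul, Complex.norm_real, Real.norm_eq_abs]
  have ha2 : (‖a‖ : ℂ) ≠ 0 := by exact_mod_cast ha'.ne'
  have hr2 : ((|r| : ℝ) : ℂ) ^ 2 = (r : ℂ) ^ 2 := by
    rw [← ofReal_pow, ← ofReal_pow, sq_abs]
  have hrc : (r : ℂ) ≠ 0 := by exact_mod_cast hr0
  have h3 : (b / ‖b‖) ^ 2 = (r * a) ^ 2 / (((|r| : ℝ) : ℂ) ^ 2 * (‖a‖ : ℂ) ^ 2) := by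
    rw [h2, div_pow, ofReal_mul, mul_pow, ← h1]
  rw [h3, hr2, div_pow, mul_pow]
  field_simp

/-- The case of neutral sides whose directions are rational with respect to each other. -/
theorem hyperbolic_of_rational (hn : 3 ≤ n) (p : ZMod n → ℂ) (Ω : Set ℂ) (hdom : PolyDom p Ω)
    (D : Set (ZMod n)) (hD : D.Nonempty)
    (hrat : ∀ i j, i ∉ D → j ∉ D →
      ∃ m : ℕ, 0 < m ∧ (((p (i + 1) - p i) / (p (j + 1) - p j)) ^ m).im = 0) :
    ∃ R : ℝ, ∀ ρ : ZMod n → ℝ, (∀ k ∈ D, R ≤ ρ k) →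
      (Dom.mk (Table.mk p D ρ) Ω).Hyperbolic := by
  have : NeZero n := ⟨by omega⟩
  apply hyperbolic_of_closed hn p Ω hdom D hD
  rintro Y hYp - hYD ⟨C, η, hg⟩
  have hN : ∀ i, i ∉ Y.D := fun i => by rw [hYD]; exact Set.notMem_empty i
  have he : ∀ i, Y.e i = p (i + 1) - p i := fun i => by rw [Table.e, hYp]
  refine ⟨∅, Set.countable_empty, fun v _ _ => ?_⟩
  have hm : ∀ i j, ∃ m : ℕ, 0 < m ∧ (i ∉ D → j ∉ D →
      ((Y.e i / Y.ℓ i) ^ 2 / (Y.e j / Y.ℓ j) ^ 2) ^ m = 1) := by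
    intro i j
    by_cases hi : i ∈ D
    · exact ⟨1, one_pos, fun h => absurd hi h⟩
    by_cases hj : j ∈ D
    · exact ⟨1, one_pos, fun _ h => absurd hj h⟩
    obtain ⟨m, hm0, hm⟩ := hrat i j hi hj
    refine ⟨m, hm0, fun _ _ => ?_⟩
    set x := (Y.e i / Y.ℓ i) / (Y.e j / Y.ℓ j) with hx
    have hx1 : ‖x‖ = 1 := by rw [hx, norm_div, hg.norm_unit, hg.norm_unit, div_one]
    have hℓi := hg.ell_pos i
    have hℓj := hg.ell_pos j
    have h1 : (x ^ m).im = 0 := by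
      have h2 : x ^ m = ((Y.ℓ j / Y.ℓ i : ℝ) : ℂ) ^ m * (Y.e i / Y.e j) ^ m := by
        rw [← mul_pow, hx]
        congr 1
        have : (Y.ℓ i : ℂ) ≠ 0 := by exact_mod_cast hℓi.ne'
        have : (Y.ℓ j : ℂ) ≠ 0 := by exact_mod_cast hℓj.ne'
        have := hg.e_ne j
        push_cast
        field_simp
      rw [h2, ← ofReal_pow, im_ofReal_mul, he, he, hm, mul_zero]
    have h3 : x ^ m = ((x ^ m).re : ℂ) := by
      apply Complex.ext
      · simp
      · rw [h1]; simp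
    have h4 : ‖x ^ m‖ = 1 := by rw [norm_pow, hx1, one_pow]
    have h5 : ((x ^ m).re) ^ 2 = 1 := by
      rw [h3, Complex.norm_real, Real.norm_eq_abs] at h4
      rw [← sq_abs, h4, one_pow]
    have h6 : (x ^ m) ^ 2 = 1 := by
      rw [h3, ← ofReal_pow, h5, ofReal_one]
    rw [← div_pow, ← hx, ← pow_mul, mul_comm 2 m, pow_mul, h6]
  choose m hm0 hm using hm
  set K := ∏ i, ∏ j, m i j with hK
  have hK0 : 0 < K := Finset.prod_pos fun i _ => Finset.prod_pos fun j _ => hm0 i j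
  apply hg.closed_rational hN hK0
  intro i j hi hj
  have hdvd : m i j ∣ K :=
    (Finset.dvd_prod_of_mem (fun j => m i j) (Finset.mem_univ j)).trans
      (Finset.dvd_prod_of_mem (fun i => ∏ j, m i j) (Finset.mem_univ i))
  obtain ⟨q, hq⟩ := hdvd
  rw [hq, pow_mul, hm i j hi hj, one_pow]

/-- The case of neutral sides which are parallel or orthogonal to `h`, except for guarded sides
with two further directions which are symmetric with respect to `h`. -/
theorem hyperbolic_of_guarded (hn : 3 ≤ n) (p : ZMod n → ℂ) (Ω : Set ℂ) (hdom : PolyDom p Ω)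
    (D : Set (ZMod n)) (hD : D.Nonempty) (h d : ℂ) (hh : h ≠ 0) (hd : d ≠ 0)
    (H : ∀ i, i ∉ D → cr h (p (i + 1) - p i) = 0 ∨ cr (I * h) (p (i + 1) - p i) = 0 ∨
      (Guarded p D i ∧ (cr (h * d) (p (i + 1) - p i) = 0 ∨
        cr (h * (starRingEnd ℂ) d) (p (i + 1) - p i) = 0))) :
    ∃ R : ℝ, ∀ ρ : ZMod n → ℝ, (∀ k ∈ D, R ≤ ρ k) →
      (Dom.mk (Table.mk p D ρ) Ω).Hyperbolic := by
  have : NeZero n := ⟨by omega⟩
  apply hyperbolic_of_closed hn p Ω hdom D hD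
  rintro Y hYp - hYD ⟨C, η, hg⟩
  have hN : ∀ i, i ∉ Y.D := fun i => by rw [hYD]; exact Set.notMem_empty i
  have he : ∀ i, Y.e i = p (i + 1) - p i := fun i => by rw [Table.e, hYp]
  refine ⟨∅, Set.countable_empty, fun v hv _ => ?_⟩
  have hhn : 0 < ‖h‖ := norm_pos_iff.2 hh
  have hdn : 0 < ‖d‖ := norm_pos_iff.2 hd
  set h1 : ℂ := h / ‖h‖ with hh1
  set δ : ℂ := (d / ‖d‖) ^ 2 with hδ
  have hh1n : ‖h1‖ = 1 := by
    rw [hh1, norm_div, Complex.norm_real, Real.norm_eq_abs, abs_of_pos hhn, div_self hhn.ne']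
  have hδn : ‖δ‖ = 1 := by
    rw [hδ, norm_pow, norm_div, Complex.norm_real, Real.norm_eq_abs, abs_of_pos hdn,
      div_self hdn.ne', one_pow]
  have hdir : ∀ (a : ℂ), a ≠ 0 → ∀ i, cr a (Y.e i) = 0 →
      (Y.e i / Y.ℓ i) ^ 2 = (a / ‖a‖) ^ 2 := by
    intro a ha i hi
    exact unit_sq_of_par ha (hg.e_ne i) hi
  have H' : ∀ i, i ∉ D → (Y.e i / Y.ℓ i) ^ 2 = h1 ^ 2 ∨ (Y.e i / Y.ℓ i) ^ 2 = -h1 ^ 2 ∨
      (Y.Bar D i ∧ ((Y.e i / Y.ℓ i) ^ 2 = δ * h1 ^ 2 ∨
        (Y.e i / Y.ℓ i) ^ 2 = (starRingEnd ℂ) δ * h1 ^ 2)) := by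
    intro i hi
    rcases H i hi with h2 | h2 | ⟨hb, h2⟩
    · left
      rw [← he] at h2
      exact hdir h hh i h2
    · right; left
      rw [← he] at h2
      rw [hdir (I * h) (mul_ne_zero I_ne_zero hh) i h2, norm_mul, Complex.norm_I, one_mul,
        mul_div_assoc, mul_pow, I_sq, ← hh1]
      ring
    · right; right
      refine ⟨?_, ?_⟩
      · rcases hb with ⟨b1, b2⟩ | ⟨b1, b2⟩
        · left
          exact ⟨b1, by rw [he, he]; exact b2⟩
        · right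
          refine ⟨b1, ?_⟩
          rw [he, he, sub_add_cancel]
          exact b2
      · rcases h2 with h2 | h2
        · left
          rw [← he] at h2
          rw [hdir (h * d) (mul_ne_zero hh hd) i h2, norm_mul, hδ, hh1]
          push_cast
          rw [div_pow, div_pow, div_pow, mul_pow, mul_pow]
          have : (‖h‖ : ℂ) ≠ 0 := by exact_mod_cast hhn.ne'
          have : (‖d‖ : ℂ) ≠ 0 := by exact_mod_cast hdn.ne'
          field_simp
        · right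
          rw [← he] at h2
          have hd2 : (starRingEnd ℂ) d ≠ 0 := (map_ne_zero _).2 hd
          rw [hdir (h * (starRingEnd ℂ) d) (mul_ne_zero hh hd2) i h2, norm_mul, hδ, hh1,
            RCLike.norm_conj, map_pow, map_div₀, Complex.conj_ofReal]
          push_cast
          rw [div_pow, div_pow, div_pow, mul_pow, mul_pow]
          have : (‖h‖ : ℂ) ≠ 0 := by exact_mod_cast hhn.ne'
          have : (‖d‖ : ℂ) ≠ 0 := by exact_mod_cast hdn.ne'
          field_simp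
  by_cases hroot : ∀ m : ℕ, 0 < m → δ ^ m ≠ 1
  · exact hg.closed_barrier hN hh1n hδn hroot H' hv
  · push Not at hroot
    obtain ⟨m, hm0, hm⟩ := hroot
    have hh10 : h1 ≠ 0 := by rw [← norm_pos_iff, hh1n]; norm_num
    have hκ : ∀ i, i ∉ D → ∃ κ : ℂ, κ ^ (2 * m) = 1 ∧ (Y.e i / Y.ℓ i) ^ 2 = κ * h1 ^ 2 := by
      intro i hi
      rcases H' i hi with h2 | h2 | ⟨-, h2 | h2⟩
      · exact ⟨1, one_pow _, by rw [h2, one_mul]⟩
      · refine ⟨-1, ?_, by rw [h2]; ring⟩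
        rw [pow_mul]; norm_num
      · refine ⟨δ, ?_, h2⟩
        rw [mul_comm, pow_mul, hm, one_pow]
      · refine ⟨(starRingEnd ℂ) δ, ?_, h2⟩
        rw [mul_comm, pow_mul, ← map_pow, hm, map_one, one_pow]
    refine hg.closed_rational hN (K := 2 * m) (by omega) ?_ v
    intro i j hi hj
    obtain ⟨κ, k1, k2⟩ := hκ i hi
    obtain ⟨κ', k1', k2'⟩ := hκ j hj
    rw [k2, k2']
    have hh2 : h1 ^ 2 ≠ 0 := pow_ne_zero 2 hh10
    rw [mul_div_mul_right _ _ hh2, div_pow, k1, k1', div_one]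

/-- Convex quadrilaterals `A B C D` with the dispersive side `A B` whose angles at `C` and `D`
are equal or one of them is right. -/
theorem hyperbolic_of_quad (p : ZMod 4 → ℂ)
    (hconv : ∀ i j, j ≠ i → j ≠ i + 1 → 0 < cr (p (i + 1) - p i) (p j - p i))
    (h : cr (I * (p 3 - p 2)) (p 2 - p 1) = 0 ∨ cr (I * (p 3 - p 2)) (p 0 - p 3) = 0 ∨
      cr ((p 3 - p 2) ^ 2) ((p 2 - p 1) * (p 0 - p 3)) = 0) :
    ∃ R : ℝ, ∀ ρ : ZMod 4 → ℝ, R ≤ ρ 0 →
      (Dom.mk (Table.mk p {0} ρ) {x | ∀ i, 0 < cr (p (i + 1) - p i) (x - p i)}).Hyperbolic := by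
  have hdom := polyDom_convex (by norm_num) p hconv
  have hne : ∀ i, p (i + 1) - p i ≠ 0 := fun i => sub_ne_zero.2 (hdom.ne i).symm
  have e01 : (0 : ZMod 4) + 1 = 1 := by decide
  have e12 : (1 : ZMod 4) + 1 = 2 := by decide
  have e23 : (2 : ZMod 4) + 1 = 3 := by decide
  have e30 : (3 : ZMod 4) + 1 = 0 := by decide
  have e10 : (1 : ZMod 4) - 1 = 0 := by decide
  have hn0 := hne 0
  have hn1 := hne 1
  have hn2 := hne 2
  have hn3 := hne 3
  rw [e01] at hn0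
  rw [e12] at hn1
  rw [e23] at hn2
  rw [e30] at hn3
  -- the convex corners
  have c1 : 0 < cr (p 1 - p 0) (p 2 - p 1) := by
    have := hconv 0 2 (by decide) (by decide)
    rw [e01] at this
    have h2 : cr (p 1 - p 0) (p 2 - p 1) = cr (p 1 - p 0) (p 2 - p 0) := by
      simp only [cr, sub_re, sub_im]; ring
    rwa [h2]
  have c3 : 0 < cr (p 0 - p 3) (p 1 - p 0) := by
    have := hconv 3 1 (by decide) (by decide)
    rw [e30] at this
    have h2 : cr (p 0 - p 3) (p 1 - p 0) = cr (p 0 - p 3) (p 1 - p 3) := by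
      simp only [cr, sub_re, sub_im]; ring
    rwa [h2]
  have g1 : Guarded p {0} (1 : ZMod 4) := by
    right
    rw [e10, e12]
    exact ⟨rfl, c1⟩
  have g3 : Guarded p {0} (3 : ZMod 4) := by
    left
    rw [e30, e01]
    exact ⟨rfl, c3⟩
  have key : ∀ d : ℂ, d ≠ 0 →
      (cr (I * (p 3 - p 2)) (p 2 - p 1) = 0 ∨ cr ((p 3 - p 2) * d) (p 2 - p 1) = 0 ∨
        cr ((p 3 - p 2) * (starRingEnd ℂ) d) (p 2 - p 1) = 0) →
      (cr (I * (p 3 - p 2)) (p 0 - p 3) = 0 ∨ cr ((p 3 - p 2) * d) (p 0 - p 3) = 0 ∨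
        cr ((p 3 - p 2) * (starRingEnd ℂ) d) (p 0 - p 3) = 0) →
      ∃ R : ℝ, ∀ ρ : ZMod 4 → ℝ, R ≤ ρ 0 →
        (Dom.mk (Table.mk p {0} ρ) {x | ∀ i, 0 < cr (p (i + 1) - p i) (x - p i)}).Hyperbolic := by
    intro d hd a1 a3
    obtain ⟨R, hR⟩ := hyperbolic_of_guarded (by norm_num) p _ hdom {0} ⟨0, rfl⟩ (p 3 - p 2) d hn2 hd
      (by
        intro i hi
        have hi' : i ≠ 0 := hi
        have hcases : ∀ j : ZMod 4, j ≠ 0 → j = 1 ∨ j = 2 ∨ j = 3 := by decide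
        rcases hcases i hi' with rfl | rfl | rfl
        · rw [e12]
          rcases a1 with h1 | h1
          · exact Or.inr (Or.inl h1)
          · exact Or.inr (Or.inr ⟨g1, h1⟩)
        · rw [e23]
          left
          simp only [cr]; ring
        · rw [e30]
          rcases a3 with h1 | h1
          · exact Or.inr (Or.inl h1)
          · exact Or.inr (Or.inr ⟨g3, h1⟩))
    refine ⟨R, fun ρ hρ => hR ρ ?_⟩
    intro k hk
    have : k = 0 := hk
    rw [this]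
    exact hρ
  rcases h with h | h | h
  · -- right angle at `C`
    refine key ((p 0 - p 3) / (p 3 - p 2)) (div_ne_zero hn3 hn2) (Or.inl h)
      (Or.inr (Or.inl ?_))
    rw [mul_div_cancel₀ _ hn2]
    simp only [cr]; ring
  · -- right angle at `D`
    refine key ((p 2 - p 1) / (p 3 - p 2)) (div_ne_zero hn1 hn2) (Or.inr (Or.inl ?_)) (Or.inl h)
    rw [mul_div_cancel₀ _ hn2]
    simp only [cr]; ring
  · -- equal angles
    refine key ((p 0 - p 3) / (p 3 - p 2)) (div_ne_zero hn3 hn2) (Or.inr (Or.inr ?_))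
      (Or.inr (Or.inl ?_))
    · have hc2 : (starRingEnd ℂ) (p 3 - p 2) ≠ 0 := (map_ne_zero _).2 hn2
      have hns : (0 : ℝ) < Complex.normSq (p 3 - p 2) := Complex.normSq_pos.2 hn2
      have h1 : (p 3 - p 2) * (starRingEnd ℂ) ((p 0 - p 3) / (p 3 - p 2)) =
          ((1 / Complex.normSq (p 3 - p 2) : ℝ) : ℂ) *
            ((p 3 - p 2) ^ 2 * (starRingEnd ℂ) (p 0 - p 3)) := by
        rw [map_div₀]
        have h2 : ((Complex.normSq (p 3 - p 2) : ℝ) : ℂ) =
            (p 3 - p 2) * (starRingEnd ℂ) (p 3 - p 2) := (Complex.mul_conj _).symm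
        push_cast
        rw [h2]
        field_simp
      have h3 : cr ((p 3 - p 2) ^ 2 * (starRingEnd ℂ) (p 0 - p 3)) (p 2 - p 1) =
          cr ((p 3 - p 2) ^ 2) ((p 2 - p 1) * (p 0 - p 3)) := by
        simp only [cr, mul_re, mul_im, conj_re, conj_im]; ring
      rw [h1, cr_smul_left, h3, h, mul_zero]
    · rw [mul_div_cancel₀ _ hn2]
      simp only [cr]; ring

end Pool.Agent.Lib.MP_19d7db_an
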