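import Pool.Agent.Lib.MP_19d7db_an_S.Convex

/-!
# Billiards in simple polygons with absorbing sides

The dispersive sides of a semi-dispersive polygon with large radii are replaced by absorbing
sides of the polygon: an orbit of the semi-dispersive polygon which only hits neutral sides is an
orbit of the polygon which does not hit the absorbing sides.
-/

open Complex Set Filter Topology MeasureTheory
open scoped ENNReal

namespace Pool.Agent.Lib.MP_19d7db_an

variable {n : ℕ}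

/-- Time reversal. -/
noncomputable def rev (z : ZMod n × ℝ × ℝ) : ZMod n × ℝ × ℝ := (z.1, (z.2.1, Real.pi - z.2.2))

lemma rev_rev (z : ZMod n × ℝ × ℝ) : rev (rev z) = z := by
  simp [rev]

namespace Dom

variable (Y : Dom n)

/-- The phase point is not on an absorbing side, and neither are its next `k` images. -/
def Sv (A : Set (ZMod n)) : ℕ → ZMod n × ℝ × ℝ → Prop
  | 0, z => z.1 ∉ A
  | k + 1, z => z.1 ∉ A ∧ ∃ z', Y.Hit z z' ∧ Sv A k z'

/-- The two sided orbit of the phase point is infinite and avoids the absorbing sides. -/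
def KK (A : Set (ZMod n)) (z : ZMod n × ℝ × ℝ) : Prop :=
  z.2 ∈ Y.Phase z.1 ∧ ∀ k, Y.Sv A k z ∧ Y.Sv A k (rev z)

variable {Y} {A : Set (ZMod n)}

lemma Sv.zero {k : ℕ} {z : ZMod n × ℝ × ℝ} (h : Y.Sv A k z) : z.1 ∉ A := by
  cases k with
  | zero => exact h
  | succ k => exact h.1

lemma Sv.pred {k : ℕ} : ∀ {z : ZMod n × ℝ × ℝ}, Y.Sv A (k + 1) z → Y.Sv A k z := by
  induction k with
  | zero => intro z h; exact h.1
  | succ k ih =>
    intro z h
    obtain ⟨h1, z', h2, h3⟩ := h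
    exact ⟨h1, z', h2, ih h3⟩

end Dom

namespace SG

variable {Y : Dom n} {C η : ℝ} (hg : SG Y C η) {A : Set (ZMod n)}

include hg

lemma hit_rev' {z z' : ZMod n × ℝ × ℝ} (h : Y.Hit z z') : Y.Hit (rev z') (rev z) :=
  hg.hit_rev h

lemma rev_phase {z : ZMod n × ℝ × ℝ} (h : z.2 ∈ Y.Phase z.1) : (rev z).2 ∈ Y.Phase (rev z).1 := by
  refine ⟨h.1, ?_, ?_⟩
  · simp only [rev]; linarith [h.2.2]
  · simp only [rev]; linarith [h.2.1]

lemma K_rev {z : ZMod n × ℝ × ℝ} (h : Y.KK A z) : Y.KK A (rev z) := by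
  refine ⟨hg.rev_phase h.1, fun k => ⟨(h.2 k).2, ?_⟩⟩
  rw [rev_rev]
  exact (h.2 k).1

lemma K_rev_iff {z : ZMod n × ℝ × ℝ} : Y.KK A (rev z) ↔ Y.KK A z := by
  constructor
  · intro h
    have := hg.K_rev h
    rwa [rev_rev] at this
  · exact hg.K_rev

lemma K_step {z z' : ZMod n × ℝ × ℝ} (h : Y.Hit z z') (hK : Y.KK A z) : Y.KK A z' := by
  have h1 : ∀ k, Y.Sv A k z' := by
    intro k
    obtain ⟨-, y, hy, hk⟩ := (hK.2 (k + 1)).1
    rwa [hg.hit_unique' h hy]
  refine ⟨h.2.1, fun k => ⟨h1 k, ?_⟩⟩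
  have h0 : z'.1 ∉ A := h1 0
  cases k with
  | zero => exact h0
  | succ k => exact ⟨h0, rev z, hg.hit_rev' h, (hK.2 k).2⟩

/-- The property is invariant under the billiard map. -/
lemma K_iff {z z' : ZMod n × ℝ × ℝ} (h : Y.Hit z z') : Y.KK A z ↔ Y.KK A z' := by
  constructor
  · exact hg.K_step h
  · intro hK
    rw [← hg.K_rev_iff]
    exact hg.K_step (hg.hit_rev' h) (hg.K_rev hK)

lemma isOpen_sv [NeZero n] : ∀ (k : ℕ) (i : ZMod n),
    IsOpen {w : ℝ × ℝ | w ∈ Y.Phase i ∧ Y.Sv A k (i, w)} := by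
  intro k
  induction k with
  | zero =>
    intro i
    by_cases hi : i ∈ A
    · convert isOpen_empty
      ext w
      simp only [Set.mem_ofPred_eq, Set.mem_empty_iff_false, iff_false, not_and]
      intro _ h
      exact h hi
    · convert isOpen_phase (Y := Y) i using 1
      ext w
      simp only [Set.mem_ofPred_eq, and_iff_left_iff_imp]
      intro _
      exact hi
  | succ k ih =>
    intro i
    rw [isOpen_iff_mem_nhds]
    rintro w ⟨hw, hi, ⟨j, w1⟩, hh, hp⟩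
    obtain ⟨F, A', t, ht, hFw, hFd, hF, -⟩ := hg.hit_local hh
    have hw1 : w1 ∈ Y.Phase j := hh.2.1
    have h1 : Tendsto F (𝓝 w) (𝓝 w1) := by
      have := hFd.continuousAt.tendsto; rwa [hFw] at this
    have h2 : ∀ᶠ u in 𝓝 w, F u ∈ {w : ℝ × ℝ | w ∈ Y.Phase j ∧ Y.Sv A k (j, w)} :=
      h1.eventually ((ih j).mem_nhds ⟨hw1, hp⟩)
    filter_upwards [hF, h2] with u h3 h4
    exact ⟨h3.1, hi, (j, F u), h3, h4.2⟩

/-- The phase points of a component which never hit an absorbing side. -/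
def _root_.Pool.Agent.Lib.MP_19d7db_an.Dom.SS (Y : Dom n) (A : Set (ZMod n)) (i : ZMod n) :
    Set (ℝ × ℝ) := {w | w ∈ Y.Phase i ∧ ∀ k, Y.Sv A k (i, w)}

lemma meas_SS [NeZero n] (i : ZMod n) : MeasurableSet (Y.SS A i) := by
  have : Y.SS A i = ⋂ k : ℕ, {w : ℝ × ℝ | w ∈ Y.Phase i ∧ Y.Sv A k (i, w)} := by
    ext w
    simp only [Dom.SS, Set.mem_ofPred_eq, Set.mem_iInter]
    exact ⟨fun h k => ⟨h.1, h.2 k⟩, fun h => ⟨(h 0).1, fun k => (h k).2⟩⟩
  rw [this]
  exact MeasurableSet.iInter fun k => (hg.isOpen_sv k i).measurableSet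

lemma meas_K [NeZero n] (i : ZMod n) : MeasurableSet {w : ℝ × ℝ | Y.KK A (i, w)} := by
  have h1 := hg.meas_SS (A := A) i
  have hc : Continuous fun w : ℝ × ℝ => (w.1, Real.pi - w.2) := by fun_prop
  have : {w : ℝ × ℝ | Y.KK A (i, w)} =
      Y.SS A i ∩ (fun w : ℝ × ℝ => (w.1, Real.pi - w.2)) ⁻¹' (Y.SS A i) := by
    ext w
    constructor
    · intro h
      exact ⟨⟨h.1, fun k => (h.2 k).1⟩, hg.rev_phase h.1, fun k => (h.2 k).2⟩
    · rintro ⟨h1, h2⟩
      exact ⟨h1.1, fun k => ⟨h1.2 k, h2.2 k⟩⟩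
  rw [this]
  exact h1.inter (hc.measurable h1)

/-- Almost all points of `SS` have a preimage in `SS`. -/
lemma SS_image [NeZero n] (j : ZMod n) :
    volume (Y.SS A j \ ⋃ i, Y.Ψ i j '' (Y.SS A i ∩ Y.U i j)) = 0 := by
  have hSm : ∀ i, MeasurableSet (Y.SS A i) := fun i => hg.meas_SS i
  have hUm : ∀ i j, MeasurableSet (Y.U i j) := fun i j => (hg.isOpen_U i j).measurableSet
  have hEm : ∀ i j, MeasurableSet (Y.SS A i ∩ Y.U i j) := fun i j => (hSm i).inter (hUm i j)
  set g : ℝ × ℝ → ℝ≥0∞ := fun w => ENNReal.ofReal (Real.sin w.2) with hgd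
  have hgm : Measurable g := (Real.continuous_sin.comp continuous_snd).measurable.ennreal_ofReal
  have hsub : ∀ i, Y.SS A i ⊆ ⋃ j, Y.SS A i ∩ Y.U i j := by
    intro i w hw
    obtain ⟨-, ⟨k, w'⟩, hh, -⟩ := hw.2 1
    exact Set.mem_iUnion.2 ⟨k, hw, w', hh⟩
  have hImem : ∀ i j w, w ∈ Y.SS A i → w ∈ Y.U i j → Y.Ψ i j w ∈ Y.SS A j := by
    intro i j w hw hw'
    have h := Ψ_spec hw'
    refine ⟨h.2.1, fun k => ?_⟩
    obtain ⟨-, z', hh, hk⟩ := hw.2 (k + 1)
    rwa [hg.hit_unique' h hh]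
  set Im : ZMod n → Set (ℝ × ℝ) := fun j => ⋃ i, Y.Ψ i j '' (Y.SS A i ∩ Y.U i j) with hIm
  have hImm : ∀ j, MeasurableSet (Im j) := fun j =>
    MeasurableSet.iUnion fun i => hg.meas_image i j (hEm i j) Set.inter_subset_right
  have hImS : ∀ j, Im j ⊆ Y.SS A j := by
    intro j w hw
    obtain ⟨i, u, hu, rfl⟩ := Set.mem_iUnion.1 hw
    exact hImem i j u hu.1 hu.2
  have him : ∀ j, ∑ i, ∫⁻ w in Y.SS A i ∩ Y.U i j, g w = ∫⁻ w in Im j, g w := by
    intro j
    have h1 : ∀ i, ∫⁻ w in Y.SS A i ∩ Y.U i j, g w =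
        ∫⁻ w in Y.Ψ i j '' (Y.SS A i ∩ Y.U i j), g w := by
      intro i
      have := hg.lintegral_image i j (hEm i j) Set.inter_subset_right (fun _ => 1)
      simp only [mul_one] at this
      exact this.symm
    rw [Finset.sum_congr rfl fun i _ => h1 i]
    rw [← lintegral_biUnion_finset (s := Finset.univ)
      (t := fun i => Y.Ψ i j '' (Y.SS A i ∩ Y.U i j))]
    · congr 2
      rw [hIm]
      simp only [Finset.mem_univ, Set.iUnion_true]
    · intro i _ k _ hik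
      rw [Function.onFun, Set.disjoint_left]
      rintro w ⟨u, hu, rfl⟩ ⟨v, hv, hvw⟩
      have h2 := Ψ_spec hu.2
      have h3 := Ψ_spec hv.2
      rw [hvw] at h3
      exact hik (hg.hit_inj h2 h3).1
    · intro i _
      exact hg.meas_image i j (hEm i j) Set.inter_subset_right
  have hfin : ∀ i, ∫⁻ w in Y.SS A i, g w ≠ ∞ := by
    intro i
    have h1 : ∫⁻ w in Y.SS A i, g w ≤ ∫⁻ w in Y.SS A i, 1 := by
      apply lintegral_mono
      intro w
      change ENNReal.ofReal (Real.sin w.2) ≤ 1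
      rw [ENNReal.ofReal_le_one]
      exact Real.sin_le_one _
    refine ne_top_of_le_ne_top ?_ h1
    rw [setLIntegral_const, one_mul]
    refine ne_top_of_le_ne_top ?_ (measure_mono fun w hw => hw.1 : volume (Y.SS A i) ≤
      volume (Y.Phase i))
    rw [Table.Phase, Measure.volume_eq_prod, Measure.prod_prod, Real.volume_Ioo, Real.volume_Ioo]
    exact ENNReal.mul_ne_top ENNReal.ofReal_ne_top ENNReal.ofReal_ne_top
  have hsplit : ∀ j, ∫⁻ w in Y.SS A j, g w = (∫⁻ w in Im j, g w) +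
      ∫⁻ w in Y.SS A j \ Im j, g w := by
    intro j
    rw [← lintegral_inter_add_sdiff g (Y.SS A j) (hImm j)]
    rw [Set.inter_eq_right.2 (hImS j)]
  have htot : (∑ j, ∫⁻ w in Im j, g w) + ∑ j, ∫⁻ w in Y.SS A j \ Im j, g w ≤
      ∑ j, ∫⁻ w in Im j, g w := by
    calc _ = ∑ j, ∫⁻ w in Y.SS A j, g w := by
          rw [← Finset.sum_add_distrib]
          exact Finset.sum_congr rfl fun j _ => (hsplit j).symm
      _ ≤ ∑ j, ∑ k, ∫⁻ w in Y.SS A j ∩ Y.U j k, g w := by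
          apply Finset.sum_le_sum
          intro j _
          calc _ ≤ ∫⁻ w in ⋃ k, Y.SS A j ∩ Y.U j k, g w := lintegral_mono_set (hsub j)
            _ ≤ ∑' k, ∫⁻ w in Y.SS A j ∩ Y.U j k, g w := lintegral_iUnion_le _ _
            _ = _ := tsum_fintype _
      _ = ∑ k, ∑ j, ∫⁻ w in Y.SS A j ∩ Y.U j k, g w := Finset.sum_comm
      _ = _ := Finset.sum_congr rfl fun k _ => him k
  have hfin' : ∑ j, ∫⁻ w in Im j, g w ≠ ∞ := by
    rw [ENNReal.sum_ne_top]
    intro j _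
    exact ne_top_of_le_ne_top (hfin j) (lintegral_mono_set (hImS j))
  have hzero : ∑ j, ∫⁻ w in Y.SS A j \ Im j, g w = 0 := by
    by_contra hcon
    exact absurd htot (not_le.2 (ENNReal.lt_add_right hfin' hcon))
  rw [Finset.sum_eq_zero_iff] at hzero
  have h1 := hzero j (Finset.mem_univ j)
  rw [lintegral_eq_zero_iff hgm, Filter.EventuallyEq,
    ae_restrict_iff' ((hSm j).diff (hImm j))] at h1
  rw [measure_eq_zero_iff_ae_notMem]
  filter_upwards [h1] with w h2 h3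
  have h4 := h2 h3
  have s1 := hg.sin_pos_of_phase h3.1.1
  simp only [hgd, Pi.zero_apply, ENNReal.ofReal_eq_zero] at h4
  linarith

/-- If almost no two sided orbit avoids the absorbing sides, then almost no forward orbit does. -/
theorem SS_null [NeZero n] (hK : ∀ i, volume {w : ℝ × ℝ | Y.KK A (i, w)} = 0) (i : ZMod n) :
    volume (Y.SS A i) = 0 := by
  have key : ∀ (k : ℕ) (j : ZMod n),
      volume {w : ℝ × ℝ | w ∈ Y.SS A j ∧ ¬ Y.Sv A k (rev (j, w))} = 0 := by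
    intro k
    induction k with
    | zero =>
      intro j
      convert measure_empty (μ := (volume : Measure (ℝ × ℝ)))
      ext w
      simp only [Set.mem_ofPred_eq, Set.mem_empty_iff_false, iff_false, not_and, not_not]
      intro hw
      exact (hw.2 0)
    | succ k ih =>
      intro j
      have h1 := hg.SS_image (A := A) j
      have h2 : ∀ i, volume (Y.Ψ i j ''
          ({w : ℝ × ℝ | w ∈ Y.SS A i ∧ ¬ Y.Sv A k (rev (i, w))} ∩ Y.U i j)) = 0 := by
        intro i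
        apply addHaar_image_eq_zero_of_differentiableOn_of_addHaar_eq_zero volume
        · intro w hw
          obtain ⟨B, hB, -⟩ := hg.exists_deriv hw.2
          exact hB.differentiableAt.differentiableWithinAt
        · exact measure_mono_null Set.inter_subset_left (ih i)
      apply measure_mono_null _ (measure_union_null h1 (measure_iUnion_null h2))
      rintro w ⟨hw, hn⟩
      by_cases hwI : w ∈ ⋃ i, Y.Ψ i j '' (Y.SS A i ∩ Y.U i j)
      · right
        obtain ⟨i, u, hu, rfl⟩ := Set.mem_iUnion.1 hwI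
        refine Set.mem_iUnion.2 ⟨i, u, ⟨⟨hu.1, fun hk => hn ?_⟩, hu.2⟩, rfl⟩
        exact ⟨hw.2 0, rev (i, u), hg.hit_rev' (Ψ_spec hu.2), hk⟩
      · left
        exact ⟨hw, hwI⟩
  have h1 : volume (⋃ k : ℕ, {w : ℝ × ℝ | w ∈ Y.SS A i ∧ ¬ Y.Sv A k (rev (i, w))}) = 0 :=
    measure_iUnion_null fun k => key k i
  apply measure_mono_null _ (measure_union_null h1 (hK i))
  intro w hw
  by_cases h : ∀ k, Y.Sv A k (rev (i, w))
  · right
    exact ⟨hw.1, fun k => ⟨hw.2 k, h k⟩⟩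
  · left
    push Not at h
    obtain ⟨k, hk⟩ := h
    exact Set.mem_iUnion.2 ⟨k, hw, hk⟩

/-- Orbits of the semi-dispersive polygon which only hit neutral sides are orbits of the polygon
which avoid the absorbing sides. -/
lemma sv_of_path {Y' : Dom n} (hp : Y'.p = Y.p) (hΩ : Y'.Ω = Y.Ω) (hY : Y'.D = ∅) :
    ∀ (L : List (ZMod n)) (z : ZMod n × ℝ × ℝ), Y.Path L z → Y'.Sv Y.D L.length z := by
  have hN : ∀ i, i ∉ Y'.D := fun i => by rw [hY]; exact Set.notMem_empty i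
  have he : ∀ i, Y'.e i = Y.e i := fun i => by rw [Table.e, Table.e, hp]
  have hℓ : ∀ i, Y'.ℓ i = Y.ℓ i := fun i => by rw [Table.ℓ, Table.ℓ, he]
  have hpos : ∀ i, i ∉ Y.D → ∀ s, Y'.pos i s = Y.pos i s := by
    intro i hi s
    rw [Y'.pos_N (hN i), Y.pos_N hi, he, hℓ, hp]
  have htan : ∀ i, i ∉ Y.D → ∀ s, Y'.tan i s = Y.tan i s := by
    intro i hi s
    rw [Table.tan, Table.tan, Y'.β_N (hN i), Y'.κ_N (hN i), Y.β_N hi, Y.κ_N hi, he, hℓ]
  have hph : ∀ i, i ∉ Y.D → Y'.Phase i = Y.Phase i := by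
    intro i hi
    rw [Table.Phase, Table.Phase, Y'.len_N (hN i), Y.len_N hi, hℓ]
  have hhit : ∀ z z' : ZMod n × ℝ × ℝ, z.1 ∉ Y.D → z'.1 ∉ Y.D → Y.Hit z z' → Y'.Hit z z' := by
    intro z z' hz hz' h
    obtain ⟨h1, h2, t, ht, h3, h4, h5⟩ := h
    refine ⟨by rwa [hph _ hz], by rwa [hph _ hz'], t, ht, ?_, ?_, ?_⟩
    · rw [hpos _ hz', hpos _ hz, Table.dir, htan _ hz]
      exact h3
    · rw [Table.dir, Table.dirIn, htan _ hz, htan _ hz']
      exact h4
    · intro u hu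
      have h6 := h5 u hu
      rw [hpos _ hz, Table.dir, htan _ hz]
      refine ⟨?_, fun k hk => absurd hk (hN k)⟩
      rw [hΩ]
      exact h6.1
  intro L
  induction L with
  | nil => intro z hz; exact hz
  | cons j L ih =>
    intro z hz
    obtain ⟨h1, w', h2, h3⟩ := hz
    exact ⟨h1, (j, w'), hhit _ _ h1 h3.neutral h2, ih _ h3⟩

/-- The reduction to polygons with absorbing sides. -/
theorem hyperbolic_of_flat [NeZero n] {Y' : Dom n} (hp : Y'.p = Y.p) (hΩ : Y'.Ω = Y.Ω)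
    (hY : Y'.D = ∅) (h : ∀ i, i ∉ Y.D → volume (Y'.SS Y.D i) = 0) : Y.Hyperbolic := by
  apply hg.hyperbolic_of_ae
  intro i
  have hN : ∀ i, i ∉ Y'.D := fun i => by rw [hY]; exact Set.notMem_empty i
  by_cases hi : i ∈ Y.D
  · convert measure_empty (μ := (volume : Measure (ℝ × ℝ)))
    ext w
    simp only [Set.mem_ofPred_eq, Set.mem_empty_iff_false, iff_false, not_and]
    intro _ hall
    obtain ⟨L, hL, hp⟩ := hall 0
    exact hp.neutral hi
  · apply measure_mono_null _ (h i hi)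
    rintro w ⟨hw, hall⟩
    refine ⟨?_, fun k => ?_⟩
    · have he : Y'.ℓ i = Y.ℓ i := by rw [Table.ℓ, Table.ℓ, Table.e, Table.e, hp]
      rw [Table.Phase, Y'.len_N (hN i), he]
      rw [Table.Phase, Y.len_N hi] at hw
      exact hw
    · obtain ⟨L, hL, hpath⟩ := hall k
      rw [← hL]
      exact hg.sv_of_path hp hΩ hY L _ hpath

end SG

end Pool.Agent.Lib.MP_19d7db_an
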