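import Pool.Agent.Lib.MP_19d7db_an_F.Shift

/-!
# Billiards in simple polygons: the gap lemma

If the orbits which avoid the absorbing sides have finitely many directions, and none of the
directions is a direction of a generalised diagonal, then on every side and for every one of the
directions either almost all or almost no orbits avoid the absorbing sides.
-/

open Complex Set Filter Topology MeasureTheory
open scoped ENNReal

namespace Pool.Agent.Lib.MP_19d7db_an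

variable {n : ℕ}

/-- Almost no ray at distance less than `r` on the side `σ` of the ray of `z` has an orbit which
avoids the absorbing sides. -/
def Dom.Dead (Y : Dom n) (A : Set (ZMod n)) (z : ZMod n × ℝ × ℝ) (σ r : ℝ) : Prop :=
  ∀ᵐ x : ℝ, x ∈ Ioo 0 r → ¬ Y.KK A (sh z (σ * x))

/-- The ray of `z` is the end of a gap on its side `σ`. -/
structure Dom.GapEnd (Y : Dom n) (A : Set (ZMod n)) (Γ : Set ℂ) (z : ZMod n × ℝ × ℝ) (σ : ℝ) :
    Prop where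
  hσ : σ = 1 ∨ σ = -1
  hA : z.1 ∉ A
  ph : z.2 ∈ Y.Phase z.1
  dir : Y.dir z ∈ Γ
  dead : ∃ r, 0 < r ∧ Y.Dead A z σ r
  alive : ∀ r, 0 < r → ¬ Y.Dead A z (-σ) r
  nFS : ¬ Y.FS z

/-- The gap contains the rays at distance less than `m`. -/
structure Dom.GD (Y : Dom n) (A : Set (ZMod n)) (z : ZMod n × ℝ × ℝ) (σ m : ℝ) : Prop where
  dead : Y.Dead A z σ m
  ph : ∀ x ∈ Ioo 0 m, (sh z (σ * x)).2 ∈ Y.Phase z.1

lemma Dom.Dead.mono {Y : Dom n} {A : Set (ZMod n)} {z : ZMod n × ℝ × ℝ} {σ r r' : ℝ}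
    (h : Y.Dead A z σ r) (hr : r' ≤ r) : Y.Dead A z σ r' := by
  filter_upwards [h] with x hx h2
  exact hx ⟨h2.1, h2.2.trans_le hr⟩

lemma Dom.GD.mono {Y : Dom n} {A : Set (ZMod n)} {z : ZMod n × ℝ × ℝ} {σ r r' : ℝ}
    (h : Y.GD A z σ r) (hr : r' ≤ r) : Y.GD A z σ r' :=
  ⟨h.dead.mono hr, fun x hx => h.ph x ⟨hx.1, hx.2.trans_le hr⟩⟩

/-- `k` steps of the billiard map on sides which are not absorbing. -/
def Dom.It (Y : Dom n) (A : Set (ZMod n)) : ℕ → ZMod n × ℝ × ℝ → ZMod n × ℝ × ℝ → Prop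
  | 0, y, y' => y = y' ∧ y.1 ∉ A
  | k + 1, y, y' => ∃ y'', Dom.It Y A k y y'' ∧ Y.Hit y'' y' ∧ y'.1 ∉ A

namespace SG

variable {Y : Dom n} {C η : ℝ} (hg : SG Y C η) {A : Set (ZMod n)} {Γ : Set ℂ}

include hg

omit hg in
lemma it_sv : ∀ (k l : ℕ) (y y' : ZMod n × ℝ × ℝ), Y.It A k y y' → Y.Sv A l y' →
    Y.Sv A (k + l) y := by
  intro k
  induction k with
  | zero => intro l y y' h hs; rw [zero_add, h.1]; exact hs
  | succ k ih =>
    intro l y y' h hs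
    obtain ⟨y'', h1, h2, h3⟩ := h
    have h4 : y''.1 ∉ A := by
      cases k with
      | zero => rw [← h1.1]; exact h1.2
      | succ k =>
        obtain ⟨-, -, -, h5⟩ := h1
        exact h5
    have h5 : Y.Sv A (l + 1) y'' := ⟨h4, y', h2, hs⟩
    have h6 := ih (l + 1) y y'' h1 h5
    have : k + 1 + l = k + (l + 1) := by ring
    rwa [this]

lemma it_sv_rev : ∀ (k l : ℕ) (y y' : ZMod n × ℝ × ℝ), Y.It A k y y' → Y.Sv A l (rev y) →
    Y.Sv A (k + l) (rev y') := by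
  intro k
  induction k with
  | zero => intro l y y' h hs; rw [zero_add, ← h.1]; exact hs
  | succ k ih =>
    intro l y y' h hs
    obtain ⟨y'', h1, h2, h3⟩ := h
    have h6 := ih l y y'' h1 hs
    have : k + 1 + l = (k + l) + 1 := by ring
    rw [this]
    exact ⟨h3, rev y'', hg.hit_rev' h2, h6⟩

omit hg in
lemma sv_le {k l : ℕ} (h : k ≤ l) {z : ZMod n × ℝ × ℝ} (hs : Y.Sv A l z) : Y.Sv A k z := by
  induction l, h using Nat.le_induction with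
  | base => exact hs
  | succ l _ ih => exact ih hs.pred

/-- Periodic orbits avoid the absorbing sides. -/
lemma K_of_periodic {p : ℕ} (hp : 0 < p) {y : ZMod n × ℝ × ℝ} (hy : y.2 ∈ Y.Phase y.1)
    (h : Y.It A p y y) : Y.KK A y := by
  have h0 : y.1 ∉ A := by
    cases p with
    | zero => exact absurd hp (lt_irrefl 0)
    | succ k =>
      obtain ⟨-, -, -, h5⟩ := h
      exact h5
  have h1 : ∀ m, Y.Sv A (p * m) y := by
    intro m
    induction m with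
    | zero => exact h0
    | succ m ih =>
      have := it_sv p (p * m) y y h ih
      rwa [show p * (m + 1) = p + p * m by ring]
  have h2 : ∀ m, Y.Sv A (p * m) (rev y) := by
    intro m
    induction m with
    | zero => exact h0
    | succ m ih =>
      have := hg.it_sv_rev p (p * m) y y h ih
      rwa [show p * (m + 1) = p + p * m by ring]
  refine ⟨hy, fun k => ⟨sv_le ?_ (h1 k), sv_le ?_ (h2 k)⟩⟩ <;> exact Nat.le_mul_of_pos_left k hp

lemma not_K_of_hit {z z' : ZMod n × ℝ × ℝ} (h : Y.Hit z z') (hA : z'.1 ∈ A) : ¬ Y.KK A z := by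
  intro hK
  obtain ⟨-, y, hy, h2⟩ := (hK.2 1).1
  rw [← hg.hit_unique' h hy] at h2
  exact h2 hA

/-- Displaced rays near a given ray. -/
lemma near [NeZero n] (hN : ∀ i, i ∉ Y.D) {z z' : ZMod n × ℝ × ℝ} (h : Y.Hit z z') :
    ∃ ε, 0 < ε ∧ ∀ δ : ℝ, |δ| < ε → Y.Hit (sh z δ) (sh z' (-δ)) := by
  obtain ⟨ε, hε, h1⟩ := Metric.eventually_nhds_iff.1 (hg.hit_sh hN h)
  refine ⟨ε, hε, fun δ hδ => h1 ?_⟩
  rwa [Real.dist_eq, sub_zero]

lemma dead_transfer [NeZero n] {z z' : ZMod n × ℝ × ℝ} {ε : ℝ}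
    (hε : ∀ δ : ℝ, |δ| < ε → Y.Hit (sh z δ) (sh z' (-δ))) {σ r : ℝ} (hσ : σ = 1 ∨ σ = -1)
    (h : Y.Dead A z σ r) : Y.Dead A z' (-σ) (min r ε) := by
  filter_upwards [h] with x hx h2
  have h3 : |σ * x| < ε := by
    rw [abs_mul]
    have : |σ| = 1 := by rcases hσ with h | h <;> rw [h] <;> simp
    rw [this, one_mul, abs_of_pos h2.1]
    exact h2.2.trans_le (min_le_right _ _)
  rw [neg_mul, ← hg.K_iff (hε _ h3)]
  exact hx ⟨h2.1, h2.2.trans_le (min_le_left _ _)⟩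

lemma dead_transfer' [NeZero n] {z z' : ZMod n × ℝ × ℝ} {ε : ℝ}
    (hε : ∀ δ : ℝ, |δ| < ε → Y.Hit (sh z δ) (sh z' (-δ))) {σ r : ℝ} (hσ : σ = 1 ∨ σ = -1)
    (h : Y.Dead A z' (-σ) r) : Y.Dead A z σ (min r ε) := by
  filter_upwards [h] with x hx h2
  have h3 : |σ * x| < ε := by
    rw [abs_mul]
    have : |σ| = 1 := by rcases hσ with h | h <;> rw [h] <;> simp
    rw [this, one_mul, abs_of_pos h2.1]
    exact h2.2.trans_le (min_le_right _ _)
  rw [hg.K_iff (hε _ h3), ← neg_mul]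
  exact hx ⟨h2.1, h2.2.trans_le (min_le_left _ _)⟩

omit hg in
lemma exists_of_not_dead {z : ZMod n × ℝ × ℝ} {σ r : ℝ} (h : ¬ Y.Dead A z σ r) :
    ∃ x ∈ Ioo 0 r, Y.KK A (sh z (σ * x)) := by
  by_contra hcon
  push Not at hcon
  exact h (Eventually.of_forall hcon)

/-- The image of the end of a gap is the end of a gap. -/
lemma gap_step [NeZero n] (hN : ∀ i, i ∉ Y.D)
    (hΓ : ∀ z z', Y.KK A z → Y.dir z ∈ Γ → Y.Hit z z' → Y.dir z' ∈ Γ)
    {z z' : ZMod n × ℝ × ℝ} {σ : ℝ} (hG : Y.GapEnd A Γ z σ) (h : Y.Hit z z') :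
    Y.GapEnd A Γ z' (-σ) := by
  obtain ⟨ε, hε, hnear⟩ := hg.near hN h
  have hσ' : -σ = 1 ∨ -σ = -1 := by
    rcases hG.hσ with h | h
    · right; rw [h]
    · left; rw [h]; norm_num
  obtain ⟨x, hx, hxK⟩ := exists_of_not_dead (hG.alive ε hε)
  have hx3 : |(-σ) * x| < ε := by
    rw [abs_mul]
    have : |-σ| = 1 := by rcases hσ' with h | h <;> rw [h] <;> simp
    rw [this, one_mul, abs_of_pos hx.1]
    exact hx.2
  refine ⟨hσ', ?_, h.2.1, ?_, ?_, ?_, fun hF => hG.nFS (hg.FS_step hN h hF)⟩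
  · intro hA
    exact hg.not_K_of_hit (hnear _ hx3) hA hxK
  · have h1 : Y.dir (sh z ((-σ) * x)) ∈ Γ := by rw [hg.dir_sh hN]; exact hG.dir
    have := hΓ _ _ hxK h1 (hnear _ hx3)
    rwa [hg.dir_sh hN] at this
  · obtain ⟨r, hr, hd⟩ := hG.dead
    exact ⟨min r ε, lt_min hr hε, hg.dead_transfer hnear hG.hσ hd⟩
  · intro r hr hd
    exact hG.alive (min r ε) (lt_min hr hε) (hg.dead_transfer' hnear hσ' hd)

lemma exists_GD [NeZero n] {z : ZMod n × ℝ × ℝ} {σ : ℝ} (hG : Y.GapEnd A Γ z σ) :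
    ∃ m, 0 < m ∧ Y.GD A z σ m := by
  obtain ⟨r, hr, hd⟩ := hG.dead
  have hc : Continuous fun x : ℝ => (sh z (σ * x)).2 := by
    simp only [sh]; fun_prop
  have h1 : ∀ᶠ x : ℝ in 𝓝 0, (sh z (σ * x)).2 ∈ Y.Phase z.1 := by
    have h2 := hc.tendsto 0
    rw [mul_zero, sh_zero] at h2
    exact h2.eventually ((isOpen_phase (Y := Y) z.1).mem_nhds hG.ph)
  obtain ⟨ε, hε, h3⟩ := Metric.eventually_nhds_iff.1 h1
  refine ⟨min r ε, lt_min hr hε, hd.mono (min_le_left _ _), fun x hx => h3 ?_⟩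
  rw [Real.dist_eq, sub_zero, abs_of_pos hx.1]
  exact hx.2.trans_le (min_le_right _ _)

omit hg in
lemma ae_sub_left {P : ℝ → Prop} (h : ∀ᵐ x : ℝ, P x) (c : ℝ) : ∀ᵐ x : ℝ, P (c - x) :=
  (Measure.measurePreserving_sub_left volume c).quasiMeasurePreserving.ae h

omit hg in
lemma ae_add_left {P : ℝ → Prop} (h : ∀ᵐ x : ℝ, P x) (c : ℝ) : ∀ᵐ x : ℝ, P (c + x) :=
  (measurePreserving_add_left volume c).quasiMeasurePreserving.ae h

/-- The end of a gap is not in the interior of a gap. -/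
lemma gap_interior {z z' : ZMod n × ℝ × ℝ} {σ r x : ℝ} (hd : Y.Dead A z σ r)
    (hx : x ∈ Ioo 0 r) (hz' : z' = sh z (σ * x)) (hG : Y.GapEnd A Γ z' σ) : False := by
  apply hG.alive x hx.1
  have h1 := ae_sub_left hd x
  filter_upwards [h1] with u hu hu2
  have h2 : sh z' (-σ * u) = sh z (σ * (x - u)) := by
    rw [hz', sh_sh]; congr 1; ring
  rw [h2]
  exact hu ⟨by linarith [hu2.2], by linarith [hu2.1, hx.2]⟩

/-- Two ends of gaps of the same kind on the same component. -/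
lemma gap_sep {z z' : ZMod n × ℝ × ℝ} {σ m m' : ℝ} (hd : Y.Dead A z σ m)
    (hd' : Y.Dead A z' σ m') (hG : Y.GapEnd A Γ z σ) (hG' : Y.GapEnd A Γ z' σ)
    (h1 : z.1 = z'.1) (h2 : z.2.2 = z'.2.2) {x x' : ℝ} (hx : x ∈ Ico 0 m) (hx' : x' ∈ Ico 0 m')
    (h : sh z (σ * x) = sh z' (σ * x')) : z = z' := by
  rcases lt_trichotomy x x' with h3 | h3 | h3
  · exfalso
    have h4 : z = sh z' (σ * (x' - x)) := by
      have := sh_inj (c := -(σ * x)) h
      rw [add_neg_cancel, sh_zero] at this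
      rw [this]; congr 1; ring
    exact hg.gap_interior hd' ⟨by linarith, by linarith [hx.1, hx'.2]⟩ h4 hG
  · rw [h3] at h
    have := sh_inj (c := -(σ * x')) h
    rwa [add_neg_cancel, sh_zero, sh_zero] at this
  · exfalso
    have h4 : z' = sh z (σ * (x - x')) := by
      have := sh_inj (c := -(σ * x')) h.symm
      rw [add_neg_cancel, sh_zero] at this
      rw [this]; congr 1; ring
    exact hg.gap_interior hd ⟨by linarith, by linarith [hx'.1, hx.2]⟩ h4 hG'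

/-- The angle is determined by the direction. -/
lemma angle_unique (hN : ∀ i, i ∉ Y.D) {z z' : ZMod n × ℝ × ℝ} (h1 : z.2 ∈ Y.Phase z.1)
    (h2 : z'.2 ∈ Y.Phase z'.1) (h : z.1 = z'.1) (hd : Y.dir z = Y.dir z') : z.2.2 = z'.2.2 := by
  obtain ⟨i, s, θ⟩ := z
  obtain ⟨j, s', θ'⟩ := z'
  simp only at h
  subst h
  rw [Table.dir, Table.dir, hg.tan_N (hN _), hg.tan_N (hN _)] at hd
  simp only at hd h1 h2 ⊢
  have ht0 : Y.e i / Y.ℓ i ≠ 0 := by
    intro h; have := hg.norm_unit i; rw [h, norm_zero] at this; exact zero_ne_one this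
  have h4 := mul_left_cancel₀ ht0 hd
  rw [mul_comm I, mul_comm I] at h4
  have h7 := congrArg Complex.arg h4
  rw [Complex.arg_exp_mul_I, Complex.arg_exp_mul_I] at h7
  have c1 := h1.2
  have c2 := h2.2
  simp only [Set.mem_Ioo] at c1 c2
  have b1 : toIocMod Real.two_pi_pos (-Real.pi) θ = θ := by
    rw [toIocMod_eq_self]; constructor <;> linarith [c1.1, c1.2]
  have b2 : toIocMod Real.two_pi_pos (-Real.pi) θ' = θ' := by
    rw [toIocMod_eq_self]; constructor <;> linarith [c2.1, c2.2]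
  rwa [b1, b2] at h7

/-- The singular phase points with directions in `Γ`. -/
lemma finite_SP [NeZero n] (hN : ∀ i, i ∉ Y.D) (hΓf : Γ.Finite) :
    {y : ZMod n × ℝ × ℝ | y.2 ∈ Y.Phase y.1 ∧ Y.dir y ∈ Γ ∧ ¬ ∃ y', Y.Hit y y'}.Finite := by
  have h1 : {y : ZMod n × ℝ × ℝ | y.2 ∈ Y.Phase y.1 ∧ Y.dir y ∈ Γ ∧ ¬ ∃ y', Y.Hit y y'} ⊆
      ⋃ i : ZMod n, ⋃ g ∈ Γ, {y : ZMod n × ℝ × ℝ | y.1 = i ∧ y.2 ∈ Y.Phase y.1 ∧ Y.dir y = g ∧
        ¬ ∃ y', Y.Hit y y'} := by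
    rintro y ⟨h1, h2, h3⟩
    exact Set.mem_iUnion.2 ⟨y.1, Set.mem_iUnion₂.2 ⟨Y.dir y, h2, rfl, h1, rfl, h3⟩⟩
  apply (Set.finite_iUnion fun i => hΓf.biUnion fun g _ => ?_).subset h1
  -- a fixed component and a fixed direction
  by_cases hne : ∃ y₀ : ZMod n × ℝ × ℝ, y₀.1 = i ∧ y₀.2 ∈ Y.Phase y₀.1 ∧ Y.dir y₀ = g
  swap
  · convert Set.finite_empty
    ext y
    simp only [Set.mem_ofPred_eq, Set.mem_empty_iff_false, iff_false]
    rintro ⟨h2, h3, h4, -⟩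
    exact hne ⟨y, h2, h3, h4⟩
  obtain ⟨y₀, e1, e2, e3⟩ := hne
  have h2 := (hg.finite_sing hN i y₀.2.2).image (fun s : ℝ => (i, (s, y₀.2.2)))
  apply h2.subset
  rintro y ⟨h3, h4, h5, h6⟩
  have h7 := hg.angle_unique hN h4 e2 (h3.trans e1.symm) (h5.trans e3.symm)
  obtain ⟨k, s, θ⟩ := y
  simp only at h3 h4 h5 h6 h7 ⊢
  subst h3
  subst h7
  exact ⟨s, ⟨h4, h6⟩, rfl⟩

omit hg in
lemma finite_sign : ({1, -1} : Set ℝ).Finite := by simp

/-- The gaps which contain a singular ray. -/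
lemma finite_E [NeZero n] (hN : ∀ i, i ∉ Y.D) (hΓf : Γ.Finite) :
    {e : (ZMod n × ℝ × ℝ) × ℝ | Y.GapEnd A Γ e.1 e.2 ∧ ∃ m, Y.GD A e.1 e.2 m ∧
      ∃ x ∈ Ioo 0 m, ¬ ∃ y, Y.Hit (sh e.1 (e.2 * x)) y}.Finite := by
  set E : Set ((ZMod n × ℝ × ℝ) × ℝ) := {e | Y.GapEnd A Γ e.1 e.2 ∧ ∃ m, Y.GD A e.1 e.2 m ∧
      ∃ x ∈ Ioo 0 m, ¬ ∃ y, Y.Hit (sh e.1 (e.2 * x)) y} with hE
  have key : ∀ e ∈ E, ∃ q : (ZMod n × ℝ × ℝ) × ℝ, (q.1.2 ∈ Y.Phase q.1.1 ∧ Y.dir q.1 ∈ Γ ∧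
      ¬ ∃ y', Y.Hit q.1 y') ∧ q.2 ∈ ({1, -1} : Set ℝ) ∧ q.2 = e.2 ∧
      ∃ m, Y.GD A e.1 e.2 m ∧ ∃ x ∈ Ioo 0 m, q.1 = sh e.1 (e.2 * x) := by
    rintro e ⟨h1, m, h2, x, hx, h3⟩
    refine ⟨(sh e.1 (e.2 * x), e.2), ⟨h2.ph x hx, ?_, h3⟩, ?_, rfl, m, h2, x, hx, rfl⟩
    · rw [hg.dir_sh hN]; exact h1.dir
    · simp only [Set.mem_insert_iff, Set.mem_singleton_iff]; exact h1.hσ
  choose! f hf using key
  apply Set.Finite.of_injOn (f := f) (t := {y : ZMod n × ℝ × ℝ | y.2 ∈ Y.Phase y.1 ∧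
      Y.dir y ∈ Γ ∧ ¬ ∃ y', Y.Hit y y'} ×ˢ ({1, -1} : Set ℝ))
  · intro e he
    obtain ⟨h1, h2, -⟩ := hf e he
    exact ⟨h1, h2⟩
  · intro e he e' he' hee
    obtain ⟨-, -, h3, m, hm, x, hx, h4⟩ := hf e he
    obtain ⟨-, -, h3', m', hm', x', hx', h4'⟩ := hf e' he'
    rw [← hee] at h3' h4'
    have h5 : e.2 = e'.2 := by rw [← h3, ← h3']
    have h6 : sh e.1 (e.2 * x) = sh e'.1 (e.2 * x') := by rw [← h4, h4', h5]
    have h7 : e.1.1 = e'.1.1 := congrArg (fun q => q.1) h6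
    have h8 : e.1.2.2 = e'.1.2.2 := congrArg (fun q => q.2.2) h6
    have h9 : e.1 = e'.1 := by
      apply hg.gap_sep hm.dead (h5 ▸ hm'.dead) he.1 (h5 ▸ he'.1) h7 h8 ⟨hx.1.le, hx.2⟩
        ⟨hx'.1.le, hx'.2⟩ h6
    exact Prod.ext h9 h5
  · exact (hg.finite_SP hN hΓf).prod finite_sign

/-- There are finitely many gaps of a given minimal width. -/
lemma finite_wide [NeZero n] (hN : ∀ i, i ∉ Y.D) (hΓf : Γ.Finite) {m : ℝ} (hm : 0 < m) :
    {e : (ZMod n × ℝ × ℝ) × ℝ | Y.GapEnd A Γ e.1 e.2 ∧ Y.GD A e.1 e.2 m}.Finite := by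
  obtain ⟨M, hM⟩ : ∃ M : ℝ, ∀ i, Y.len i ≤ M := by
    refine ⟨∑ i, |Y.len i|, fun i => ?_⟩
    exact (le_abs_self _).trans (Finset.single_le_sum (f := fun i => |Y.len i|)
      (fun i _ => abs_nonneg _) (Finset.mem_univ i))
  have hfin : (Set.univ : Set (ZMod n)).Finite := Set.finite_univ
  apply Set.Finite.of_injOn (f := fun e : (ZMod n × ℝ × ℝ) × ℝ =>
    ((e.1.1, Y.dir e.1), (e.2, ⌊e.1.2.1 * Real.sin e.1.2.2 / m⌋)))
    (t := ((Set.univ : Set (ZMod n)) ×ˢ Γ) ×ˢ (({1, -1} : Set ℝ) ×ˢ (Set.Icc 0 ⌊M / m⌋)))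
  · rintro e ⟨h1, -⟩
    have s1 := hg.sin_pos_of_phase h1.ph
    refine ⟨⟨Set.mem_univ _, h1.dir⟩, ?_, ?_, ?_⟩
    · simp only [Set.mem_insert_iff, Set.mem_singleton_iff]; exact h1.hσ
    · apply Int.floor_nonneg.2
      have := h1.ph.1.1
      positivity
    · apply Int.floor_le_floor
      apply div_le_div_of_nonneg_right _ hm.le
      have h2 := h1.ph.1
      have h3 := Real.sin_le_one e.1.2.2
      have h4 := hM e.1.1
      nlinarith [h2.1, h2.2]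
  · rintro e ⟨h1, h2⟩ e' ⟨h1', h2'⟩ hee
    simp only [Prod.mk.injEq] at hee
    obtain ⟨⟨a1, a2⟩, a3, a4⟩ := hee
    have a5 := hg.angle_unique hN h1.ph h1'.ph a1 a2
    have s1 := hg.sin_pos_of_phase h1.ph
    have a6 : |e.1.2.1 * Real.sin e.1.2.2 / m - e'.1.2.1 * Real.sin e'.1.2.2 / m| < 1 :=
      Int.abs_sub_lt_one_of_floor_eq_floor a4
    have a7 : |(e'.1.2.1 - e.1.2.1) * Real.sin e.1.2.2| < m := by
      rw [← a5] at a6
      have e1 : e.1.2.1 * Real.sin e.1.2.2 / m - e'.1.2.1 * Real.sin e.1.2.2 / m =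
          -((e'.1.2.1 - e.1.2.1) * Real.sin e.1.2.2) / m := by ring
      rw [e1, abs_div, abs_neg, abs_of_pos hm, div_lt_one hm] at a6
      exact a6
    set δ := (e'.1.2.1 - e.1.2.1) * Real.sin e.1.2.2 with hδ
    have a8 : e'.1 = sh e.1 δ := by
      obtain ⟨⟨i, s, θ⟩, σ⟩ := e
      obtain ⟨⟨i', s', θ'⟩, σ'⟩ := e'
      simp only at a1 a5 s1 hδ ⊢
      subst a1
      subst a5
      simp only [sh, hδ]
      congr 2
      field_simp
      ring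
    have h9 : e.1 = e'.1 := by
      rcases h1.hσ with hσ | hσ
      · rcases le_total 0 δ with h | h
        · apply hg.gap_sep h2.dead (a3 ▸ h2'.dead) h1 (a3 ▸ h1') a1 a5 (x := δ) (x' := 0)
            ⟨h, (le_abs_self _).trans_lt a7⟩ ⟨le_rfl, hm⟩
          rw [hσ, mul_zero, sh_zero, one_mul, a8]
        · apply hg.gap_sep h2.dead (a3 ▸ h2'.dead) h1 (a3 ▸ h1') a1 a5 (x := 0) (x' := -δ)
            ⟨le_rfl, hm⟩ ⟨by linarith, (neg_le_abs _).trans_lt a7⟩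
          rw [hσ, mul_zero, sh_zero, one_mul, a8, sh_sh, add_neg_cancel, sh_zero]
      · rcases le_total 0 δ with h | h
        · apply hg.gap_sep h2.dead (a3 ▸ h2'.dead) h1 (a3 ▸ h1') a1 a5 (x := 0) (x' := δ)
            ⟨le_rfl, hm⟩ ⟨h, (le_abs_self _).trans_lt a7⟩
          rw [hσ, mul_zero, sh_zero, a8, sh_sh]
          rw [show δ + -1 * δ = 0 by ring, sh_zero]
        · apply hg.gap_sep h2.dead (a3 ▸ h2'.dead) h1 (a3 ▸ h1') a1 a5 (x := -δ) (x' := 0)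
            ⟨by linarith, (neg_le_abs _).trans_lt a7⟩ ⟨le_rfl, hm⟩
          rw [hσ, mul_zero, sh_zero, a8]
          congr 1
          ring
    exact Prod.ext h9 a3
  · exact (hfin.prod hΓf).prod (finite_sign.prod (Set.finite_Icc _ _))

/-- The gap lemma. -/
theorem no_gap [NeZero n] (hN : ∀ i, i ∉ Y.D) (hΓf : Γ.Finite)
    (hΓ : ∀ z z', Y.KK A z → Y.dir z ∈ Γ → Y.Hit z z' → Y.dir z' ∈ Γ)
    {z : ZMod n × ℝ × ℝ} {σ : ℝ} (hG : Y.GapEnd A Γ z σ) : False := by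
  -- the orbit
  have hnxt : ∀ e : {e : (ZMod n × ℝ × ℝ) × ℝ // Y.GapEnd A Γ e.1 e.2},
      ∃ e' : {e : (ZMod n × ℝ × ℝ) × ℝ // Y.GapEnd A Γ e.1 e.2},
        Y.Hit e.1.1 e'.1.1 ∧ e'.1.2 = -e.1.2 := by
    rintro ⟨e, he⟩
    obtain ⟨z', hz'⟩ := hg.hit_of_not_FS hN he.ph he.nFS
    exact ⟨⟨(z', -e.2), hg.gap_step hN hΓ he hz'⟩, hz', rfl⟩
  choose nxt hnxt1 hnxt2 using hnxt
  set sq : ℕ → {e : (ZMod n × ℝ × ℝ) × ℝ // Y.GapEnd A Γ e.1 e.2} :=
    fun k => nxt^[k] ⟨(z, σ), hG⟩ with hsq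
  have hs1 : ∀ k, Y.Hit (sq k).1.1 (sq (k + 1)).1.1 := by
    intro k
    rw [hsq]
    simp only [Function.iterate_succ_apply']
    exact hnxt1 _
  have hs2 : ∀ k, (sq (k + 1)).1.2 = -(sq k).1.2 := by
    intro k
    rw [hsq]
    simp only [Function.iterate_succ_apply']
    exact hnxt2 _
  -- the width
  obtain ⟨m0, hm0, hGD0⟩ := hg.exists_GD hG
  set E : Set ((ZMod n × ℝ × ℝ) × ℝ) := {e | Y.GapEnd A Γ e.1 e.2 ∧ ∃ m, Y.GD A e.1 e.2 m ∧
      ∃ x ∈ Ioo 0 m, ¬ ∃ y, Y.Hit (sh e.1 (e.2 * x)) y} with hE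
  have hEf : E.Finite := hg.finite_E hN hΓf
  have hre : ∀ e ∈ E, ∃ r, 0 < r ∧ ∀ z', Y.Hit e.1 z' → Y.GD A z' (-e.2) r := by
    intro e he
    obtain ⟨z', hz'⟩ := hg.hit_of_not_FS hN he.1.ph he.1.nFS
    obtain ⟨r, hr, h1⟩ := hg.exists_GD (hg.gap_step hN hΓ he.1 hz')
    refine ⟨r, hr, fun z'' h2 => ?_⟩
    rwa [hg.hit_unique' h2 hz']
  choose! r hr0 hr using hre
  obtain ⟨m, hm, hmm0, hmr⟩ : ∃ m, 0 < m ∧ m ≤ m0 ∧ ∀ e ∈ E, m ≤ r e := by
    obtain ⟨m1, hm1, h1⟩ : ∃ m1, 0 < m1 ∧ ∀ e ∈ E, m1 ≤ r e := by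
      rcases E.eq_empty_or_nonempty with h | h
      · exact ⟨1, one_pos, fun e he => by rw [h] at he; exact absurd he (Set.notMem_empty _)⟩
      · obtain ⟨e₀, he₀, hmin⟩ := Set.exists_min_image E r hEf h
        exact ⟨r e₀, hr0 e₀ he₀, hmin⟩
    exact ⟨min m0 m1, lt_min hm0 hm1, min_le_left _ _, fun e he => (min_le_right _ _).trans (h1 e he)⟩
  have hwide : ∀ k, Y.GD A (sq k).1.1 (sq k).1.2 m := by
    intro k
    induction k with
    | zero => exact hGD0.mono hmm0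
    | succ k ih =>
      by_cases hsing : ∃ x ∈ Ioo 0 m, ¬ ∃ y, Y.Hit (sh (sq k).1.1 ((sq k).1.2 * x)) y
      · have he : (sq k).1 ∈ E := ⟨(sq k).2, m, ih, hsing⟩
        have h1 := hr _ he _ (hs1 k)
        rw [← hs2 k] at h1
        exact h1.mono (hmr _ he)
      · push Not at hsing
        have h0 : ∀ x ∈ Ico 0 m, ∃ y, Y.Hit (sh (sq k).1.1 ((sq k).1.2 * x)) y := by
          intro x hx
          rcases hx.1.eq_or_lt with h | h
          · rw [← h, mul_zero, sh_zero]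
            exact ⟨_, hs1 k⟩
          · exact hsing x ⟨h, hx.2⟩
        have h1 := hg.hit_seg hN (hs1 k) h0
        refine ⟨?_, ?_⟩
        · filter_upwards [ih.dead] with x hx hx2
          have h2 := h1 x ⟨hx2.1.le, hx2.2⟩
          rw [hs2 k, neg_mul, ← hg.K_iff h2]
          exact hx hx2
        · intro x hx
          have h2 := h1 x ⟨hx.1.le, hx.2⟩
          rw [hs2 k, neg_mul]
          exact h2.2.1
  -- periodicity
  have hfin := hg.finite_wide (A := A) hN hΓf hm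
  have hmap : ∀ k, (sq k).1 ∈ {e : (ZMod n × ℝ × ℝ) × ℝ | Y.GapEnd A Γ e.1 e.2 ∧
      Y.GD A e.1 e.2 m} := fun k => ⟨(sq k).2, hwide k⟩
  have : Finite {e : (ZMod n × ℝ × ℝ) × ℝ | Y.GapEnd A Γ e.1 e.2 ∧ Y.GD A e.1 e.2 m} := hfin
  obtain ⟨a, b, hab, hsab⟩ := Finite.exists_ne_map_eq_of_infinite
    (fun k : ℕ => (⟨(sq k).1, hmap k⟩ : {e : (ZMod n × ℝ × ℝ) × ℝ | Y.GapEnd A Γ e.1 e.2 ∧
      Y.GD A e.1 e.2 m}))
  have hsab' : (sq a).1 = (sq b).1 := (Subtype.mk.injEq _ _ _ _).mp hsab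
  obtain ⟨a, p, hp, hper⟩ : ∃ a p : ℕ, 0 < p ∧ (sq (a + p)).1 = (sq a).1 := by
    rcases lt_or_gt_of_ne hab with h | h
    · exact ⟨a, b - a, by omega, by rw [Nat.add_sub_cancel' h.le]; exact hsab'.symm⟩
    · exact ⟨b, a - b, by omega, by rw [Nat.add_sub_cancel' h.le]; exact hsab'⟩
  have hsgn : ∀ k, (sq (a + k)).1.2 = (-1) ^ k * (sq a).1.2 := by
    intro k
    induction k with
    | zero => simp
    | succ k ih => rw [← add_assoc, hs2, ih, pow_succ]; ring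
  have hpow : (-1 : ℝ) ^ p = 1 := by
    have h1 := hsgn p
    rw [hper] at h1
    have h2 : (sq a).1.2 ≠ 0 := by
      rcases (sq a).2.hσ with h | h <;> rw [h] <;> norm_num
    have h3 : ((-1 : ℝ) ^ p - 1) * (sq a).1.2 = 0 := by linarith
    have := (mul_eq_zero.1 h3).resolve_right h2
    linarith
  have hit : ∀ k, ∀ᶠ δ : ℝ in 𝓝 0, Y.It A k (sh (sq a).1.1 δ)
      (sh (sq (a + k)).1.1 ((-1) ^ k * δ)) := by
    intro k
    induction k with
    | zero =>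
      apply Eventually.of_forall
      intro δ
      refine ⟨by simp, (sq a).2.hA⟩
    | succ k ih =>
      have h1 : Tendsto (fun δ : ℝ => (-1) ^ k * δ) (𝓝 0) (𝓝 0) := by
        have : Continuous fun δ : ℝ => (-1 : ℝ) ^ k * δ := by fun_prop
        have := this.tendsto 0
        simpa using this
      filter_upwards [ih, h1.eventually (hg.hit_sh hN (hs1 (a + k)))] with δ h2 h3
      refine ⟨_, h2, ?_, (sq (a + (k + 1))).2.hA⟩
      have e1 : (-1 : ℝ) ^ (k + 1) * δ = -((-1) ^ k * δ) := by rw [pow_succ]; ring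
      rw [e1]
      exact h3
  have hall : ∀ᶠ δ : ℝ in 𝓝 0, Y.KK A (sh (sq a).1.1 δ) := by
    filter_upwards [hit p, hit 1, hg.hit_sh hN (hs1 a)] with δ h1 _ h3
    rw [hpow, one_mul, hper] at h1
    exact hg.K_of_periodic hp h3.1 h1
  obtain ⟨ε, hε, hεK⟩ := Metric.eventually_nhds_iff.1 hall
  obtain ⟨ρ, hρ, hd⟩ := (sq a).2.dead
  have h1 : volume (Ioo 0 (min ρ ε)) = 0 := by
    rw [measure_eq_zero_iff_ae_notMem]
    filter_upwards [hd] with x hx hx2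
    refine hx ⟨hx2.1, hx2.2.trans_le (min_le_left _ _)⟩ (hεK ?_)
    rw [Real.dist_eq, sub_zero, abs_mul]
    have : |(sq a).1.2| = 1 := by rcases (sq a).2.hσ with h | h <;> rw [h] <;> simp
    rw [this, one_mul, abs_of_pos hx2.1]
    exact hx2.2.trans_le (min_le_right _ _)
  rw [Real.volume_Ioo, sub_zero, ENNReal.ofReal_eq_zero] at h1
  have := lt_min hρ hε
  linarith

end SG

end Pool.Agent.Lib.MP_19d7db_an
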