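import Pool.Agent.Lib.MP_19d7db_an_F.Exit

/-!
# Billiards in simple polygons: the global argument
-/

open Complex Set Filter Topology MeasureTheory
open scoped ENNReal

namespace Pool.Agent.Lib.MP_19d7db_an

variable {n : ℕ}

/-- The thin triangle over the side `k`, without the side. -/
def Dom.Tri (Y : Dom n) (η : ℝ) (k : ZMod n) : Set ℂ :=
  {x | ∃ a h, InT Y.toTable η k x a h ∧ 0 < h}

/-- A unit complex number different from `1` has an argument strictly between `0` and `2π`. -/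
lemma exists_angle {ζ : ℂ} (h1 : ‖ζ‖ = 1) (h2 : ζ ≠ 1) :
    ∃ α : ℝ, 0 < α ∧ α < 2 * Real.pi ∧ exp (I * α) = ζ := by
  have h3 := Complex.norm_mul_exp_arg_mul_I ζ
  rw [h1, ofReal_one, one_mul] at h3
  have hpi := Real.pi_pos
  rcases lt_trichotomy (Complex.arg ζ) 0 with h | h | h
  · refine ⟨Complex.arg ζ + 2 * Real.pi, ?_, by linarith, ?_⟩
    · linarith [Complex.neg_pi_lt_arg ζ]
    · conv_rhs => rw [← h3]
      rw [Complex.exp_eq_exp_iff_exists_int]
      exact ⟨1, by push_cast; ring⟩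
  · exfalso
    apply h2
    rw [← h3, h]
    simp
  · refine ⟨Complex.arg ζ, h, ?_, ?_⟩
    · linarith [Complex.arg_le_pi ζ]
    · conv_rhs => rw [← h3]
      rw [mul_comm]

lemma exp_ne_one {φ : ℝ} (h0 : 0 < φ) (h1 : φ < 2 * Real.pi) : exp (I * (φ : ℂ)) ≠ 1 := by
  intro h
  rw [Complex.exp_eq_one_iff] at h
  obtain ⟨k, hk⟩ := h
  have h2 : φ = k * (2 * Real.pi) := by
    have := congrArg Complex.im hk
    simpa using this
  have hpi := Real.two_pi_pos
  have h3 : 0 < (k : ℝ) := by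
    by_contra hcon
    push Not at hcon
    nlinarith
  have h4 : (k : ℝ) < 1 := by
    by_contra hcon
    push Not at hcon
    nlinarith
  have h5 : (0 : ℤ) < k := by exact_mod_cast h3
  have h6 : k < (1 : ℤ) := by exact_mod_cast h4
  omega

namespace SG

variable {Y : Dom n} {C η : ℝ} (hg : SG Y C η) {A : Set (ZMod n)} {Γ : Set ℂ}

include hg

lemma tri_sub (k : ZMod n) : Y.Tri η k ⊆ Y.Ω := by
  rintro x ⟨a, h, hT, hh⟩
  exact hg.tri_mem hT hh

omit hg in
lemma tri_pre (k : ZMod n) : IsPreconnected (Y.Tri η k) := by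
  have hconv : Convex ℝ (Y.Tri η k) := by
    rintro x ⟨a, h, hx, hh⟩ y ⟨b, h', hy, hh'⟩ s t hs ht hst
    refine ⟨s * a + t * b, s * h + t * h', ⟨?_, ?_, ?_, ?_, ?_, ?_⟩, ?_⟩
    · have := hx.a0; have := hy.a0; positivity
    · have := hx.a1; have := hy.a1; nlinarith
    · have := hx.h0; have := hy.h0; positivity
    · have := mul_le_mul_of_nonneg_left hx.ha hs
      have := mul_le_mul_of_nonneg_left hy.ha ht
      linarith
    · have := mul_le_mul_of_nonneg_left hx.hb hs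
      have := mul_le_mul_of_nonneg_left hy.hb ht
      have : η * (1 - (s * a + t * b)) = s * (η * (1 - a)) + t * (η * (1 - b)) := by
        linear_combination (-η) * hst
      linarith
    · rw [hx.hx, hy.hx]
      simp only [Complex.real_smul]
      have hst' : (s : ℂ) + (t : ℂ) = 1 := by exact_mod_cast hst
      push_cast
      linear_combination (Y.p k) * hst'
    · rcases hs.eq_or_lt with h1 | h1
      · have h2 : t = 1 := by linarith
        rw [← h1, h2]; linarith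
      · have := mul_pos h1 hh
        have := mul_nonneg ht hh'.le
        linarith
  exact hconv.isPreconnected

/-- The thin triangles over adjacent sides are connected inside the polygon. -/
lemma exists_sector [NeZero n] (k : ZMod n) : ∃ S : Set ℂ, IsPreconnected S ∧ S ⊆ Y.Ω ∧
    (S ∩ Y.Tri η k).Nonempty ∧ (S ∩ Y.Tri η (k + 1)).Nonempty := by
  have hη := hg.hη
  have hη1 := hg.hη1
  have hℓ := hg.ell_pos k
  have hℓ' := hg.ell_pos (k + 1)
  have hℓc : (Y.ℓ k : ℂ) ≠ 0 := by exact_mod_cast hℓ.ne'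
  have hℓc' : (Y.ℓ (k + 1) : ℂ) ≠ 0 := by exact_mod_cast hℓ'.ne'
  have hT := hg.T_ne k
  have hT' := hg.T_ne (k + 1)
  have hnT := hg.norm_unit k
  have hnT' := hg.norm_unit (k + 1)
  set T := Y.e k / Y.ℓ k with hTd
  set T' := Y.e (k + 1) / Y.ℓ (k + 1) with hTd'
  have he : Y.e k = (Y.ℓ k : ℂ) * T := by rw [hTd]; field_simp
  have he' : Y.e (k + 1) = (Y.ℓ (k + 1) : ℂ) * T' := by rw [hTd']; field_simp
  have hV : Y.p (k + 1) = Y.p k + Y.e k := p_succ k
  -- the interior angle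
  set ζ := -T / T' with hζ
  have hζT : ζ * T' = -T := by rw [hζ, div_mul_cancel₀ _ hT']
  have hζ1 : ‖ζ‖ = 1 := by rw [hζ, norm_div, norm_neg, hnT, hnT', div_one]
  have hζ2 : ζ ≠ 1 := by
    intro h
    rw [h, one_mul] at hζT
    have h1 : Y.e (k + 1) = ((-(Y.ℓ (k + 1) / Y.ℓ k) : ℝ) : ℂ) * Y.e k := by
      rw [he', hζT, he]; push_cast; field_simp
    have h2 : cr (Y.e k) (Y.e (k + 1)) = 0 := by rw [h1, cr_smul_right, cr_self, mul_zero]
    have h3 : dt (Y.e k) (Y.e (k + 1)) < 0 := by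
      rw [h1, dt_smul_right, dt_self, ← Table.ℓ]
      have : 0 < Y.ℓ (k + 1) / Y.ℓ k * Y.ℓ k ^ 2 := by positivity
      linarith
    rcases hg.adj k with h4 | ⟨-, h4⟩
    · rw [h2, abs_zero] at h4
      have := hg.C_pos
      nlinarith [mul_pos this hη]
    · linarith
  obtain ⟨α, hα0, hα1, hα⟩ := exists_angle hζ1 hζ2
  -- the other sides
  have hfar : ∀ j, j ≠ k → j ≠ k + 1 → Y.p (k + 1) ∉ segment ℝ (Y.p j) (Y.p (j + 1)) := by
    intro j h1 h2 h3
    have h4 : Y.p (k + 1) ∈ segment ℝ (Y.p (k + 1)) (Y.p (k + 1 + 1)) := left_mem_segment ℝ _ _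
    rcases hg.dom.simple j (k + 1) h2 _ h3 h4 with ⟨h5, -⟩ | ⟨h5, h6⟩
    · exact h1 (add_right_cancel h5).symm
    · rw [h5] at h6
      exact hg.dom.ne (k + 1) h6
  have hfar' : ∀ᶠ y in 𝓝 (Y.p (k + 1)), ∀ j, j ≠ k → j ≠ k + 1 →
      y ∉ segment ℝ (Y.p j) (Y.p (j + 1)) := by
    rw [eventually_all]
    intro j
    by_cases h1 : j = k
    · exact Eventually.of_forall fun y h2 => absurd h1 h2
    by_cases h2 : j = k + 1
    · exact Eventually.of_forall fun y _ h3 => absurd h2 h3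
    filter_upwards [(isCompact_seg _ _).isClosed.isOpen_compl.mem_nhds (hfar j h1 h2)] with y hy _ _
    exact hy
  obtain ⟨r0, hr0, hball⟩ := Metric.eventually_nhds_iff.1 hfar'
  set F : ℝ × ℝ → ℂ := fun q => Y.p (k + 1) + q.1 * (exp (I * (q.2 : ℂ)) * T') with hF
  set S : Set ℂ := F '' (Ioo 0 r0 ×ˢ Ioo 0 α) with hS
  have hSpre : IsPreconnected S :=
    (isPreconnected_Ioo.prod isPreconnected_Ioo).image _ (by rw [hF]; fun_prop)
  have hSf : ∀ x ∈ S, x ∉ frontier Y.Ω := by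
    rintro x ⟨⟨r, φ⟩, ⟨⟨hr1, hr2⟩, hφ1, hφ2⟩, rfl⟩ hfr
    simp only at hr1 hr2 hφ1 hφ2
    rw [hg.dom.front] at hfr
    obtain ⟨j, hj⟩ := Set.mem_iUnion.1 hfr
    have hexp : ‖exp (I * (φ : ℂ))‖ = 1 := by
      rw [mul_comm, Complex.norm_exp_ofReal_mul_I]
    have hd : dist (F (r, φ)) (Y.p (k + 1)) < r0 := by
      rw [dist_eq_norm]
      simp only [hF, add_sub_cancel_left]
      rw [norm_mul, norm_mul, hexp, hnT', Complex.norm_real, Real.norm_eq_abs, abs_of_pos hr1]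
      linarith
    have h1 := hball hd j
    by_cases hjk : j = k
    · subst hjk
      rw [segment_eq_image'] at hj
      obtain ⟨b, ⟨hb0, hb1⟩, hb⟩ := hj
      simp only [hF, Complex.real_smul] at hb
      rw [hV] at hb
      have e1 : Y.p j + Y.e j - Y.p j = Y.e j := by ring
      rw [e1, he] at hb
      have h2 : ((r : ℂ)) * exp (I * (φ : ℂ)) = (((1 - b) * Y.ℓ j : ℝ) : ℂ) * exp (I * (α : ℂ)) := by
        have h3 : (r : ℂ) * exp (I * (φ : ℂ)) * T' =
            (((1 - b) * Y.ℓ j : ℝ) : ℂ) * exp (I * (α : ℂ)) * T' := by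
          rw [hα, mul_assoc (_ : ℂ) ζ T', hζT]
          push_cast
          linear_combination -hb
        exact mul_right_cancel₀ hT' h3
      have hexpα : ‖exp (I * (α : ℂ))‖ = 1 := by
        rw [mul_comm, Complex.norm_exp_ofReal_mul_I]
      have h4 := congrArg norm h2
      rw [norm_mul, norm_mul, hexp, hexpα, Complex.norm_real, Complex.norm_real, Real.norm_eq_abs,
        Real.norm_eq_abs, abs_of_pos hr1, abs_of_nonneg (mul_nonneg (by linarith) hℓ.le),
        mul_one, mul_one] at h4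
      rw [← h4] at h2
      have hrc : (r : ℂ) ≠ 0 := by exact_mod_cast hr1.ne'
      have h5 := mul_left_cancel₀ hrc h2
      have h6 : exp (I * ((α - φ : ℝ) : ℂ)) = 1 := by
        have : I * ((α - φ : ℝ) : ℂ) = I * (α : ℂ) - I * (φ : ℂ) := by push_cast; ring
        rw [this, Complex.exp_sub, h5, div_self (Complex.exp_ne_zero _)]
      exact exp_ne_one (by linarith) (by linarith) h6
    by_cases hjk' : j = k + 1
    · subst hjk'
      rw [segment_eq_image'] at hj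
      obtain ⟨b, ⟨hb0, hb1⟩, hb⟩ := hj
      simp only [hF, Complex.real_smul] at hb
      have e1 : Y.p (k + 1 + 1) - Y.p (k + 1) = Y.e (k + 1) := rfl
      rw [e1, he'] at hb
      have h2 : ((r : ℂ)) * exp (I * (φ : ℂ)) = ((b * Y.ℓ (k + 1) : ℝ) : ℂ) := by
        have h3 : (r : ℂ) * exp (I * (φ : ℂ)) * T' = ((b * Y.ℓ (k + 1) : ℝ) : ℂ) * T' := by
          push_cast
          linear_combination -hb
        exact mul_right_cancel₀ hT' h3
      have h4 := congrArg norm h2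
      rw [norm_mul, hexp, Complex.norm_real, Complex.norm_real, Real.norm_eq_abs,
        Real.norm_eq_abs, abs_of_pos hr1, abs_of_nonneg (mul_nonneg (by linarith) hℓ'.le),
        mul_one] at h4
      rw [← h4] at h2
      have hrc : (r : ℂ) ≠ 0 := by exact_mod_cast hr1.ne'
      have h5 : exp (I * (φ : ℂ)) = 1 := by
        apply mul_left_cancel₀ hrc
        rw [h2, mul_one]
      exact exp_ne_one (by linarith) (by linarith) h5
    · exact h1 hjk hjk' hj
  -- a small angle and a small radius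
  have hφev : ∀ᶠ φ : ℝ in 𝓝[>] 0, Real.sin φ < η * Real.cos φ := by
    have h1 : ContinuousAt (fun φ : ℝ => η * Real.cos φ - Real.sin φ) 0 := by fun_prop
    have h2 : (0 : ℝ) < η * Real.cos 0 - Real.sin 0 := by simp [hη]
    filter_upwards [(h1.eventually (lt_mem_nhds h2)).filter_mono nhdsWithin_le_nhds] with φ h3
    linarith
  have hφev2 : ∀ᶠ φ : ℝ in 𝓝[>] 0, φ < min α 1 :=
    nhdsWithin_le_nhds (Iio_mem_nhds (lt_min hα0 one_pos))
  obtain ⟨φ, ⟨hφ1, hφ2⟩, hφ3⟩ := ((hφev.and hφev2).and self_mem_nhdsWithin).exists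
  have hφ0 : 0 < φ := hφ3
  have hφα : φ < α := hφ2.trans_le (min_le_left _ _)
  have hφ1' : φ < 1 := hφ2.trans_le (min_le_right _ _)
  have hpi := Real.pi_gt_three
  have hsin : 0 < Real.sin φ := Real.sin_pos_of_pos_of_lt_pi hφ0 (by linarith)
  have hsin1 := Real.sin_le_one φ
  have hcos : 0 < Real.cos φ := Real.cos_pos_of_mem_Ioo ⟨by linarith, by linarith⟩
  have hcos1 := Real.cos_le_one φ
  obtain ⟨r, hr, hr1, hr2, hr3⟩ : ∃ r, 0 < r ∧ r < r0 ∧ r ≤ Y.ℓ k * (η / 2) ∧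
      r ≤ Y.ℓ (k + 1) * (η / 2) := by
    refine ⟨min (r0 / 2) (min (Y.ℓ k * (η / 2)) (Y.ℓ (k + 1) * (η / 2))), by positivity, ?_, ?_, ?_⟩
    · exact (min_le_left _ _).trans_lt (by linarith)
    · exact (min_le_right _ _).trans (min_le_left _ _)
    · exact (min_le_right _ _).trans (min_le_right _ _)
  have hexpand : ∀ φ : ℝ, exp (I * (φ : ℂ)) = Real.cos φ + Real.sin φ * I := by
    intro φ
    rw [mul_comm, Complex.exp_mul_I, Complex.ofReal_cos, Complex.ofReal_sin]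
  have hn1 : (S ∩ Y.Tri η k).Nonempty := by
    refine ⟨F (r, α - φ), ⟨(r, α - φ), ⟨⟨hr, hr1⟩, by simp only; linarith, by simp only; linarith⟩,
      rfl⟩, 1 - r / Y.ℓ k * Real.cos φ, r / Y.ℓ k * Real.sin φ, ?_, by positivity⟩
    have hq : r / Y.ℓ k ≤ η / 2 := by
      rw [div_le_iff₀ hℓ]; linarith
    have hq0 : 0 < r / Y.ℓ k := by positivity
    have hqc : r / Y.ℓ k * Real.cos φ ≤ η / 2 := by nlinarith
    have hqs : r / Y.ℓ k * Real.sin φ ≤ η / 2 := by nlinarith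
    refine ⟨by linarith, ?_, by positivity, ?_, ?_, ?_⟩
    · have : 0 < r / Y.ℓ k * Real.cos φ := by positivity
      linarith
    · nlinarith
    · have := mul_le_mul_of_nonneg_left hφ1.le hq0.le
      nlinarith
    · simp only [hF]
      have h1 : exp (I * ((α - φ : ℝ) : ℂ)) * T' = -T * exp (-(I * (φ : ℂ))) := by
        have : I * ((α - φ : ℝ) : ℂ) = I * (α : ℂ) + -(I * (φ : ℂ)) := by push_cast; ring
        rw [this, Complex.exp_add, hα]
        linear_combination (exp (-(I * (φ : ℂ)))) * hζT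
      have h2 : exp (-(I * (φ : ℂ))) = Real.cos φ - Real.sin φ * I := by
        have := hexpand (-φ)
        rw [Real.cos_neg, Real.sin_neg] at this
        push_cast at this ⊢
        rw [show -(I * (φ : ℂ)) = I * -(φ : ℂ) by ring, this]
        ring
      rw [h1, h2, hV, he]
      push_cast
      field_simp
      ring
  have hn2 : (S ∩ Y.Tri η (k + 1)).Nonempty := by
    refine ⟨F (r, φ), ⟨(r, φ), ⟨⟨hr, hr1⟩, hφ0, hφα⟩, rfl⟩,
      r / Y.ℓ (k + 1) * Real.cos φ, r / Y.ℓ (k + 1) * Real.sin φ, ?_, by positivity⟩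
    have hq : r / Y.ℓ (k + 1) ≤ η / 2 := by
      rw [div_le_iff₀ hℓ']; linarith
    have hq0 : 0 < r / Y.ℓ (k + 1) := by positivity
    have hqc : r / Y.ℓ (k + 1) * Real.cos φ ≤ η / 2 := by nlinarith
    have hqs : r / Y.ℓ (k + 1) * Real.sin φ ≤ η / 2 := by nlinarith
    refine ⟨by positivity, by linarith, by positivity, ?_, ?_, ?_⟩
    · have := mul_le_mul_of_nonneg_left hφ1.le hq0.le
      nlinarith
    · nlinarith
    · simp only [hF]
      rw [hexpand, he']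
      push_cast
      field_simp
  have hsub : S ⊆ Y.Ω := by
    have hoc : IsOpen (closure Y.Ω)ᶜ := isClosed_closure.isOpen_compl
    refine IsPreconnected.subset_left_of_subset_union hg.dom.isOpen hoc ?_ ?_ ?_ hSpre
    · rw [Set.disjoint_left]
      exact fun x h1 h2 => h2 (subset_closure h1)
    · intro y hy
      by_cases h4 : y ∈ Y.Ω
      · exact Or.inl h4
      · refine Or.inr fun hcl => hSf y hy ⟨hcl, ?_⟩
        rwa [hg.dom.isOpen.interior_eq]
    · obtain ⟨x, h1, h2⟩ := hn1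
      exact ⟨x, h1, hg.tri_sub k h2⟩
  exact ⟨S, hSpre, hsub, hn1, hn2⟩

omit hg in
lemma Bd_neg {v : ℂ} (h : -v ∈ Y.Bd) : v ∈ Y.Bd := by
  obtain ⟨h1, x, hx, y, hy, t, ht, hxy⟩ := h
  refine ⟨by rwa [norm_neg] at h1, y, hy, x, hx, t, ht, ?_⟩
  linear_combination -hxy

/-- The point of the thin triangle over `k` near the middle of the side has its exit on `k` in
the directions which point to the side. -/
lemma exists_tri_Ex [NeZero n] (hN : ∀ i, i ∉ Y.D) {v : ℂ} (hv : ‖v‖ = 1) {k : ZMod n}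
    (hc : cr (Y.e k) v < 0) : ∃ x ∈ Y.Tri η k, Y.Ex v x k := by
  have hη := hg.hη
  have hℓ := hg.ell_pos k
  have hlen := hg.len_pos k
  have hs : Y.len k / 2 ∈ Ioo 0 (Y.len k) := ⟨by linarith, by linarith⟩
  have n1 : ∀ w : ℂ, cr w (-v) = -cr w v := by
    intro w; simp only [cr, neg_re, neg_im]; ring
  have hv' : ‖-v‖ = 1 := by rw [norm_neg, hv]
  have hph : (Y.em (-v) k (Y.len k / 2)).2 ∈ Y.Phase k :=
    hg.phase_em (by rw [n1]; linarith) hs
  have h1 := hg.inside_near hph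
  have hd : Y.dir (k, (Y.em (-v) k (Y.len k / 2)).2) = -v := hg.dir_em hN hv' k _
  rw [hd] at h1
  simp only [Dom.em] at h1
  obtain ⟨ε, hε, h2⟩ := mem_nhdsGT_iff_exists_Ioo_subset.1 h1
  have hε0 : 0 < ε := hε
  -- the frame coordinates
  set q := Y.pos k (Y.len k / 2) with hq
  have hqp : q = Y.p k + ((1 / 2 : ℝ) : ℂ) * Y.e k := by
    rw [hq, Y.pos_N (hN k), Y.len_N (hN k)]
    have : (Y.ℓ k : ℂ) ≠ 0 := by exact_mod_cast hℓ.ne'
    push_cast
    field_simp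
  set ca : ℝ → ℝ := fun t => 1 / 2 + t * (dt (Y.e k) (-v) / Y.ℓ k ^ 2) with hca
  set ch : ℝ → ℝ := fun t => t * (-cr (Y.e k) v / Y.ℓ k ^ 2) with hch
  have hcoord : ∀ t : ℝ, q + t * -v = Y.p k + ((ca t : ℂ) + (ch t : ℂ) * I) * Y.e k := by
    intro t
    have h3 := exists_frame (Y := Y) hℓ (Y.p k + -v)
    have e1 : Y.p k + -v - Y.p k = -v := by ring
    have e2 : Y.f k (Y.p k + -v) = -cr (Y.e k) v := by
      rw [Table.f, e1, n1]
    rw [e1, e2] at h3
    have h4 : -v = (((dt (Y.e k) (-v) / Y.ℓ k ^ 2 : ℝ) : ℂ) +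
        ((-cr (Y.e k) v / Y.ℓ k ^ 2 : ℝ) : ℂ) * I) * Y.e k := by
      linear_combination h3
    have h5 : ((ca t : ℝ) : ℂ) = ((1 / 2 : ℝ) : ℂ) + t * ((dt (Y.e k) (-v) / Y.ℓ k ^ 2 : ℝ) : ℂ) := by
      simp only [hca]; push_cast; ring
    have h6 : ((ch t : ℝ) : ℂ) = t * ((-cr (Y.e k) v / Y.ℓ k ^ 2 : ℝ) : ℂ) := by
      simp only [hch]; push_cast; ring
    rw [h5, h6, hqp]
    linear_combination (t : ℂ) * h4
  have e1 : ∀ᶠ t : ℝ in 𝓝[>] 0, InT Y.toTable η k (q + t * -v) (ca t) (ch t) ∧ 0 < ch t := by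
    have c1 : ContinuousAt ca 0 := by simp only [hca]; fun_prop
    have c2 : ContinuousAt ch 0 := by simp only [hch]; fun_prop
    have c3 : ca 0 = 1 / 2 := by simp [hca]
    have c4 : ch 0 = 0 := by simp [hch]
    have d1 : ∀ᶠ t in 𝓝 (0 : ℝ), ca t ∈ Ioo (1 / 4 : ℝ) (3 / 4) := by
      apply c1.eventually
      rw [c3]
      exact isOpen_Ioo.mem_nhds ⟨by norm_num, by norm_num⟩
    have d2 : ∀ᶠ t in 𝓝 (0 : ℝ), ch t < η / 4 := by
      have c5 : ∀ᶠ y in 𝓝 (ch 0), y < η / 4 := by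
        rw [c4]
        exact Iio_mem_nhds (by positivity)
      exact c2.eventually c5
    filter_upwards [d1.filter_mono nhdsWithin_le_nhds, d2.filter_mono nhdsWithin_le_nhds,
      self_mem_nhdsWithin] with t a1 a2 a3
    have a4 : 0 < t := a3
    have a5 : 0 < ch t := by
      simp only [hch]
      have : 0 < -cr (Y.e k) v := by linarith
      positivity
    exact ⟨⟨by linarith [a1.1], by linarith [a1.2], a5.le, by nlinarith [a1.1],
      by nlinarith [a1.2], hcoord t⟩, a5⟩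
  obtain ⟨t, ⟨h3, h4⟩, h5⟩ := (e1.and (Ioo_mem_nhdsGT hε0)).exists
  refine ⟨q + t * -v, ⟨_, _, h3, h4⟩, Y.len k / 2, hs, t, h5.1, by rw [← hq]; ring, ?_⟩
  intro u hu
  have h6 : q + t * -v + u * v = q + ((t - u : ℝ) : ℂ) * -v := by push_cast; ring
  rw [h6]
  exact (h2 ⟨by linarith [hu.2], by linarith [hu.1, h5.2]⟩).1

/-- The slices of the set of the orbits which avoid the absorbing sides are null. -/
theorem slice_null [NeZero n] (hN : ∀ i, i ∉ Y.D) (hΓf : Γ.Finite)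
    (hΓ : ∀ z z', Y.KK A z → Y.dir z ∈ Γ → Y.Hit z z' → Y.dir z' ∈ Γ)
    (hΓr : ∀ z, Y.KK A z → Y.dir z ∈ Γ → Y.dir (rev z) ∈ Γ)
    (hΓn : ∀ v ∈ Γ, -v ∈ Γ) (hA : A.Nonempty)
    {v : ℂ} (hv : ‖v‖ = 1) (hvΓ : v ∈ Γ) (hB : v ∉ Y.Bd) (hpar : ∀ i, cr (Y.e i) v ≠ 0)
    (i : ZMod n) : ∀ᵐ s : ℝ, ¬ Y.KK A (Y.em v i s) := by
  have n1 : ∀ w : ℂ, cr w (-v) = -cr w v := by
    intro w; simp only [cr, neg_re, neg_im]; ring
  have hv' : ‖-v‖ = 1 := by rw [norm_neg, hv]
  have hB' : -v ∉ Y.Bd := fun h => hB (Bd_neg h)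
  -- incoming side
  rcases lt_or_gt_of_ne (hpar i) with hc | hc
  · apply Eventually.of_forall
    intro s hK
    have h1 := hK.1
    have h2 := hg.cr_tan_dir i (Y.em v i s).2
    have h3 := hg.sin_pos_of_phase (i := i) h1
    rw [hg.tan_N (hN i)] at h2
    have h4 : Y.dir (i, (Y.em v i s).2) = v := hg.dir_em hN hv i s
    rw [h4] at h2
    rw [hg.cr_e_T, h2] at hc
    have := hg.ell_pos i
    nlinarith
  set A1 : Set ℂ := {x | ∃ j, (Y.Ex v x j ∧ Y.EF A (-v) j) ∨ (Y.Ex (-v) x j ∧ Y.EF A v j)} with hA1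
  set N1 : Set ℂ := {x | ∃ j, (Y.Ex v x j ∧ ¬ Y.EF A (-v) j) ∨ (Y.Ex (-v) x j ∧ ¬ Y.EF A v j)}
    with hN1
  have ho : ∀ P Q : ZMod n → Prop,
      IsOpen {x | ∃ j, (Y.Ex v x j ∧ P j) ∨ (Y.Ex (-v) x j ∧ Q j)} := by
    intro P Q
    have h1 : {x | ∃ j, (Y.Ex v x j ∧ P j) ∨ (Y.Ex (-v) x j ∧ Q j)} =
        ⋃ j, (({x | Y.Ex v x j} ∩ {x | P j}) ∪ ({x | Y.Ex (-v) x j} ∩ {x | Q j})) := by
      ext x
      simp only [Set.mem_ofPred_eq, Set.mem_iUnion, Set.mem_union, Set.mem_inter_iff]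
    rw [h1]
    apply isOpen_iUnion
    intro j
    exact ((hg.Ex_open hN v j).inter isOpen_const).union
      ((hg.Ex_open hN (-v) j).inter isOpen_const)
  have o1 : IsOpen A1 := ho _ _
  have o2 : IsOpen N1 := ho _ _
  have hcov : Y.Ω ⊆ A1 ∪ N1 := by
    intro x hx
    have h1 : (∃ j, Y.Ex v x j) ∨ (∃ j, Y.Ex (-v) x j) := by
      by_contra hcon
      push Not at hcon
      obtain ⟨c1, c2⟩ := hcon
      have d1 : ∃ a, ∃ t : ℝ, 0 < t ∧ Y.p a = x + t * v := by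
        by_contra h
        push Not at h
        obtain ⟨j, hj⟩ := hg.exists_Ex hN hv hx h
        exact c1 j hj
      have d2 : ∃ a, ∃ t : ℝ, 0 < t ∧ Y.p a = x + t * -v := by
        by_contra h
        push Not at h
        obtain ⟨j, hj⟩ := hg.exists_Ex hN hv' hx h
        exact c2 j hj
      obtain ⟨a, t, ht, ha⟩ := d1
      obtain ⟨b, t', ht', hb⟩ := d2
      apply hB
      refine ⟨hv, Y.p b, WW_vertex Y b, Y.p a, WW_vertex Y a, t + t', by linarith, ?_⟩
      rw [ha, hb]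
      push_cast
      ring
    rcases h1 with ⟨j, hj⟩ | ⟨j, hj⟩
    · by_cases h2 : Y.EF A (-v) j
      · exact Or.inl ⟨j, Or.inl ⟨hj, h2⟩⟩
      · exact Or.inr ⟨j, Or.inl ⟨hj, h2⟩⟩
    · by_cases h2 : Y.EF A v j
      · exact Or.inl ⟨j, Or.inr ⟨hj, h2⟩⟩
      · exact Or.inr ⟨j, Or.inr ⟨hj, h2⟩⟩
  have htr1 : ∀ {x : ℂ} {i j : ZMod n}, Y.Ex v x j → Y.Ex (-v) x i → Y.EF A (-v) j → Y.EF A v i :=
    fun h h' hF => hg.EF_transfer hN hΓf hΓ hΓr hv hvΓ hB h h' hF
  have htr2 : ∀ {x : ℂ} {i j : ZMod n}, Y.Ex v x j → Y.Ex (-v) x i → Y.EF A v i → Y.EF A (-v) j := by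
    intro x i j h h' hF
    have h2 : Y.Ex (- -v) x j := by rwa [neg_neg]
    have h3 : Y.EF A (- -v) i := by rwa [neg_neg]
    exact hg.EF_transfer hN hΓf hΓ hΓr hv' (hΓn v hvΓ) hB' h' h2 h3
  have hdisj : Disjoint A1 N1 := by
    rw [Set.disjoint_left]
    rintro x ⟨j, h1 | h1⟩ ⟨j', h2 | h2⟩
    · rw [hg.Ex_unique hN h1.1 h2.1] at h1
      exact h2.2 h1.2
    · exact h2.2 (htr1 h1.1 h2.1 h1.2)
    · exact h2.2 (htr2 h2.1 h1.1 h1.2)
    · rw [hg.Ex_unique hN h1.1 h2.1] at h1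
      exact h2.2 h1.2
  -- an absorbing side
  have hEFA : ∀ a ∈ A, ∀ w : ℂ, 0 < cr (Y.e a) w → ¬ Y.EF A w a := by
    intro a ha w hw hE
    have h1 : volume (Ioo 0 (Y.len a)) = 0 := by
      rw [measure_eq_zero_iff_ae_notMem]
      filter_upwards [hE] with s h1 h2
      exact ((h1 (hg.phase_em hw h2)).2 0).1 ha
    rw [Real.volume_Ioo, ENNReal.ofReal_eq_zero] at h1
    have := hg.len_pos a
    linarith
  -- the sides
  have htypeN : ∀ k, (Y.Tri η k ∩ N1).Nonempty → Y.Tri η k ⊆ N1 := by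
    intro k hk
    refine IsPreconnected.subset_left_of_subset_union o2 o1 hdisj.symm ?_ hk (tri_pre k)
    rw [Set.union_comm]
    exact (hg.tri_sub k).trans hcov
  have hstep : ∀ k, Y.Tri η k ⊆ N1 → Y.Tri η (k + 1) ⊆ N1 := by
    intro k hk
    obtain ⟨S, s1, s2, ⟨x, s3, s3'⟩, ⟨y, s4, s4'⟩⟩ := hg.exists_sector k
    have h1 : S ⊆ N1 := by
      refine IsPreconnected.subset_left_of_subset_union o2 o1 hdisj.symm ?_ ⟨x, s3, hk s3'⟩ s1
      rw [Set.union_comm]
      exact s2.trans hcov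
    exact htypeN _ ⟨y, s4', h1 s4⟩
  obtain ⟨a, ha⟩ := hA
  have hbase : Y.Tri η a ⊆ N1 := by
    apply htypeN
    rcases lt_or_gt_of_ne (hpar a) with h | h
    · obtain ⟨x, hx, hE⟩ := hg.exists_tri_Ex hN hv h
      refine ⟨x, hx, a, Or.inl ⟨hE, hEFA a ha _ ?_⟩⟩
      rw [n1]; linarith
    · obtain ⟨x, hx, hE⟩ := hg.exists_tri_Ex hN hv' (k := a) (by rw [n1]; linarith)
      exact ⟨x, hx, a, Or.inr ⟨hE, hEFA a ha _ h⟩⟩
  have hall : ∀ m : ℕ, Y.Tri η (a + m) ⊆ N1 := by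
    intro m
    induction m with
    | zero => simpa using hbase
    | succ m ih =>
      have := hstep _ ih
      rwa [Nat.cast_succ, ← add_assoc]
  have hi : Y.Tri η i ⊆ N1 := by
    have := hall (i - a).val
    rwa [ZMod.natCast_zmod_val, add_sub_cancel] at this
  obtain ⟨x, hx, hE⟩ := hg.exists_tri_Ex hN hv' (k := i) (by rw [n1]; linarith)
  have hnot : ¬ Y.EF A v i := by
    intro hEF
    exact Set.disjoint_left.1 hdisj ⟨i, Or.inr ⟨hE, hEF⟩⟩ (hi hx)
  have hθ : (Y.em v i (Y.len i / 2)).2 ∈ Y.Phase i :=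
    hg.phase_em hc ⟨by linarith [hg.len_pos i], by linarith [hg.len_pos i]⟩
  rcases hg.dichotomy (A := A) hN hΓf hΓ hΓr (i := i) (θ := (Y.em v i (Y.len i / 2)).2.2) hθ.2
    (g := v) (fun s => hg.dir_em hN hv i s) hvΓ hB with h1 | h1
  · exact h1
  · exact absurd h1 hnot

end SG

end Pool.Agent.Lib.MP_19d7db_an
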