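import Pool.Agent.Lib.MP_19d7db_an_F.Glob

/-!
# Billiards in simple polygons: almost all orbits hit an absorbing side
-/

open Complex Set Filter Topology MeasureTheory
open scoped ENNReal

namespace Pool.Agent.Lib.MP_19d7db_an

variable {n : ℕ}

/-- `Γ` is a finite set of directions which contains the directions of all the segments of an
orbit which avoids the absorbing sides as soon as it contains one of them. -/
structure Dom.Closed (Y : Dom n) (A : Set (ZMod n)) (Γ : Set ℂ) : Prop where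
  fin : Γ.Finite
  step : ∀ z z', Y.KK A z → Y.dir z ∈ Γ → Y.Hit z z' → Y.dir z' ∈ Γ
  back : ∀ z, Y.KK A z → Y.dir z ∈ Γ → Y.dir (rev z) ∈ Γ
  neg : ∀ v ∈ Γ, -v ∈ Γ

namespace SG

variable {Y : Dom n} {C η : ℝ} (hg : SG Y C η) {A : Set (ZMod n)}

include hg

lemma par_of_cr {v : ℂ} (hv : ‖v‖ = 1) {i : ZMod n} (h : cr (Y.e i) v = 0) :
    v = Y.e i / Y.ℓ i ∨ v = -(Y.e i / Y.ℓ i) := by
  have hℓ := hg.ell_pos i
  rw [hg.cr_e_T, hg.cr_T] at h
  have h1 : (v / (Y.e i / Y.ℓ i)).im = 0 := (mul_eq_zero.1 h).resolve_left hℓ.ne'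
  have hT := hg.T_ne i
  have h2 : ‖v / (Y.e i / Y.ℓ i)‖ = 1 := by rw [norm_div, hv, hg.norm_unit, div_one]
  have h3 : ((v / (Y.e i / Y.ℓ i)).re : ℂ) = v / (Y.e i / Y.ℓ i) := by
    apply Complex.ext
    · simp
    · rw [h1]; simp
  rw [← h3, Complex.norm_real, Real.norm_eq_abs] at h2
  have h4 : v = (v / (Y.e i / Y.ℓ i)).re * (Y.e i / Y.ℓ i) := by
    rw [h3, div_mul_cancel₀ _ hT]
  rcases abs_eq (by norm_num : (0 : ℝ) ≤ 1) |>.1 h2 with h5 | h5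
  · left
    rw [h5] at h4
    rw [h4]; simp
  · right
    rw [h5] at h4
    rw [h4]; simp

/-- If for almost all directions there is a closed finite set of directions, then almost all
orbits hit an absorbing side. -/
theorem K_null [NeZero n] (hN : ∀ i, i ∉ Y.D) (hA : A.Nonempty) {B : Set ℂ} (hB : B.Countable)
    (H : ∀ v : ℂ, ‖v‖ = 1 → v ∉ B → ∃ Γ, v ∈ Γ ∧ Y.Closed A Γ) (i : ZMod n) :
    volume {w : ℝ × ℝ | Y.KK A (i, w)} = 0 := by
  set B' : Set ℂ := B ∪ Y.Bd ∪ (Set.range (fun j => Y.e j / Y.ℓ j) ∪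
    Set.range (fun j => -(Y.e j / Y.ℓ j))) with hB'
  have hB'c : B'.Countable :=
    (hB.union (countable_Bd Y)).union ((Set.countable_range _).union (Set.countable_range _))
  set T := Y.e i / Y.ℓ i with hT
  have hT0 : T ≠ 0 := hg.T_ne i
  have hT1 : ‖T‖ = 1 := hg.norm_unit i
  have harg : ∀ θ ∈ Ioo 0 Real.pi, Complex.arg (exp ((θ : ℂ) * I)) = θ := by
    intro θ hθ
    rw [Complex.arg_exp_mul_I, toIocMod_eq_self]
    constructor <;> linarith [hθ.1, hθ.2]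
  have hθc : {θ : ℝ | θ ∈ Ioo 0 Real.pi ∧ T * exp ((θ : ℂ) * I) ∈ B'}.Countable := by
    apply Set.countable_of_injective_of_countable_image (f := fun θ : ℝ => T * exp ((θ : ℂ) * I))
    · rintro θ ⟨hθ, -⟩ θ' ⟨hθ', -⟩ h
      have h1 := mul_left_cancel₀ hT0 h
      have h2 := congrArg Complex.arg h1
      rwa [harg θ hθ, harg θ' hθ'] at h2
    · apply hB'c.mono
      rintro x ⟨θ, ⟨-, h⟩, rfl⟩
      exact h
  have hae : ∀ᵐ θ : ℝ, θ ∉ {θ : ℝ | θ ∈ Ioo 0 Real.pi ∧ T * exp ((θ : ℂ) * I) ∈ B'} := by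
    have := hθc.measure_zero volume
    rwa [measure_eq_zero_iff_ae_notMem] at this
  rw [Measure.volume_eq_prod, Measure.prod_apply_symm (hg.meas_K i)]
  rw [lintegral_eq_zero_iff' (measurable_measure_prodMk_right (hg.meas_K i)).aemeasurable]
  filter_upwards [hae] with θ hθ
  change volume {s : ℝ | Y.KK A (i, (s, θ))} = 0
  rw [measure_eq_zero_iff_ae_notMem]
  by_cases h1 : θ ∈ Ioo 0 Real.pi
  swap
  · apply Eventually.of_forall
    intro s hK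
    exact h1 hK.1.2
  set v := T * exp ((θ : ℂ) * I) with hv
  have h2 : v ∉ B' := fun h => hθ ⟨h1, h⟩
  have hv1 : ‖v‖ = 1 := by
    rw [hv, norm_mul, hT1, Complex.norm_exp_ofReal_mul_I, one_mul]
  obtain ⟨Γ, hvΓ, hΓ⟩ := H v hv1 (fun h => h2 (Or.inl (Or.inl h)))
  have hpar : ∀ j, cr (Y.e j) v ≠ 0 := by
    intro j hj
    rcases hg.par_of_cr hv1 hj with h | h
    · exact h2 (Or.inr (Or.inl ⟨j, h.symm⟩))
    · exact h2 (Or.inr (Or.inr ⟨j, h.symm⟩))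
  have h3 := hg.slice_null hN hΓ.fin hΓ.step hΓ.back hΓ.neg hA hv1 hvΓ
    (fun h => h2 (Or.inl (Or.inr h))) hpar i
  filter_upwards [h3] with s hs hK
  apply hs
  have h4 : Y.em v i s = (i, (s, θ)) := by
    simp only [Dom.em]
    rw [← hT, hv, mul_comm T, mul_div_assoc, div_self hT0, mul_one, harg θ h1]
  rw [h4]
  exact hK

/-- The reflection law. -/
lemma dir_refl (hN : ∀ i, i ∉ Y.D) (z : ZMod n × ℝ × ℝ) :
    Y.dir z = (Y.e z.1 / Y.ℓ z.1) ^ 2 * (starRingEnd ℂ) (Y.dirIn z) := by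
  have hT : (Y.e z.1 / Y.ℓ z.1) * (starRingEnd ℂ) (Y.e z.1 / Y.ℓ z.1) = 1 := by
    rw [Complex.mul_conj, Complex.normSq_eq_norm_sq, hg.norm_unit]; norm_num
  simp only [Table.dir, Table.dirIn]
  rw [hg.tan_N (hN _)]
  set T := Y.e z.1 / Y.ℓ z.1 with hTd
  simp only [map_mul, ← Complex.exp_conj, Complex.conj_I, map_neg, Complex.conj_ofReal, neg_mul,
    neg_neg]
  linear_combination (-(T * cexp (I * (z.2.2 : ℂ)))) * hT

lemma dirIn_refl (hN : ∀ i, i ∉ Y.D) (z : ZMod n × ℝ × ℝ) :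
    Y.dirIn z = (Y.e z.1 / Y.ℓ z.1) ^ 2 * (starRingEnd ℂ) (Y.dir z) := by
  have hT : (Y.e z.1 / Y.ℓ z.1) * (starRingEnd ℂ) (Y.e z.1 / Y.ℓ z.1) = 1 := by
    rw [Complex.mul_conj, Complex.normSq_eq_norm_sq, hg.norm_unit]; norm_num
  simp only [Table.dir, Table.dirIn]
  rw [hg.tan_N (hN _)]
  set T := Y.e z.1 / Y.ℓ z.1 with hTd
  simp only [map_mul, ← Complex.exp_conj, Complex.conj_I, map_neg, Complex.conj_ofReal, neg_mul,
    neg_neg]
  linear_combination (-(T * cexp (-(I * (z.2.2 : ℂ))))) * hT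

omit hg in
lemma KK.notMem {z : ZMod n × ℝ × ℝ} (h : Y.KK A z) : z.1 ∉ A := (h.2 0).1

end SG

/-- The reduction of the hyperbolicity of a semi-dispersive polygon with large radii to the
polygon with absorbing sides. -/
theorem hyperbolic_of_closed (hn : 3 ≤ n) (p : ZMod n → ℂ) (Ω : Set ℂ) (hdom : PolyDom p Ω)
    (D : Set (ZMod n)) (hD : D.Nonempty)
    (H : ∀ Y : Dom n, Y.p = p → Y.Ω = Ω → Y.D = ∅ → (∃ C η, SG Y C η) →
      ∃ B : Set ℂ, B.Countable ∧ ∀ v : ℂ, ‖v‖ = 1 → v ∉ B → ∃ Γ, v ∈ Γ ∧ Y.Closed D Γ) :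
    ∃ R : ℝ, ∀ ρ : ZMod n → ℝ, (∀ k ∈ D, R ≤ ρ k) →
      (Dom.mk (Table.mk p D ρ) Ω).Hyperbolic := by
  have : NeZero n := ⟨by omega⟩
  obtain ⟨R, hR⟩ := exists_sg hn p Ω hdom D
  obtain ⟨R0, hR0⟩ := exists_sg hn p Ω hdom ∅
  refine ⟨R, fun ρ hρ => ?_⟩
  obtain ⟨C, η, hg⟩ := hR ρ hρ
  obtain ⟨C0, η0, hg0⟩ := hR0 (fun _ => 0) (fun k hk => absurd hk (Set.notMem_empty k))
  set Y' : Dom n := Dom.mk (Table.mk p ∅ (fun _ => 0)) Ω with hY'
  have hN : ∀ i, i ∉ Y'.D := fun i => Set.notMem_empty i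
  obtain ⟨B, hB, H1⟩ := H Y' rfl rfl rfl ⟨C0, η0, hg0⟩
  apply hg.hyperbolic_of_flat (Y' := Y') rfl rfl rfl
  intro i _
  exact hg0.SS_null (fun j => hg0.K_null hN hD hB H1 j) i

end Pool.Agent.Lib.MP_19d7db_an
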