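import Pool.Agent.Lib.MP_19d7db_an_F.Flat

/-!
# Billiards in simple polygons: parallel displacement of orbits
-/

open Complex Set Filter Topology MeasureTheory
open scoped ENNReal

namespace Pool.Agent.Lib.MP_19d7db_an

variable {n : ℕ}

/-- Parallel displacement of the ray of a phase point by the distance `δ`. -/
noncomputable def sh (z : ZMod n × ℝ × ℝ) (δ : ℝ) : ZMod n × ℝ × ℝ :=
  (z.1, (z.2.1 + δ / Real.sin z.2.2, z.2.2))

lemma sh_zero (z : ZMod n × ℝ × ℝ) : sh z 0 = z := by simp [sh]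

lemma sh_sh (z : ZMod n × ℝ × ℝ) (δ δ' : ℝ) : sh (sh z δ) δ' = sh z (δ + δ') := by
  simp only [sh]
  congr 2
  ring

lemma sh_inj {y y' : ZMod n × ℝ × ℝ} {a b c : ℝ} (h : sh y a = sh y' b) :
    sh y (a + c) = sh y' (b + c) := by
  rw [← sh_sh, h, sh_sh]

lemma rev_sh (z : ZMod n × ℝ × ℝ) (δ : ℝ) : rev (sh z δ) = sh (rev z) δ := by
  simp [rev, sh, Real.sin_pi_sub]

/-- Reflection in the line of the side `j`. -/
noncomputable def Dom.refl (Y : Dom n) (j : ZMod n) (x : ℂ) : ℂ :=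
  Y.p j + (Y.e j / Y.ℓ j) ^ 2 * (starRingEnd ℂ) (x - Y.p j)

/-- Images of the vertices under at most `k` reflections. -/
noncomputable def Dom.Wn (Y : Dom n) : ℕ → Set ℂ
  | 0 => Set.range Y.p
  | k + 1 => ⋃ j, Y.refl j '' Dom.Wn Y k

/-- Images of the vertices under compositions of reflections in the lines of the sides. -/
noncomputable def Dom.WW (Y : Dom n) : Set ℂ := ⋃ k, Y.Wn k

lemma countable_WW [NeZero n] (Y : Dom n) : Y.WW.Countable := by
  have h : ∀ k, (Y.Wn k).Countable := by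
    intro k
    induction k with
    | zero => exact Set.countable_range _
    | succ k ih => exact Set.countable_iUnion fun j => ih.image _
  exact Set.countable_iUnion h

lemma WW_vertex (Y : Dom n) (b : ZMod n) : Y.p b ∈ Y.WW := Set.mem_iUnion.2 ⟨0, b, rfl⟩

lemma WW_refl (Y : Dom n) {x : ℂ} (hx : x ∈ Y.WW) (j : ZMod n) : Y.refl j x ∈ Y.WW := by
  obtain ⟨k, hk⟩ := Set.mem_iUnion.1 hx
  exact Set.mem_iUnion.2 ⟨k + 1, Set.mem_iUnion.2 ⟨j, x, hk, rfl⟩⟩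

/-- The unfolded ray of the phase point contains the image of a vertex. -/
def Dom.FS (Y : Dom n) (z : ZMod n × ℝ × ℝ) : Prop :=
  ∃ x ∈ Y.WW, ∃ τ : ℝ, 0 < τ ∧ x = Y.pos z.1 z.2.1 + τ * Y.dir z

/-- The directions of the differences of images of vertices. -/
def Dom.Bd (Y : Dom n) : Set ℂ :=
  {g | ‖g‖ = 1 ∧ ∃ x ∈ Y.WW, ∃ y ∈ Y.WW, ∃ t : ℝ, 0 < t ∧ y - x = t * g}

lemma countable_Bd [NeZero n] (Y : Dom n) : Y.Bd.Countable := by
  have h1 : (Y.WW ×ˢ Y.WW).Countable := (countable_WW Y).prod (countable_WW Y)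
  have h2 : Y.Bd ⊆ (fun q : ℂ × ℂ => (q.2 - q.1) / ‖q.2 - q.1‖) '' (Y.WW ×ˢ Y.WW) := by
    rintro g ⟨hg, x, hx, y, hy, t, ht, hxy⟩
    refine ⟨(x, y), ⟨hx, hy⟩, ?_⟩
    simp only
    rw [hxy, norm_mul, hg, mul_one, Complex.norm_real, Real.norm_eq_abs, abs_of_pos ht]
    have : (t : ℂ) ≠ 0 := by exact_mod_cast ht.ne'
    field_simp
  exact (h1.image _).mono h2

namespace SG

variable {Y : Dom n} {C η : ℝ} (hg : SG Y C η)

include hg

lemma dir_sh (hN : ∀ i, i ∉ Y.D) (z : ZMod n × ℝ × ℝ) (δ : ℝ) : Y.dir (sh z δ) = Y.dir z := by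
  simp only [Table.dir, sh]
  rw [hg.tan_N (hN _), hg.tan_N (hN _)]

lemma dirIn_sh (hN : ∀ i, i ∉ Y.D) (z : ZMod n × ℝ × ℝ) (δ : ℝ) :
    Y.dirIn (sh z δ) = Y.dirIn z := by
  simp only [Table.dirIn, sh]
  rw [hg.tan_N (hN _), hg.tan_N (hN _)]

lemma pos_sh (hN : ∀ i, i ∉ Y.D) (z : ZMod n × ℝ × ℝ) (δ : ℝ) :
    Y.pos (sh z δ).1 (sh z δ).2.1 = Y.pos z.1 z.2.1 +
      (δ / Real.sin z.2.2 : ℝ) * (Y.e z.1 / Y.ℓ z.1) := by
  simp only [sh]
  rw [Y.pos_N (hN _), Y.pos_N (hN _)]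
  push_cast
  ring

/-- The image of a displaced ray is the displaced image. -/
lemma offset (hN : ∀ i, i ∉ Y.D) {z z' y' : ZMod n × ℝ × ℝ} {δ : ℝ} (h : Y.Hit z z')
    (h2 : Y.Hit (sh z δ) y') (hj : y'.1 = z'.1) : y' = sh z' (-δ) := by
  obtain ⟨i, s, θ⟩ := z
  obtain ⟨j, s', θ'⟩ := z'
  obtain ⟨k, x, ψ⟩ := y'
  simp only at hj
  subst hj
  have hdsh := hg.dir_sh hN (i, (s, θ)) δ
  have hpsh := hg.pos_sh hN (i, (s, θ)) δ
  obtain ⟨hw, hw', t, ht, hpos, hdir, -⟩ := h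
  obtain ⟨hu, hu', t', ht', hpos', hdir', -⟩ := h2
  rw [hdsh] at hdir' hpos'
  simp only at hw hw' hpos hdir hu hu' hpos' hdir' hpsh
  rw [hpsh] at hpos'
  have s1 := hg.sin_pos_of_phase hw
  have s2 := hg.sin_pos_of_phase hw'
  simp only at s1 s2
  -- the angles
  have hθ : ψ = θ' := by
    have h3 : Y.dirIn (k, (x, ψ)) = Y.dirIn (k, (s', θ')) := by rw [hdir, hdir']
    rw [Table.dirIn, Table.dirIn, hg.tan_N (hN _), hg.tan_N (hN _)] at h3
    simp only at h3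
    have ht0 : Y.e k / Y.ℓ k ≠ 0 := by
      intro h; have := hg.norm_unit k; rw [h, norm_zero] at this; exact zero_ne_one this
    have h4 := mul_left_cancel₀ ht0 h3
    have h6 : exp (((-ψ : ℝ) : ℂ) * I) = exp (((-θ' : ℝ) : ℂ) * I) := by
      have e1 : (((-ψ : ℝ) : ℂ) * I) = -(I * (ψ : ℂ)) := by push_cast; ring
      have e2 : (((-θ' : ℝ) : ℂ) * I) = -(I * (θ' : ℂ)) := by push_cast; ring
      rw [e1, e2]; exact h4
    have h7 := congrArg Complex.arg h6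
    rw [Complex.arg_exp_mul_I, Complex.arg_exp_mul_I] at h7
    have c1 := hw'.2
    have c2 := hu'.2
    simp only [Set.mem_Ioo] at c1 c2
    have b1 : toIocMod Real.two_pi_pos (-Real.pi) (-ψ) = -ψ := by
      rw [toIocMod_eq_self]; constructor <;> linarith [c2.1, c2.2]
    have b2 : toIocMod Real.two_pi_pos (-Real.pi) (-θ') = -θ' := by
      rw [toIocMod_eq_self]; constructor <;> linarith [c1.1, c1.2]
    rw [b1, b2] at h7
    linarith
  subst hθ
  -- the positions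
  set v := Y.dir (i, (s, θ)) with hv
  have c1 : cr (Y.e i / Y.ℓ i) v = Real.sin θ := by
    have := hg.cr_tan_dir i (s, θ)
    rw [hg.tan_N (hN _)] at this
    exact this
  have c2 : cr (Y.e k / Y.ℓ k) v = -Real.sin ψ := by
    have := hg.cr_tan_dirIn k (s', ψ)
    rw [hg.tan_N (hN _), hdir] at this
    exact this
  have hs : (x - s') * Real.sin ψ = -δ := by
    have h3 : Y.pos k x - Y.pos k s' = ((δ / Real.sin θ : ℝ) : ℂ) * (Y.e i / Y.ℓ i) +
        ((t' - t : ℝ) : ℂ) * v := by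
      rw [hpos, hpos']; push_cast; ring
    have h4 : Y.pos k x - Y.pos k s' = ((x - s' : ℝ) : ℂ) * (Y.e k / Y.ℓ k) := by
      rw [Y.pos_N (hN _), Y.pos_N (hN _)]; push_cast; ring
    rw [h4] at h3
    have h5 := congrArg (fun q => cr v q) h3
    simp only [cr_add_right, cr_smul_right, cr_self, mul_zero, add_zero] at h5
    rw [cr_comm v (Y.e k / Y.ℓ k), cr_comm v (Y.e i / Y.ℓ i), c1, c2] at h5
    field_simp at h5
    linarith
  simp only [sh]
  have : x = s' + -δ / Real.sin ψ := by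
    field_simp
    linarith
  rw [this]

/-- Displacement of a collision. -/
lemma hit_sh [NeZero n] (hN : ∀ i, i ∉ Y.D) {z z' : ZMod n × ℝ × ℝ} (h : Y.Hit z z') :
    ∀ᶠ δ : ℝ in 𝓝 0, Y.Hit (sh z δ) (sh z' (-δ)) := by
  obtain ⟨i, w⟩ := z
  obtain ⟨j, w'⟩ := z'
  obtain ⟨F, A, t, ht, hFw, hFd, hF, -⟩ := hg.hit_local h
  have hc : Tendsto (fun δ : ℝ => (sh (i, w) δ).2) (𝓝 0) (𝓝 w) := by
    have h1 : Continuous fun δ : ℝ => (sh (i, w) δ).2 := by
      simp only [sh]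
      fun_prop
    have h2 := h1.tendsto 0
    rwa [sh_zero] at h2
  filter_upwards [hc.eventually hF] with δ h1
  have h2 : Y.Hit (sh (i, w) δ) (j, F (sh (i, w) δ).2) := h1
  have h3 := hg.offset hN h h2 rfl
  rwa [← h3]

/-- A ray which does not run into a vertex has a collision. -/
lemma exists_hit' [NeZero n] (hN : ∀ i, i ∉ Y.D) {z : ZMod n × ℝ × ℝ}
    (hz : z.2 ∈ Y.Phase z.1)
    (hv : ∀ a, ∀ t : ℝ, 0 < t → Y.p a ≠ Y.pos z.1 z.2.1 + t * Y.dir z) :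
    ∃ z', Y.Hit z z' := by
  obtain ⟨i, w⟩ := z
  simp only at hz hv
  obtain ⟨d, hd⟩ := hg.dom.isBounded.exists_norm_le
  set q := Y.pos i w.1 with hq
  set v := Y.dir (i, w) with hvd
  have hv1 : ‖v‖ = 1 := hg.norm_dir _
  have hnear := hg.inside_near hz
  rw [← hq, ← hvd] at hnear
  obtain ⟨ε, hε, hεin⟩ := mem_nhdsGT_iff_exists_Ioo_subset.1 hnear
  have hε0 : 0 < ε := hε
  have hcont : Continuous fun u : ℝ => q + u * v := by fun_prop
  have hfar : ∀ u : ℝ, d + ‖q‖ < u → ¬ Y.inside (q + u * v) := by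
    intro u hu hin
    have h1 := hd (q + u * v) hin.1
    have h2 : (u : ℂ) * v = (q + u * v) - q := by ring
    have h3 : ‖(u : ℂ) * v‖ ≤ ‖q + u * v‖ + ‖q‖ := by
      conv_lhs => rw [h2]
      exact norm_sub_le _ _
    rw [norm_mul, hv1, Complex.norm_real, Real.norm_eq_abs, mul_one] at h3
    have := le_abs_self u
    linarith
  set S : Set ℝ := {u | ε / 2 ≤ u ∧ ¬ Y.inside (q + u * v)} with hS
  have hSc : IsClosed S := by
    have h1 : IsClosed {u : ℝ | ¬ Y.inside (q + u * v)} := by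
      have : {u : ℝ | ¬ Y.inside (q + u * v)} =
        (fun u : ℝ => q + u * v) ⁻¹' {x : ℂ | Y.inside x}ᶜ := rfl
      rw [this]
      exact (hg.isOpen_inside.isClosed_compl).preimage hcont
    exact (isClosed_le continuous_const continuous_id).inter h1
  have hSn : S.Nonempty := by
    refine ⟨max (ε / 2) (d + ‖q‖ + 1), le_max_left _ _, hfar _ ?_⟩
    have := le_max_right (ε / 2) (d + ‖q‖ + 1)
    linarith
  have hSb : BddBelow S := ⟨ε / 2, fun u hu => hu.1⟩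
  set t := sInf S with ht
  have htS : t ∈ S := hSc.csInf_mem hSn hSb
  have ht0 : 0 < t := by have := htS.1; linarith
  have hin : ∀ u ∈ Ioo 0 t, Y.inside (q + u * v) := by
    intro u hu
    by_cases h1 : u < ε
    · exact hεin ⟨hu.1, h1⟩
    · by_contra h2
      have : u ∈ S := ⟨by linarith, h2⟩
      have := csInf_le hSb this
      linarith [hu.2]
  have htcl : t ∈ closure (Ioo 0 t) := by
    rw [closure_Ioo ht0.ne]; exact ⟨ht0.le, le_rfl⟩
  have hxcl : q + t * v ∈ closure {y | Y.inside y} :=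
    map_mem_closure (f := fun u : ℝ => q + u * v) hcont htcl hin
  rcases hg.classify hxcl htS.2 with ⟨a, ha⟩ | ⟨j, s, hs, hx⟩
  · exact absurd ha.symm (hv a t ht0)
  have hback : Tendsto (fun r : ℝ => (q + t * v) + ((-r : ℝ) : ℂ) * v) (𝓝[>] 0)
      (𝓝 (Y.pos j s)) := by
    have hc1 : Continuous fun r : ℝ => (q + t * v) + ((-r : ℝ) : ℂ) * v := by fun_prop
    have h0 : (q + t * v) + ((-(0 : ℝ) : ℝ) : ℂ) * v = Y.pos j s := by rw [← hx]; simp
    have := hc1.tendsto 0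
    rw [h0] at this
    exact this.mono_left nhdsWithin_le_nhds
  have hrin : ∀ᶠ r : ℝ in 𝓝[>] 0, Y.inside ((q + t * v) + ((-r : ℝ) : ℂ) * v) := by
    filter_upwards [Ioo_mem_nhdsGT ht0] with r hr
    have h3 : (q + t * v) + ((-r : ℝ) : ℂ) * v = q + ((t - r : ℝ) : ℂ) * v := by
      push_cast; ring
    rw [h3]
    exact hin _ ⟨by linarith [hr.2], by linarith [hr.1]⟩
  have hneg : cr (Y.tan j s) v < 0 := by
    have h1 : Y.f j (q + t * v) = 0 := by rw [hx]; exact hg.f_N hs (hN j)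
    obtain ⟨r, ⟨hr1, hr2⟩, hr3⟩ := ((hrin.and (hback.eventually (hg.near_N hs (hN j)))).and
      self_mem_nhdsWithin).exists
    have hr0 : 0 < r := hr3
    have h2 := hr2.1 hr1
    rw [Y.toTable.f_add, h1, hg.cr_e_eq (hN j) s] at h2
    have h3 := hg.ell_pos j
    by_contra hcon
    push Not at hcon
    have := mul_nonneg hr0.le (mul_nonneg h3.le hcon)
    linarith
  have hT1 : ‖Y.tan j s‖ = 1 := hg.norm_tan j s
  have hT0 : Y.tan j s ≠ 0 := by rw [← norm_pos_iff, hT1]; norm_num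
  set x := v / Y.tan j s with hz'
  have hvz : v = Y.tan j s * x := by rw [hz']; field_simp
  have hz1 : ‖x‖ = 1 := by rw [hz', norm_div, hv1, hT1, div_one]
  have hzim : x.im < 0 := by
    rw [hvz, cr_mul_left, hT1] at hneg
    linarith
  have harg : Complex.arg x < 0 := Complex.arg_neg_iff.2 hzim
  have harg' : -Real.pi < Complex.arg x := Complex.neg_pi_lt_arg x
  have hzexp : x = exp (Complex.arg x * I) := by
    have := Complex.norm_mul_exp_arg_mul_I x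
    rw [hz1, ofReal_one, one_mul] at this
    exact this.symm
  refine ⟨(j, (s, -Complex.arg x)), hz, ⟨hs, ?_, ?_⟩, t, ht0, ?_, ?_, ?_⟩
  · simp only; linarith
  · simp only; linarith
  · simp only; rw [← hx]
  · rw [Table.dirIn]
    simp only
    rw [← hvd, hvz]
    congr 1
    conv_rhs => rw [hzexp]
    congr 1
    push_cast; ring
  · exact hin

lemma hit_of_not_FS [NeZero n] (hN : ∀ i, i ∉ Y.D) {z : ZMod n × ℝ × ℝ}
    (hz : z.2 ∈ Y.Phase z.1) (h : ¬ Y.FS z) : ∃ z', Y.Hit z z' :=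
  hg.exists_hit' hN hz fun a t ht hx => h ⟨Y.p a, WW_vertex Y a, t, ht, hx⟩

/-- The reflection at the end of a flight. -/
lemma refl_ray (hN : ∀ i, i ∉ Y.D) (z : ZMod n × ℝ × ℝ) (τ : ℝ) :
    Y.refl z.1 (Y.pos z.1 z.2.1 + τ * Y.dir z) = Y.pos z.1 z.2.1 + τ * Y.dirIn z := by
  have hT : (Y.e z.1 / Y.ℓ z.1) * (starRingEnd ℂ) (Y.e z.1 / Y.ℓ z.1) = 1 := by
    rw [Complex.mul_conj, Complex.normSq_eq_norm_sq, hg.norm_unit]; norm_num
  simp only [Dom.refl, Table.dir, Table.dirIn]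
  rw [hg.tan_N (hN _), Y.pos_N (hN _)]
  set T := Y.e z.1 / Y.ℓ z.1 with hTd
  simp only [map_sub, map_add, map_mul, Complex.conj_ofReal, ← Complex.exp_conj, Complex.conj_I,
    neg_mul]
  linear_combination (T * (z.2.1 : ℂ) + T * (τ : ℂ) * cexp (-(I * (z.2.2 : ℂ)))) * hT

lemma refl_ray' (hN : ∀ i, i ∉ Y.D) (z : ZMod n × ℝ × ℝ) (τ : ℝ) :
    Y.refl z.1 (Y.pos z.1 z.2.1 + τ * Y.dirIn z) = Y.pos z.1 z.2.1 + τ * Y.dir z := by
  have hT : (Y.e z.1 / Y.ℓ z.1) * (starRingEnd ℂ) (Y.e z.1 / Y.ℓ z.1) = 1 := by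
    rw [Complex.mul_conj, Complex.normSq_eq_norm_sq, hg.norm_unit]; norm_num
  simp only [Dom.refl, Table.dir, Table.dirIn]
  rw [hg.tan_N (hN _), Y.pos_N (hN _)]
  set T := Y.e z.1 / Y.ℓ z.1 with hTd
  simp only [map_sub, map_add, map_mul, Complex.conj_ofReal, ← Complex.exp_conj, Complex.conj_I,
    neg_mul, map_neg, neg_neg]
  linear_combination (T * (z.2.1 : ℂ) + T * (τ : ℂ) * cexp (I * (z.2.2 : ℂ))) * hT

lemma dir_rev (z : ZMod n × ℝ × ℝ) : Y.dir (rev z) = -Y.dirIn z := by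
  simp only [Table.dir, Table.dirIn, rev]
  have : I * (((Real.pi - z.2.2 : ℝ)) : ℂ) = -(I * (z.2.2 : ℂ)) + Real.pi * I := by
    push_cast; ring
  rw [this, Complex.exp_add, Complex.exp_pi_mul_I]; ring

lemma FS_step (hN : ∀ i, i ∉ Y.D) {z z' : ZMod n × ℝ × ℝ} (h : Y.Hit z z') (hF : Y.FS z') :
    Y.FS z := by
  obtain ⟨x, hx, τ, hτ, hxe⟩ := hF
  obtain ⟨-, -, t, ht, hpos, hdir, -⟩ := h
  refine ⟨Y.refl z'.1 x, WW_refl Y hx _, t + τ, by linarith, ?_⟩
  rw [hxe, hg.refl_ray hN, hdir, hpos]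
  push_cast; ring

lemma FS_both (hN : ∀ i, i ∉ Y.D) {z : ZMod n × ℝ × ℝ} (h1 : Y.FS z) (h2 : Y.FS (rev z)) :
    Y.dir z ∈ Y.Bd := by
  obtain ⟨y, hy, τ, hτ, hye⟩ := h1
  obtain ⟨x, hx, τ', hτ', hxe⟩ := h2
  refine ⟨hg.norm_dir _, Y.refl z.1 x, WW_refl Y hx _, y, hy, τ + τ', by linarith, ?_⟩
  have h3 : x = Y.pos z.1 z.2.1 + ((-τ' : ℝ) : ℂ) * Y.dirIn z := by
    rw [hxe, hg.dir_rev]
    simp only [rev]
    push_cast; ring
  rw [h3, hg.refl_ray' hN, hye]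
  push_cast; ring

/-- Rays between which no ray runs into a vertex hit the same side. -/
lemma hit_seg [NeZero n] (hN : ∀ i, i ∉ Y.D) {z z' : ZMod n × ℝ × ℝ} (h : Y.Hit z z')
    {σ r : ℝ} (hr : ∀ x ∈ Ico 0 r, ∃ y, Y.Hit (sh z (σ * x)) y) :
    ∀ x ∈ Ico 0 r, Y.Hit (sh z (σ * x)) (sh z' (-(σ * x))) := by
  intro x₀ hx₀
  set U1 : Set ℝ := {x | Y.Hit (sh z (σ * x)) (sh z' (-(σ * x)))} with hU1
  set U2 : Set ℝ := {x | ∃ y, Y.Hit (sh z (σ * x)) y ∧ y ≠ sh z' (-(σ * x))} with hU2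
  have hlin : ∀ x : ℝ, Tendsto (fun x' : ℝ => σ * (x' - x)) (𝓝 x) (𝓝 0) := by
    intro x
    have h1 : Continuous fun x' : ℝ => σ * (x' - x) := by fun_prop
    have := h1.tendsto x
    simpa using this
  have o1 : IsOpen U1 := by
    rw [isOpen_iff_mem_nhds]
    intro x hx
    filter_upwards [(hlin x).eventually (hg.hit_sh hN hx)] with x' hx'
    rw [sh_sh, sh_sh] at hx'
    have e1 : σ * x + σ * (x' - x) = σ * x' := by ring
    have e2 : -(σ * x) + -(σ * (x' - x)) = -(σ * x') := by ring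
    rw [e1, e2] at hx'
    exact hx'
  have o2 : IsOpen U2 := by
    rw [isOpen_iff_mem_nhds]
    rintro x ⟨y, hy, hne⟩
    filter_upwards [(hlin x).eventually (hg.hit_sh hN hy)] with x' hx'
    rw [sh_sh] at hx'
    have e1 : σ * x + σ * (x' - x) = σ * x' := by ring
    rw [e1] at hx'
    refine ⟨_, hx', fun hcon => hne ?_⟩
    have h2 := sh_inj (c := σ * (x' - x)) hcon
    rw [neg_add_cancel, sh_zero] at h2
    rw [h2]
    congr 1
    ring
  have hdisj : Disjoint U1 U2 := by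
    rw [Set.disjoint_left]
    rintro x hx ⟨y, hy, hne⟩
    exact hne (hg.hit_unique' hy hx)
  have hcov : Ico 0 r ⊆ U1 ∪ U2 := by
    intro x hx
    obtain ⟨y, hy⟩ := hr x hx
    by_cases hy' : y = sh z' (-(σ * x))
    · left; rw [hy'] at hy; exact hy
    · right; exact ⟨y, hy, hy'⟩
  have h0 : (0 : ℝ) ∈ Ico 0 r := ⟨le_rfl, hx₀.1.trans_lt hx₀.2⟩
  have hne : (Ico 0 r ∩ U1).Nonempty := by
    refine ⟨0, h0, ?_⟩
    change Y.Hit (sh z (σ * 0)) (sh z' (-(σ * 0)))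
    rw [mul_zero, neg_zero, sh_zero, sh_zero]
    exact h
  exact (isPreconnected_Ico.subset_left_of_subset_union o1 o2 hdisj hcov hne) hx₀

/-- On every component there are finitely many rays of a given direction without collision. -/
lemma finite_sing [NeZero n] (hN : ∀ i, i ∉ Y.D) (i : ZMod n) (θ : ℝ) :
    {s : ℝ | (s, θ) ∈ Y.Phase i ∧ ¬ ∃ z', Y.Hit (i, (s, θ)) z'}.Finite := by
  have h1 : {s : ℝ | (s, θ) ∈ Y.Phase i ∧ ¬ ∃ z', Y.Hit (i, (s, θ)) z'} ⊆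
      ⋃ a : ZMod n, {s : ℝ | (s, θ) ∈ Y.Phase i ∧
        ∃ t : ℝ, 0 < t ∧ Y.p a = Y.pos i s + t * Y.dir (i, (s, θ))} := by
    rintro s ⟨hs, hno⟩
    by_contra hcon
    apply hno
    apply hg.exists_hit' hN (z := (i, (s, θ))) hs
    intro a t ht hx
    exact hcon (Set.mem_iUnion.2 ⟨a, hs, t, ht, hx⟩)
  apply (Set.finite_iUnion fun a => ?_).subset h1
  apply Set.Subsingleton.finite
  rintro s ⟨hs, t, ht, h2⟩ s' ⟨hs', t', ht', h3⟩
  have hd : Y.dir (i, (s, θ)) = Y.dir (i, (s', θ)) := by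
    simp only [Table.dir]
    rw [hg.tan_N (hN _), hg.tan_N (hN _)]
  rw [← hd] at h3
  have s1 := hg.sin_pos_of_phase hs
  simp only at s1
  have c1 : cr (Y.e i / Y.ℓ i) (Y.dir (i, (s, θ))) = Real.sin θ := by
    have := hg.cr_tan_dir i (s, θ)
    rw [hg.tan_N (hN _)] at this
    exact this
  have h4 : ((s - s' : ℝ) : ℂ) * (Y.e i / Y.ℓ i) = ((t' - t : ℝ) : ℂ) * Y.dir (i, (s, θ)) := by
    have h5 : Y.pos i s - Y.pos i s' = ((s - s' : ℝ) : ℂ) * (Y.e i / Y.ℓ i) := by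
      rw [Y.pos_N (hN _), Y.pos_N (hN _)]; push_cast; ring
    rw [← h5]
    push_cast
    linear_combination h3 - h2
  have h5 := congrArg (fun q => cr (Y.dir (i, (s, θ))) q) h4
  simp only [cr_smul_right, cr_self, mul_zero] at h5
  rw [cr_comm, c1] at h5
  have h6 : (s - s') * Real.sin θ = 0 := by linarith
  have := (mul_eq_zero.1 h6).resolve_right s1.ne'
  linarith

end SG

end Pool.Agent.Lib.MP_19d7db_an
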